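import Pool.Agent.H91.Mono.Sym4

/-! The remaining eigenvalue of a similitude of odd rank. -/

namespace Pool.Agent.H91O

open Polynomial Pool.Agent.H93Tate Pool.Agent.H91.Mono

/-- the constant coefficient of a monic Weil polynomial -/
theorem csq_coeff {P : ℚ[X]} (hm : P.Monic) {q : ℝ}
    (hweil : ∀ z : ℂ, aeval z P = 0 → ‖z‖ ^ 2 = q) :
    ((P.coeff 0 : ℚ) : ℝ) ^ 2 = q ^ P.natDegree := by
  have hsp : (P.map (algebraMap ℚ ℂ)).Splits := IsAlgClosed.splits _
  have hmm : (P.map (algebraMap ℚ ℂ)).Monic := hm.map _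
  have h1 := hsp.coeff_zero_eq_prod_roots_of_monic hmm
  have h2 : ‖(P.map (algebraMap ℚ ℂ)).coeff 0‖ ^ 2 =
      ‖(-1) ^ (P.map (algebraMap ℚ ℂ)).natDegree * (P.map (algebraMap ℚ ℂ)).roots.prod‖ ^ 2 := by
    rw [h1]
  rw [coeff_map, norm_mul, norm_pow, norm_neg, norm_one, one_pow, one_mul] at h2
  have h3 : ‖(algebraMap ℚ ℂ) (P.coeff 0)‖ ^ 2 = ((P.coeff 0 : ℚ) : ℝ) ^ 2 := by
    have e : (algebraMap ℚ ℂ) (P.coeff 0) = (((P.coeff 0 : ℚ) : ℝ) : ℂ) := by
      rw [eq_ratCast]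
      push_cast
      rfl
    rw [e, Complex.norm_real, Real.norm_eq_abs, sq_abs]
  rw [h3] at h2
  rw [h2]
  have h4 : ∀ s : Multiset ℂ, (∀ z ∈ s, ‖z‖ ^ 2 = q) → ‖s.prod‖ ^ 2 = q ^ Multiset.card s := by
    intro s
    induction s using Multiset.induction_on with
    | empty => intro _; simp
    | cons a s ih =>
      intro h
      rw [Multiset.prod_cons, norm_mul, mul_pow, h a (Multiset.mem_cons_self a s),
        ih (fun z hz => h z (Multiset.mem_cons_of_mem hz)), Multiset.card_cons, pow_succ, mul_comm]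
  rw [h4 _ (fun z hz => hweil z ?_), ← hsp.natDegree_eq_card_roots, natDegree_map]
  have h5 := (mem_roots hmm.ne_zero).1 hz
  rwa [IsRoot.def, eval_map_algebraMap] at h5

theorem c_sq {p n : ℕ} [Fact p.Prime] {P : ℚ[X]} (hP : Irreducible P) (hdeg : 2 < P.natDegree)
    (hweil : ∀ z : ℂ, aeval z P = 0 → ‖z‖ ^ 2 = (p : ℝ) ^ n) {K : Type*} [Field K] [CharZero K]
    {V : Type*} [AddCommGroup V] [Module K V] [FiniteDimensional K V] (ψ : V →ₗ[K] V →ₗ[K] K)
    (hnd : ∀ v, (∀ w, ψ v w = 0) → v = 0) (F : V ≃ₗ[K] V) (c : K)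
    (hchar : LinearMap.charpoly (F : V →ₗ[K] V) = (X - C c) * P.map (algebraMap ℚ K))
    (hmult : ∀ u v, ψ (F u) (F v) = (p : K) ^ n * ψ u v) : c ^ 2 = (p : K) ^ n := by
  classical
  have hm : P.Monic := by
    have h1 : ((X - C c) * P.map (algebraMap ℚ K)).Monic := by
      rw [← hchar]
      exact LinearMap.charpoly_monic _
    have h2 := (monic_X_sub_C c).of_mul_monic_left h1
    exact monic_of_injective (algebraMap ℚ K).injective h2
  -- the constant coefficient
  have hP0 : (P.coeff 0) ^ 2 = ((p : ℚ) ^ n) ^ P.natDegree := by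
    have h := csq_coeff hm hweil
    exact_mod_cast h
  have hP0K : (algebraMap ℚ K (P.coeff 0)) ^ 2 = ((p : K) ^ n) ^ P.natDegree := by
    have h := congrArg (algebraMap ℚ K) hP0
    rw [map_pow, map_pow, map_pow, map_natCast] at h
    exact h
  -- the determinant
  let b := Module.finBasis K V
  set J := LinearMap.toMatrix₂ b b ψ with hJ
  set M := LinearMap.toMatrix b b (F : V →ₗ[K] V) with hM
  have hcomp : ψ.compl₁₂ (F : V →ₗ[K] V) (F : V →ₗ[K] V) = ((p : K) ^ n) • ψ := by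
    ext u v
    rw [LinearMap.compl₁₂_apply, LinearMap.smul_apply, LinearMap.smul_apply, smul_eq_mul]
    exact hmult u v
  have hmat := LinearMap.toMatrix₂_compl₁₂ b b b b ψ (F : V →ₗ[K] V) (F : V →ₗ[K] V)
  rw [hcomp, map_smul, ← hJ, ← hM] at hmat
  have hdet := congrArg Matrix.det hmat
  rw [Matrix.det_smul, Matrix.det_mul, Matrix.det_mul, Matrix.det_transpose, Fintype.card_fin]
    at hdet
  have hJ0 : J.det ≠ 0 := by
    have hsep : LinearMap.SeparatingLeft ψ := fun v hv => hnd v hv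
    exact (LinearMap.separatingLeft_iff_det_ne_zero b).1 hsep
  have hMdet : M.det = LinearMap.det (F : V →ₗ[K] V) := by
    rw [hM, LinearMap.det_toMatrix]
  have hdet2 : (LinearMap.det (F : V →ₗ[K] V)) ^ 2 = ((p : K) ^ n) ^ Module.finrank K V := by
    rw [← hMdet]
    apply mul_right_cancel₀ hJ0
    rw [hdet]
    ring
  have hrank : Module.finrank K V = P.natDegree + 1 := by
    rw [← LinearMap.charpoly_natDegree (F : V →ₗ[K] V), hchar,
      Monic.natDegree_mul (monic_X_sub_C c) (hm.map _), natDegree_X_sub_C, natDegree_map, add_comm]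
  have hF : (LinearMap.det (F : V →ₗ[K] V)) ^ 2 = c ^ 2 * (algebraMap ℚ K (P.coeff 0)) ^ 2 := by
    rw [LinearMap.det_eq_sign_charpoly_coeff, hchar, mul_coeff_zero, coeff_sub, coeff_X_zero,
      coeff_C_zero, coeff_map, mul_pow, ← pow_mul, mul_comm (Module.finrank K V) 2, pow_mul,
      neg_one_sq, one_pow, one_mul]
    ring
  rw [hF, hP0K, hrank, pow_succ ((p : K) ^ n)] at hdet2
  have hq : ((p : K) ^ n) ^ P.natDegree ≠ 0 := by
    have hp0 : (p : K) ≠ 0 := Nat.cast_ne_zero.2 (Fact.out : p.Prime).ne_zero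
    exact pow_ne_zero _ (pow_ne_zero _ hp0)
  apply mul_right_cancel₀ hq
  rw [hdet2, mul_comm]

end Pool.Agent.H91O
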