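import Pool.Agent.H91.Mono.Ss2

/-! Orthogonal similitudes of odd rank: torus, Lie algebra and stable subspaces in an
eigenbasis. -/

set_option linter.unusedSectionVars false

namespace Pool.Agent.H91O

open MvPolynomial Pool.Agent.H91.Mono

variable {K : Type*} [Field K] [CharZero K] {V : Type*} [AddCommGroup V] [Module K V]
variable {ι : Type*} [Fintype ι] [DecidableEq ι]

/-- The standing hypotheses, orthogonal case of odd rank; `o` is the self-paired index. -/
structure PSetup (ψ : V →ₗ[K] V →ₗ[K] K) (Γ : Subgroup (V ≃ₗ[K] V)) (b : Module.Basis ι K V)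
    (bar : ι → ι) (o : ι) (lam : ι → K) (F : V ≃ₗ[K] V) : Prop where
  inv : ∀ i, bar (bar i) = i
  fixo : bar o = o
  nofix : ∀ i, i ≠ o → bar i ≠ i
  sym : ∀ u v, ψ u v = ψ v u
  zero : ∀ i j, j ≠ bar i → ψ (b i) (b j) = 0
  ne : ∀ i, ψ (b i) (b (bar i)) ≠ 0
  sim : ∀ γ ∈ Γ, ∃ μ : K, ∀ u v, ψ ((γ : V ≃ₗ[K] V) u) ((γ : V ≃ₗ[K] V) v) = μ * ψ u v
  mem : F ∈ Γ
  eig : ∀ i, F (b i) = lam i • b i
  triv : TrivRel bar lam

variable {ψ : V →ₗ[K] V →ₗ[K] K} {Γ : Subgroup (V ≃ₗ[K] V)} {b : Module.Basis ι K V}
    {bar : ι → ι} {o : ι} {lam : ι → K} {F : V ≃ₗ[K] V}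

namespace PSetup

lemma inj (h : PSetup ψ Γ b bar o lam F) {i j : ι} (hij : bar i = bar j) : i = j := by
  rw [← h.inv i, hij, h.inv]

lemma bar_eq_o (h : PSetup ψ Γ b bar o lam F) {i : ι} : bar i = o ↔ i = o := by
  constructor
  · intro h1
    rw [← h.inv i, h1, h.fixo]
  · rintro rfl
    exact h.fixo

lemma psi_bil (h : PSetup ψ Γ b bar o lam F) (u v : V) :
    ψ u v = bil bar (cc ψ b bar) (b.repr u) (b.repr v) := by
  conv_lhs => rw [← b.sum_repr u, ← b.sum_repr v]
  rw [map_sum ψ, LinearMap.sum_apply, bil]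
  apply Finset.sum_congr rfl
  intro i _
  rw [map_sum, Finset.sum_eq_single (bar i)]
  · simp only [map_smul, LinearMap.smul_apply, smul_eq_mul, cc]
    ring
  · intro j _ hj
    simp only [map_smul, LinearMap.smul_apply, smul_eq_mul, h.zero i j hj, mul_zero]
  · simp

/-- coordinates from the form -/
lemma psi_basis (h : PSetup ψ Γ b bar o lam F) (v : V) (j : ι) :
    ψ v (b j) = b.repr v (bar j) * ψ (b (bar j)) (b j) := by
  conv_lhs => rw [← b.sum_repr v]
  rw [map_sum ψ, LinearMap.sum_apply, Finset.sum_eq_single (bar j)]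
  · simp only [map_smul, LinearMap.smul_apply, smul_eq_mul]
  · intro i _ hi
    rw [map_smul, LinearMap.smul_apply, h.zero i j, smul_zero]
    intro h1
    apply hi
    rw [h1, h.inv]
  · simp

lemma psi_bar_ne (h : PSetup ψ Γ b bar o lam F) (j : ι) : ψ (b (bar j)) (b j) ≠ 0 := by
  rw [h.sym]
  exact h.ne j

lemma lie_tor (h : PSetup ψ Γ b bar o lam F) (x : ι → K) (hx : ∀ i, x i + x (bar i) = 0) :
    dg b x ∈ lie Γ := by
  have hxo : x o = 0 := by
    have h1 := hx o
    rw [h.fixo] at h1
    have h2 : (2 : K) * x o = 0 := by linear_combination h1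
    rcases mul_eq_zero.1 h2 with h3 | h3
    · exact absurd h3 two_ne_zero
    · exact h3
  apply lie_torus h.mem h.eig
  intro m m' hm
  obtain ⟨h1, -⟩ := h.triv m m' hm
  have h2 : ∑ i, ((m i : K) - m' i) * x i = 0 := by
    apply Finset.sum_involution (fun i _ => bar i)
    · intro i _
      have h3 : (m i : K) + m' (bar i) = m (bar i) + m' i := by exact_mod_cast h1 i
      have h4 := hx i
      linear_combination ((m i : K) - m' i) * h4 - x (bar i) * h3
    · intro i _ hi
      apply h.nofix i
      rintro rfl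
      apply hi
      rw [hxo, mul_zero]
    · intro i _
      exact Finset.mem_univ _
    · intro i _
      exact h.inv i
  simp only [sub_mul, Finset.sum_sub_distrib] at h2
  exact sub_eq_zero.1 h2

lemma cl_tor (h : PSetup ψ Γ b bar o lam F) (t : ι → K) (hκ : t o ≠ 0)
    (ht : ∀ i, t i * t (bar i) = t o ^ 2) : InCl Γ (dg b t) := by
  apply inCl_torus h.mem h.eig
  intro m m' hm
  obtain ⟨h1, h0⟩ := h.triv m m' hm
  have ht0 : ∀ i, t i ≠ 0 := by
    intro i hi
    have := ht i
    rw [hi, zero_mul] at this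
    exact pow_ne_zero 2 hκ this.symm
  let s : ι → K := fun i => t i / t o
  have hs : ∀ i, s i * s (bar i) = 1 := by
    intro i
    have := ht i
    simp only [s]
    field_simp
    rw [this]
  have hs0 : ∀ i, s i ≠ 0 := fun i => div_ne_zero (ht0 i) hκ
  have hso : s o = 1 := div_self hκ
  have hts : ∀ i, t i = t o * s i := by
    intro i
    simp only [s]
    field_simp
  have h2 : ∏ i, s i ^ ((m i : ℤ) - m' i) = 1 := by
    apply Finset.prod_involution (fun i _ => bar i)
    · intro i _
      have h3 : (m (bar i) : ℤ) - m' (bar i) = (m i : ℤ) - m' i := by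
        have := h1 i
        omega
      rw [h3, ← mul_zpow, hs, one_zpow]
    · intro i _ hi
      apply h.nofix i
      rintro rfl
      apply hi
      rw [hso, one_zpow]
    · intro i _
      exact Finset.mem_univ _
    · intro i _
      exact h.inv i
  have h3 : ∏ i, s i ^ m i = ∏ i, s i ^ m' i := by
    have h4 : ∀ i, s i ^ ((m i : ℤ) - m' i) = s i ^ m i / s i ^ m' i := by
      intro i
      rw [zpow_sub₀ (hs0 i), zpow_natCast, zpow_natCast]
    simp only [h4, Finset.prod_div_distrib] at h2
    rw [div_eq_one_iff_eq] at h2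
    · exact h2
    · exact Finset.prod_ne_zero_iff.2 fun i _ => pow_ne_zero _ (hs0 i)
  have h5 : ∀ k : ι →₀ ℕ, ∏ i, t i ^ k i = t o ^ (∑ i, k i) * ∏ i, s i ^ k i := by
    intro k
    rw [← Finset.prod_pow_eq_pow_sum, ← Finset.prod_mul_distrib]
    apply Finset.prod_congr rfl
    intro i _
    rw [hts i, mul_pow]
  rw [h5, h5, h3, h0]

lemma ev_qq (h : PSetup ψ Γ b bar o lam F) (u v : V) (g : Module.End K V) :
    ev g (qq (cc ψ b bar) bar b u v) = ψ (g u) (g v) := by
  rw [h.psi_bil, bil, qq, map_sum]
  apply Finset.sum_congr rfl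
  intro k _
  rw [map_mul, map_mul, ev_X, ev_X]
  simp [ev, coefF]

/-- the form is preserved infinitesimally up to a scalar, on pairs where it vanishes -/
lemma lie_form (h : PSetup ψ Γ b bar o lam F) {x : Module.End K V} (hx : x ∈ lie Γ) {u v : V}
    (huv : ψ u v = 0) : ψ (x u) v + ψ u (x v) = 0 := by
  have h1 := hx (qq (cc ψ b bar) bar b u v) (by
    intro γ hγ
    rw [h.ev_qq]
    obtain ⟨μ, hμ⟩ := h.sim γ hγ
    have := hμ u v
    show ψ (γ u) (γ v) = 0
    rw [this, huv, mul_zero])
  rw [pd_qq] at h1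
  rw [h.psi_bil (x u), h.psi_bil u, bil, bil, ← Finset.sum_add_distrib, ← h1]
  apply Finset.sum_congr rfl
  intro k _
  ring

/-- stable subspaces are coordinate subspaces -/
lemma stab_coord (h : PSetup ψ Γ b bar o lam F) {W : Submodule K V} (hW : Stab Γ W) {w : V}
    (hw : w ∈ W) {i : ι} (hi : b.repr w i ≠ 0) : b i ∈ W := by
  have key : ∀ i, i ≠ o → b.repr w i ≠ 0 → b i ∈ W := by
    intro i hio hi
    let x : ι → K := fun k => if k = i then 1 else if k = bar i then -1 else 0
    have hx : ∀ k, x k + x (bar k) = 0 := by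
      intro k
      have hn := h.nofix i hio
      by_cases h1 : k = i
      · subst h1
        simp [x, hn]
      · by_cases h2 : k = bar i
        · subst h2
          simp [x, hn, h.inv]
        · have h3 : bar k ≠ i := fun h5 => h2 (by rw [← h5, h.inv])
          have h4 : bar k ≠ bar i := fun h5 => h1 (by rw [← h.inv k, h5, h.inv])
          simp [x, h1, h2, h3, h4]
    have hL := h.lie_tor x hx
    have h1 := hW _ hL _ hw
    have h2 := hW _ hL _ h1
    have hre : ∀ (y : ι → K) (v : V), dg b y v = ∑ k, (y k * b.repr v k) • b k := by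
      intro y v
      conv_lhs => rw [← b.sum_repr v]
      rw [map_sum]
      apply Finset.sum_congr rfl
      intro k _
      rw [map_smul, dg_apply, smul_smul, mul_comm]
    have h3 : dg b x w + dg b x (dg b x w) = (2 * b.repr w i) • b i := by
      rw [← Module.End.mul_apply (dg b x), ← dg_mul, hre, hre, ← Finset.sum_add_distrib,
        Finset.sum_eq_single i]
      · rw [← add_smul]
        congr 1
        simp only [Pi.mul_apply]
        have : x i = 1 := by simp [x]
        rw [this]
        ring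
      · intro k _ hk
        rw [← add_smul]
        have : x k + x k * x k = 0 := by
          by_cases h5 : k = bar i
          · simp only [x]; rw [if_neg hk, if_pos h5]; ring
          · simp only [x]; rw [if_neg hk, if_neg h5]; ring
        have h6 : x k * b.repr w k + (x * x) k * b.repr w k = 0 := by
          rw [Pi.mul_apply]
          linear_combination (b.repr w k) * this
        rw [h6, zero_smul]
      · simp
    have h4 := W.add_mem h1 h2
    rw [h3] at h4
    have h5 : (2 * b.repr w i) ≠ 0 := mul_ne_zero two_ne_zero hi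
    have h6 := W.smul_mem (2 * b.repr w i)⁻¹ h4
    rwa [smul_smul, inv_mul_cancel₀ h5, one_smul] at h6
  by_cases hio : i = o
  · subst hio
    have h1 : w - ∑ k ∈ Finset.univ.erase i, b.repr w k • b k = b.repr w i • b i := by
      conv_lhs => rw [← b.sum_repr w]
      rw [← Finset.add_sum_erase _ _ (Finset.mem_univ i)]
      simp
    have h2 : w - ∑ k ∈ Finset.univ.erase i, b.repr w k • b k ∈ W := by
      apply W.sub_mem hw
      apply W.sum_mem
      intro k hk
      by_cases h3 : b.repr w k = 0
      · rw [h3, zero_smul]; exact W.zero_mem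
      · exact W.smul_mem _ (key k (Finset.ne_of_mem_erase hk) h3)
    rw [h1] at h2
    have h6 := W.smul_mem (b.repr w i)⁻¹ h2
    rwa [smul_smul, inv_mul_cancel₀ hi, one_smul] at h6
  · exact key i hio hi

lemma coordP (h : PSetup ψ Γ b bar o lam F) : CoordP Γ b :=
  fun _ hW _ hw _ hk => h.stab_coord hW hw hk

end PSetup

end Pool.Agent.H91O
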