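import Pool.Agent.H91O.Odd7

/-! Odd rank: commutants, irreducibility after base change. -/

set_option linter.unusedSectionVars false

namespace Pool.Agent.H91O

open Polynomial TensorProduct Pool.Agent.H93Tate Pool.Agent.H91.Mono
open scoped Classical

section

variable {K : Type*} [Field K] [CharZero K] {V : Type*} [AddCommGroup V] [Module K V]
variable {ι : Type*} [Fintype ι] [DecidableEq ι]
variable {ψ : V →ₗ[K] V →ₗ[K] K} {Γ : Subgroup (V ≃ₗ[K] V)} {b : Module.Basis ι K V}
    {bar : ι → ι} {o : ι} {lam : ι → K} {F : V ≃ₗ[K] V}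

namespace PSetup

lemma fixSub_finite (h : PSetup ψ Γ b bar o lam F) : (fixSub Γ).FiniteIndex := by
  have hfin : Finite (SS Γ) := by
    let f : SS Γ → Set ι := fun W => {i | b i ∈ W.1}
    apply Finite.of_injective f
    have hle : ∀ W W' : SS Γ, f W = f W' → W.1 ≤ W'.1 := by
      intro W W' hWW w hw
      rw [← b.sum_repr w]
      apply W'.1.sum_mem
      intro i _
      by_cases h1 : b.repr w i = 0
      · rw [h1, zero_smul]; exact W'.1.zero_mem
      · have h2 : i ∈ f W := h.stab_coord W.2 hw h1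
        rw [hWW] at h2
        exact W'.1.smul_mem _ h2
    intro W W' hWW
    exact Subtype.ext (le_antisymm (hle _ _ hWW) (hle _ _ hWW.symm))
  unfold fixSub
  infer_instance

/-- projections commute with `fixSub` -/
lemma proj_fix (h : PSetup ψ Γ b bar o lam F) (hmn : ∀ i, OMn Γ b i) (l : ι)
    (e : ι → K) (he1 : ∀ k, Rch Γ b k l → e k = 1) (he0 : ∀ k, ¬ Rch Γ b k l → e k = 0)
    (γ : Γ) (hγ : γ ∈ fixSub Γ) (v : V) :
    dg b e ((γ : V ≃ₗ[K] V) v) = (γ : V ≃ₗ[K] V) (dg b e v) := by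
  let W : Submodule K V := co b (fun k => Rch Γ b k l)
  let W' : Submodule K V := co b (fun k => ¬ Rch Γ b k l)
  have hW : Stab Γ W := h.stab_co (fun k m h1 h2 => Rch_trans h1 h2)
  have hW' : Stab Γ W' := h.stab_co (fun k m h1 h2 h3 => h2 (Rch_trans (hmn _ _ h1) h3))
  have h1 : ∀ w ∈ W, (γ : V ≃ₗ[K] V) w ∈ W := by
    intro w hw
    have := mem_fixSub hγ hW
    rw [← this]
    exact Submodule.mem_map_of_mem hw
  have h2 : ∀ w ∈ W', (γ : V ≃ₗ[K] V) w ∈ W' := by
    intro w hw
    have := mem_fixSub hγ hW'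
    rw [← this]
    exact Submodule.mem_map_of_mem hw
  have e1 : ∀ w ∈ W, dg b e w = w := by
    intro w hw
    apply b.repr.injective
    ext k
    rw [dg_repr]
    by_cases h3 : b.repr w k = 0
    · rw [h3, mul_zero]
    · rw [he1 k (hw k h3), one_mul]
  have e2 : ∀ w ∈ W', dg b e w = 0 := by
    intro w hw
    apply b.repr.injective
    ext k
    rw [dg_repr, map_zero, Finsupp.zero_apply]
    by_cases h3 : b.repr w k = 0
    · rw [h3, mul_zero]
    · rw [he0 k (hw k h3), zero_mul]
  have hw : dg b e v ∈ W := by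
    intro k hk
    rw [dg_repr] at hk
    by_contra h3
    rw [he0 k h3, zero_mul] at hk
    exact hk rfl
  have hw' : v - dg b e v ∈ W' := by
    intro k hk h3
    rw [map_sub, Finsupp.sub_apply, dg_repr, he1 k h3, one_mul, sub_self] at hk
    exact hk rfl
  have h4 : v = dg b e v + (v - dg b e v) := by abel
  have h5 : (γ : V ≃ₗ[K] V) v = (γ : V ≃ₗ[K] V) (dg b e v) + (γ : V ≃ₗ[K] V) (v - dg b e v) := by
    rw [← map_add, ← h4]
  rw [h5, map_add, e1 _ (h1 _ hw), e2 _ (h2 _ hw'), add_zero]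

lemma supp_of_comm (h : PSetup ψ Γ b bar o lam F) (hmn : ∀ i, OMn Γ b i)
    (g : Module.End K V)
    (hg : ∀ c : Module.End K V, Comm Γ c → c * g = g * c) :
    Supp (Rch Γ b) (LinearMap.toMatrix b b g) := by
  intro k l hkl
  rw [LinearMap.toMatrix_apply] at hkl
  by_contra hcon
  let e : ι → K := fun m => if Rch Γ b m l then 1 else 0
  have hc : Comm Γ (dg b e) := ⟨fixSub Γ, h.fixSub_finite, fun γ hγ v =>
    h.proj_fix hmn l e (fun k hk => if_pos hk) (fun k hk => if_neg hk) γ hγ v⟩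
  have h1 := hg (dg b e) hc
  have h2 := congrArg (fun c : Module.End K V => b.repr (c (b l)) k) h1
  simp only [Module.End.mul_apply] at h2
  rw [dg_repr, dg_apply] at h2
  have e1 : e k = 0 := if_neg hcon
  have e2 : e l = 1 := if_pos (Rch_refl l)
  rw [e1, e2, one_smul, zero_mul] at h2
  exact hkl h2.symm

end PSetup

end

section Irr

variable {E : Type*} [Field E] [CharZero E] {K : Type*} [Field K] [CharZero K] [Algebra E K]
  {V : Type*} [AddCommGroup V] [Module E V] [FiniteDimensional E V]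
  {ι : Type*} [Fintype ι] [DecidableEq ι] {ψ : V →ₗ[E] V →ₗ[E] E} {Γ : Subgroup (V ≃ₗ[E] V)}
  {b : Module.Basis ι K (K ⊗[E] V)} {bar : ι → ι} {o : ι} {lam : ι → K} {F : V ≃ₗ[E] V}

/-- irreducibility over the base field implies irreducibility after base change, because the
eigenline of `o` is rational over the base field -/
lemma irr_bc (h : PSetup (fK K ψ) (Γ.map (bcE K)) b bar o lam (bcE K F)) (c : E)
    (hc : lam o = algebraMap E K c) (v0 : V) (hv0 : v0 ≠ 0) (hFv : F v0 = c • v0)
    (hnd : ∀ x : K ⊗[E] V, (∀ y, fK K ψ x y = 0) → x = 0)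
    (hirr : ∀ W : Submodule E V, (∀ γ ∈ Γ, ∀ w ∈ W, (γ : V ≃ₗ[E] V) w ∈ W) → W = ⊥ ∨ W = ⊤)
    (W : Submodule K (K ⊗[E] V)) (hW : ∀ γ ∈ Γ.map (bcE K), ∀ w ∈ W,
      (γ : K ⊗[E] V ≃ₗ[K] K ⊗[E] V) w ∈ W) : W = ⊥ ∨ W = ⊤ := by
  have htinj : ∀ u v : V, (1 : K) ⊗ₜ[E] u = 1 ⊗ₜ[E] v → u = v := by
    intro u v huv
    exact Module.FaithfullyFlat.tensorProduct_mk_injective (A := E) (B := K) V huv
  -- the rational eigenvector
  have hrep : ∀ k, k ≠ o → b.repr ((1 : K) ⊗ₜ[E] v0) k = 0 := by
    intro k hk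
    have h1 : bcE K F ((1 : K) ⊗ₜ[E] v0) = algebraMap E K c • ((1 : K) ⊗ₜ[E] v0) := by
      rw [bcE_tmul, hFv, TensorProduct.tmul_smul, algebraMap_smul]
    have h2 : ((bcE K F : K ⊗[E] V ≃ₗ[K] K ⊗[E] V) : Module.End K (K ⊗[E] V)) = dg b lam := by
      apply b.ext
      intro i
      rw [dg_apply]
      exact h.eig i
    have h3 : dg b lam ((1 : K) ⊗ₜ[E] v0) = algebraMap E K c • ((1 : K) ⊗ₜ[E] v0) := by
      rw [← h2]
      exact h1
    have h4 := congrArg (fun x => b.repr x k) h3
    simp only [map_smul, Finsupp.smul_apply, smul_eq_mul] at h4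
    rw [dg_repr, ← hc] at h4
    by_contra h5
    exact hk (h.lam_inj (mul_right_cancel₀ h5 h4))
  have hv : ((1 : K) ⊗ₜ[E] v0) = b.repr ((1 : K) ⊗ₜ[E] v0) o • b o := by
    conv_lhs => rw [← b.sum_repr ((1 : K) ⊗ₜ[E] v0)]
    rw [Finset.sum_eq_single o]
    · intro k _ hk
      rw [hrep k hk, zero_smul]
    · simp
  have caseA : ∀ W : Submodule K (K ⊗[E] V), (∀ γ ∈ Γ.map (bcE K), ∀ w ∈ W,
      (γ : K ⊗[E] V ≃ₗ[K] K ⊗[E] V) w ∈ W) → b o ∈ W → W = ⊤ := by
    intro W hW hbo
    let W0 : Submodule E V :=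
      { carrier := {v | (1 : K) ⊗ₜ[E] v ∈ W}
        add_mem' := by
          intro u v hu hv
          show (1 : K) ⊗ₜ[E] (u + v) ∈ W
          rw [TensorProduct.tmul_add]
          exact W.add_mem hu hv
        zero_mem' := by
          show (1 : K) ⊗ₜ[E] (0 : V) ∈ W
          rw [TensorProduct.tmul_zero]
          exact W.zero_mem
        smul_mem' := by
          intro a v hv
          show (1 : K) ⊗ₜ[E] (a • v) ∈ W
          rw [TensorProduct.tmul_smul, ← algebraMap_smul K a]
          exact W.smul_mem _ hv }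
    have h0 : v0 ∈ W0 := by
      show (1 : K) ⊗ₜ[E] v0 ∈ W
      rw [hv]
      exact W.smul_mem _ hbo
    rcases hirr W0 (by
      intro γ hγ w hw
      show (1 : K) ⊗ₜ[E] ((γ : V ≃ₗ[E] V) w) ∈ W
      rw [← bcE_tmul]
      exact hW _ ⟨γ, hγ, rfl⟩ _ hw) with h1 | h1
    · rw [h1, Submodule.mem_bot] at h0
      exact absurd h0 hv0
    · rw [eq_top_iff]
      intro x _
      induction x using TensorProduct.induction_on with
      | zero => exact W.zero_mem
      | add x y hx hy => exact W.add_mem (hx trivial) (hy trivial)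
      | tmul a v =>
        have h2 : v ∈ W0 := by rw [h1]; trivial
        have h3 : (a ⊗ₜ[E] v : K ⊗[E] V) = a • (1 ⊗ₜ[E] v) := by
          rw [TensorProduct.smul_tmul', smul_eq_mul, mul_one]
        rw [h3]
        exact W.smul_mem _ h2
  by_cases hbo : b o ∈ W
  · exact Or.inr (caseA W hW hbo)
  · left
    have hstab : Stab (Γ.map (bcE K)) W := fun x hx => lie_stab W hW hx
    let W' : Submodule K (K ⊗[E] V) :=
      { carrier := {x | ∀ w ∈ W, fK K ψ x w = 0}
        add_mem' := by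
          intro u v hu hv w hw
          rw [map_add, LinearMap.add_apply, hu w hw, hv w hw, add_zero]
        zero_mem' := by
          intro w _
          rw [map_zero, LinearMap.zero_apply]
        smul_mem' := by
          intro a v hv w hw
          rw [map_smul, LinearMap.smul_apply, hv w hw, smul_zero] }
    have hW' : W' = ⊤ := by
      apply caseA W'
      · intro γ hγ x hx w hw
        obtain ⟨μ, hμ⟩ := h.sim γ hγ
        have h1 : w = γ (γ⁻¹ w) := (γ.apply_symm_apply w).symm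
        rw [h1, hμ, hx _ (hW _ ((Γ.map (bcE K)).inv_mem hγ) w hw), mul_zero]
      · intro w hw
        rw [h.sym, h.psi_basis, h.fixo]
        have h2 : b.repr w o = 0 := by
          by_contra h3
          exact hbo (h.stab_coord hstab hw h3)
        rw [h2, zero_mul]
    rw [eq_bot_iff]
    intro w hw
    rw [Submodule.mem_bot]
    apply hnd
    intro y
    have h1 : y ∈ W' := by rw [hW']; trivial
    rw [h.sym]
    exact h1 w hw

end Irr

end Pool.Agent.H91O
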