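import Pool.Agent.H91O.Odd10
import Pool.Agent.H91O.Sq1

/-! Self-conjugate case, any rank. -/

set_option linter.unusedSectionVars false

namespace Pool.Agent.H91O

open Polynomial TensorProduct Pool.Agent.H93Tate Pool.Agent.H91.Mono

section

variable {K : Type*} [Field K] [CharZero K] {V : Type*} [AddCommGroup V] [Module K V]
variable {ι : Type*} [Fintype ι] [DecidableEq ι]
variable {ψ : V →ₗ[K] V →ₗ[K] K} {Γ : Subgroup (V ≃ₗ[K] V)} {b : Module.Basis ι K V}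
    {bar : ι → ι} {o : ι} {lam : ι → K} {F : V ≃ₗ[K] V}

/-- symmetry from conjugacy of the eigenvalues with their partners -/
lemma PSetup.all_mn_gal (h : PSetup ψ Γ b bar o lam F)
    (hq : ∀ i, i ≠ o → ∃ σ : K ≃+* K, SemiSym Γ σ ∧ σ (lam i) = lam (bar i)) (i : ι) :
    OMn Γ b i := by
  have hbar : ∀ l, OMn Γ b l → OMn Γ b (bar l) := by
    intro l hl
    by_cases hlo : l = o
    · subst hlo
      rw [h.fixo]
      exact hl
    obtain ⟨σ, hσ, hσl⟩ := hq l hlo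
    obtain ⟨s, hs, hsl, hsR⟩ := h.perm_R hσ
    have h1 : s l = bar l := by
      apply h.lam_inj
      rw [hsl, hσl]
    rw [← h1]
    intro k hk
    obtain ⟨k', rfl⟩ := hs.2 k
    exact (hsR _ _).2 (hl k' ((hsR _ _).1 hk))
  have hdual : ∀ i j, Rch Γ b (bar j) (bar i) → Rch Γ b i j := by
    intro i j hij
    have := h.Rch_dual hij
    rwa [h.inv, h.inv] at this
  obtain ⟨l, hl, hmn⟩ := exists_omn (Γ := Γ) (b := b) i
  have h1 : Rch Γ b (bar i) (bar l) := h.Rch_dual hl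
  have h2 := hbar l hmn _ h1
  have h3 : Rch Γ b i l := hdual _ _ h2
  intro k hk
  have h4 := hmn k (Rch_trans hk h3)
  exact Rch_trans h3 h4

end

section

variable {p n : ℕ} [hp : Fact p.Prime] {P : ℚ[X]}

/-- **Self-conjugate case, `charpoly F = P`, both parities of the form.** -/
theorem selfConjEven (hn : 0 < n) (hP : Squarefree P) (hpos : 0 < P.natDegree)
    (hweil : ∀ z : ℂ, aeval z P = 0 → ‖z‖ ^ 2 = (p : ℝ) ^ n)
    (hreal : ∀ z : ℂ, aeval z P = 0 → z ^ 2 ≠ (p : ℂ) ^ n) (hmr : MaxRank ((p : ℂ) ^ n) P)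
    {E : Type*} [Field E] [CharZero E] (K : Type*) [Field K] [Algebra E K] [IsAlgClosure E K]
    {V : Type*} [AddCommGroup V] [Module E V] [FiniteDimensional E V] (ψ : V →ₗ[E] V →ₗ[E] E)
    (hψ : (∀ v, ψ v v = 0) ∨ (∀ u v, ψ u v = ψ v u)) (hnd : ∀ v, (∀ w, ψ v w = 0) → v = 0)
    (Γ : Subgroup (V ≃ₗ[E] V))
    (hsim : ∀ γ ∈ Γ, ∃ μ : E, ∀ u v, ψ ((γ : V ≃ₗ[E] V) u) ((γ : V ≃ₗ[E] V) v) = μ * ψ u v)
    (F : V ≃ₗ[E] V) (hF : F ∈ Γ)
    (hchar : LinearMap.charpoly (F : V →ₗ[E] V) = P.map (algebraMap ℚ E))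
    (hmult : ∀ u v, ψ (F u) (F v) = (p : E) ^ n * ψ u v)
    (hconj : ∀ x : K, aeval x (P.map (algebraMap ℚ E)) = 0 →
      minpoly E ((p : K) ^ n / x) = minpoly E x)
    (g : V ≃ₗ[E] V) (hg : ∃ μ : E, ∀ u v, ψ (g u) (g v) = μ * ψ u v)
    (hcomm : ∀ c : Module.End E V, Comm Γ c → ∀ v, c (g v) = g (c v)) :
    InCl Γ (((g * g : V ≃ₗ[E] V)) : Module.End E V) ∧
      ((∀ v, ψ v v = 0) → InCl Γ (g : Module.End E V)) := by
  classical
  have hac : IsAlgClosed K := IsAlgClosure.isAlgClosed E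
  have halg : Algebra.IsAlgebraic E K := IsAlgClosure.isAlgebraic
  have hcz : CharZero K := charZero_of_injective_algebraMap (algebraMap E K).injective
  rcases subsingleton_or_nontrivial V with hV | hV
  · have h1 : ∀ f : V ≃ₗ[E] V, InCl Γ (f : Module.End E V) := by
      intro f
      have h2 : (f : Module.End E V) = 1 := by
        ext v
        exact Subsingleton.elim _ _
      rw [h2]
      exact inCl_one
    exact ⟨h1 _, fun _ => h1 _⟩
  let jE : P.SplittingField →ₐ[ℚ] K := IsAlgClosed.lift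
  have hmapP : (P.map (algebraMap ℚ E)).map (algebraMap E K) = P.map (algebraMap ℚ K) := by
    rw [Polynomial.map_map]
    congr 1
    exact Subsingleton.elim _ _
  have hsimK : ∀ γ ∈ Γ.map (bcE K), ∃ μ : K, ∀ u v, fK K ψ ((γ : K ⊗[E] V ≃ₗ[K] K ⊗[E] V) u)
      ((γ : K ⊗[E] V ≃ₗ[K] K ⊗[E] V) v) = μ * fK K ψ u v := by
    rintro _ ⟨γ, hγ, rfl⟩
    obtain ⟨μ, hμ⟩ := hsim γ hγ
    exact ⟨algebraMap E K μ, fK_sim γ μ hμ⟩
  have hcharK : LinearMap.charpoly ((bcE K F : K ⊗[E] V ≃ₗ[K] K ⊗[E] V) :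
      K ⊗[E] V →ₗ[K] K ⊗[E] V) = P.map (algebraMap ℚ K) := by
    rw [bcE_coe, LinearMap.charpoly_baseChange, hchar, hmapP]
  have hmultK : ∀ u v, fK K ψ (bcE K F u) (bcE K F v) = (p : K) ^ n * fK K ψ u v := by
    intro u v
    rw [fK_sim F _ hmult, map_pow, map_natCast]
  have hqK : ∀ i : Rt P, ∃ σ : K ≃+* K, SemiSym (Γ.map (bcE K)) σ ∧
      σ (jE i.1) = jE (inv hweil i).1 := by
    intro i
    have h0 : aeval (jE i.1) P = 0 := by rw [aeval_algHom_apply, rt_root, map_zero]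
    have h1 : aeval (jE i.1) (P.map (algebraMap ℚ E)) = 0 := by
      rw [aeval_def, ← eval_map, hmapP, eval_map, ← aeval_def, h0]
    obtain ⟨σ, hσ⟩ := (Normal.minpoly_eq_iff_mem_orbit K).1 (hconj _ h1)
    refine ⟨σ, semiSym_bc K σ Γ, ?_⟩
    show σ (jE i.1) = jE ((p : P.SplittingField) ^ n / i.1)
    rw [map_div₀, map_pow, map_natCast]
    exact hσ
  obtain ⟨μ, hμ⟩ := hg
  have hgg : ((bcE K (g * g) : K ⊗[E] V ≃ₗ[K] K ⊗[E] V) : Module.End K (K ⊗[E] V)) =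
      ((bcE K g : K ⊗[E] V ≃ₗ[K] K ⊗[E] V) : Module.End K (K ⊗[E] V)) *
      ((bcE K g : K ⊗[E] V ≃ₗ[K] K ⊗[E] V) : Module.End K (K ⊗[E] V)) := by
    rw [map_mul]
    rfl
  have hnt : Nontrivial (K ⊗[E] V) := inferInstance
  have haltK : (∀ v, ψ v v = 0) →
      InCl (Γ.map (bcE K)) ((bcE K g : K ⊗[E] V ≃ₗ[K] K ⊗[E] V) : Module.End K (K ⊗[E] V)) := by
    intro halt
    have hsw : ∀ u v, ψ v u = - ψ u v := fun u v => psi_swap halt u v
    obtain ⟨b, hset⟩ := Fft.setup_sq hn hP hpos hweil hreal hmr (fK K ψ) (fK_alt halt)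
      (fK_nondeg hsw hnd) (Γ.map (bcE K)) hsimK (bcE K F) ⟨F, hF, rfl⟩ hcharK hmultK jE
    have hmn := all_mn_gal hset hqK
    exact dense hset hmn (bcE K g) ⟨algebraMap E K μ, fK_sim g μ hμ⟩
      (supp_of_comm hset hmn _ (fun c hc => comm_descend K Γ g hcomm c hc))
  refine ⟨?_, fun halt => inCl_descend K Γ g (haltK halt)⟩
  apply inCl_descend K
  rw [hgg]
  rcases hψ with halt | hsym
  · exact inCl_mul (haltK halt) (haltK halt)
  · obtain ⟨b, hset⟩ := osetup_sq hn hP hpos hweil hreal hmr (fK K ψ) (fK_sym hsym)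
      (fK_nondeg_sym hsym hnd) (Γ.map (bcE K)) hsimK (bcE K F) ⟨F, hF, rfl⟩ hcharK hmultK jE
    have hmn := hset.all_mn_gal hqK
    exact edense hset hmn (bcE K g) ⟨algebraMap E K μ, fK_sim g μ hμ⟩
      (hset.supp_of_comm hmn _ (fun c hc => comm_descend K Γ g hcomm c hc))

/-- **Self-conjugate case, odd rank.** -/
theorem selfConjOdd (hn : 0 < n) (hP : Squarefree P) (hpos : 0 < P.natDegree)
    (hweil : ∀ z : ℂ, aeval z P = 0 → ‖z‖ ^ 2 = (p : ℝ) ^ n)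
    (hreal : ∀ z : ℂ, aeval z P = 0 → z ^ 2 ≠ (p : ℂ) ^ n) (hmr : MaxRank ((p : ℂ) ^ n) P)
    {E : Type*} [Field E] [CharZero E] (K : Type*) [Field K] [Algebra E K] [IsAlgClosure E K]
    {V : Type*} [AddCommGroup V] [Module E V] [FiniteDimensional E V] (ψ : V →ₗ[E] V →ₗ[E] E)
    (hsym : ∀ u v, ψ u v = ψ v u) (hnd : ∀ v, (∀ w, ψ v w = 0) → v = 0)
    (Γ : Subgroup (V ≃ₗ[E] V))
    (hsim : ∀ γ ∈ Γ, ∃ μ : E, ∀ u v, ψ ((γ : V ≃ₗ[E] V) u) ((γ : V ≃ₗ[E] V) v) = μ * ψ u v)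
    (F : V ≃ₗ[E] V) (hF : F ∈ Γ) (c : E)
    (hchar : LinearMap.charpoly (F : V →ₗ[E] V) = (X - C c) * P.map (algebraMap ℚ E))
    (hmult : ∀ u v, ψ (F u) (F v) = (p : E) ^ n * ψ u v)
    (hconj : ∀ x : K, aeval x (P.map (algebraMap ℚ E)) = 0 →
      minpoly E ((p : K) ^ n / x) = minpoly E x)
    (g : V ≃ₗ[E] V) (hg : ∃ μ : E, ∀ u v, ψ (g u) (g v) = μ * ψ u v) :
    ((∀ c : Module.End E V, Comm Γ c → ∀ v, c (g v) = g (c v)) →
      InCl Γ (((g * g : V ≃ₗ[E] V)) : Module.End E V)) ∧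
    ((∀ W : Submodule E V, (∀ γ ∈ Γ, ∀ w ∈ W, (γ : V ≃ₗ[E] V) w ∈ W) → W = ⊥ ∨ W = ⊤) →
      InCl Γ (g : Module.End E V)) := by
  classical
  have hac : IsAlgClosed K := IsAlgClosure.isAlgClosed E
  have halg : Algebra.IsAlgebraic E K := IsAlgClosure.isAlgebraic
  have hcz : CharZero K := charZero_of_injective_algebraMap (algebraMap E K).injective
  let jE : P.SplittingField →ₐ[ℚ] K := IsAlgClosed.lift
  have hmapP0 : (P.map (algebraMap ℚ E)).map (algebraMap E K) = P.map (algebraMap ℚ K) := by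
    rw [Polynomial.map_map]
    congr 1
    exact Subsingleton.elim _ _
  have hmapP : ((X - C c) * P.map (algebraMap ℚ E)).map (algebraMap E K) =
      (X - C (algebraMap E K c)) * P.map (algebraMap ℚ K) := by
    rw [Polynomial.map_mul, Polynomial.map_sub, map_X, map_C, hmapP0]
  have hsimK : ∀ γ ∈ Γ.map (bcE K), ∃ μ : K, ∀ u v, fK K ψ ((γ : K ⊗[E] V ≃ₗ[K] K ⊗[E] V) u)
      ((γ : K ⊗[E] V ≃ₗ[K] K ⊗[E] V) v) = μ * fK K ψ u v := by
    rintro _ ⟨γ, hγ, rfl⟩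
    obtain ⟨μ, hμ⟩ := hsim γ hγ
    exact ⟨algebraMap E K μ, fK_sim γ μ hμ⟩
  have hcharK : LinearMap.charpoly ((bcE K F : K ⊗[E] V ≃ₗ[K] K ⊗[E] V) :
      K ⊗[E] V →ₗ[K] K ⊗[E] V) = (X - C (algebraMap E K c)) * P.map (algebraMap ℚ K) := by
    rw [bcE_coe, LinearMap.charpoly_baseChange, hchar, hmapP]
  have hmultK : ∀ u v, fK K ψ (bcE K F u) (bcE K F v) = (p : K) ^ n * fK K ψ u v := by
    intro u v
    rw [fK_sim F _ hmult, map_pow, map_natCast]
  have hndK := fK_nondeg_sym (K := K) hsym hnd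
  have hc2 : (algebraMap E K c) ^ 2 = (p : K) ^ n :=
    c_sq_gen hweil (fK K ψ) hndK (bcE K F) (algebraMap E K c) hcharK hmultK
  obtain ⟨b, hset⟩ := psetup_sq hn hP hweil hreal hmr (fK K ψ) (fK_sym hsym) hndK
    (Γ.map (bcE K)) hsimK (bcE K F) ⟨F, hF, rfl⟩ (algebraMap E K c) hc2 hcharK hmultK jE
  have hqK : ∀ i : Option (Rt P), i ≠ none → ∃ σ : K ≃+* K, SemiSym (Γ.map (bcE K)) σ ∧
      σ (i.elim (algebraMap E K c) (fun x : Rt P => jE x.1)) =
        (Option.map (inv hweil) i).elim (algebraMap E K c) (fun x : Rt P => jE x.1) := by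
    intro i hi
    cases i with
    | none => exact absurd rfl hi
    | some i =>
      have h0 : aeval (jE i.1) P = 0 := by rw [aeval_algHom_apply, rt_root, map_zero]
      have h1 : aeval (jE i.1) (P.map (algebraMap ℚ E)) = 0 := by
        rw [aeval_def, ← eval_map, hmapP0, eval_map, ← aeval_def, h0]
      obtain ⟨σ, hσ⟩ := (Normal.minpoly_eq_iff_mem_orbit K).1 (hconj _ h1)
      refine ⟨σ, semiSym_bc K σ Γ, ?_⟩
      show σ (jE i.1) = jE ((p : P.SplittingField) ^ n / i.1)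
      rw [map_div₀, map_pow, map_natCast]
      exact hσ
  have hmn : ∀ i, OMn (Γ.map (bcE K)) b i := hset.all_mn_gal hqK
  obtain ⟨μ, hμ⟩ := hg
  have hgg : ((bcE K (g * g) : K ⊗[E] V ≃ₗ[K] K ⊗[E] V) : Module.End K (K ⊗[E] V)) =
      ((bcE K g : K ⊗[E] V ≃ₗ[K] K ⊗[E] V) : Module.End K (K ⊗[E] V)) *
      ((bcE K g : K ⊗[E] V ≃ₗ[K] K ⊗[E] V) : Module.End K (K ⊗[E] V)) := by
    rw [map_mul]
    rfl
  refine ⟨?_, ?_⟩
  · intro hcomm
    apply inCl_descend K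
    rw [hgg]
    exact hset.pdense hmn (bcE K g) ⟨algebraMap E K μ, fK_sim g μ hμ⟩
      (hset.supp_of_comm hmn _ (fun c hc => comm_descend K Γ g hcomm c hc))
  · intro hirr
    apply inCl_descend K
    obtain ⟨v0, hv0, hFv⟩ := exists_eig F c _ hchar
    exact hset.full (hmn none)
      (fun W hW => irr_bc hset c rfl v0 hv0 hFv hndK hirr W hW) (bcE K g)
      ⟨algebraMap E K μ, fK_sim g μ hμ⟩

/-- **Self-conjugate case, any rank, both parities of the form.** -/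
theorem selfConjAll (hn : 0 < n) (hP : Squarefree P) (hpos : 0 < P.natDegree)
    (hweil : ∀ z : ℂ, aeval z P = 0 → ‖z‖ ^ 2 = (p : ℝ) ^ n)
    (hreal : ∀ z : ℂ, aeval z P = 0 → z ^ 2 ≠ (p : ℂ) ^ n) (hmr : MaxRank ((p : ℂ) ^ n) P)
    {E : Type*} [Field E] [CharZero E] (K : Type*) [Field K] [Algebra E K] [IsAlgClosure E K]
    {V : Type*} [AddCommGroup V] [Module E V] [FiniteDimensional E V] (ψ : V →ₗ[E] V →ₗ[E] E)
    (hψ : (∀ v, ψ v v = 0) ∨ (∀ u v, ψ u v = ψ v u)) (hnd : ∀ v, (∀ w, ψ v w = 0) → v = 0)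
    (Γ : Subgroup (V ≃ₗ[E] V))
    (hsim : ∀ γ ∈ Γ, ∃ μ : E, ∀ u v, ψ ((γ : V ≃ₗ[E] V) u) ((γ : V ≃ₗ[E] V) v) = μ * ψ u v)
    (F : V ≃ₗ[E] V) (hF : F ∈ Γ)
    (hchar : LinearMap.charpoly (F : V →ₗ[E] V) = P.map (algebraMap ℚ E) ∨
      ∃ c : E, LinearMap.charpoly (F : V →ₗ[E] V) = (X - C c) * P.map (algebraMap ℚ E))
    (hmult : ∀ u v, ψ (F u) (F v) = (p : E) ^ n * ψ u v)
    (hconj : ∀ x : K, aeval x (P.map (algebraMap ℚ E)) = 0 →
      minpoly E ((p : K) ^ n / x) = minpoly E x)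
    (g : V ≃ₗ[E] V) (hg : ∃ μ : E, ∀ u v, ψ (g u) (g v) = μ * ψ u v) :
    ((∀ c : Module.End E V, Comm Γ c → ∀ v, c (g v) = g (c v)) →
      InCl Γ (((g * g : V ≃ₗ[E] V)) : Module.End E V) ∧
        ((∀ v, ψ v v = 0) → InCl Γ (g : Module.End E V))) ∧
    (Odd (Module.finrank E V) →
      (∀ W : Submodule E V, (∀ γ ∈ Γ, ∀ w ∈ W, (γ : V ≃ₗ[E] V) w ∈ W) → W = ⊥ ∨ W = ⊤) →
      InCl Γ (g : Module.End E V)) := by
  rcases hchar with hchar | ⟨c, hchar⟩
  · refine ⟨fun hcomm => selfConjEven hn hP hpos hweil hreal hmr K ψ hψ hnd Γ hsim F hF hchar hmult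
      hconj g hg hcomm, ?_⟩
    intro hodd _
    exfalso
    rw [← LinearMap.charpoly_natDegree (F : V →ₗ[E] V), hchar, natDegree_map] at hodd
    exact (Nat.not_even_iff_odd.2 hodd) (card_even_sq hP hweil hreal)
  · rcases hψ with halt | hsym
    · exfalso
      have hac : IsAlgClosed K := IsAlgClosure.isAlgClosed E
      have halg : Algebra.IsAlgebraic E K := IsAlgClosure.isAlgebraic
      have hcz : CharZero K := charZero_of_injective_algebraMap (algebraMap E K).injective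
      let jE : P.SplittingField →ₐ[ℚ] K := IsAlgClosed.lift
      have hmapP : ((X - C c) * P.map (algebraMap ℚ E)).map (algebraMap E K) =
          (X - C (algebraMap E K c)) * P.map (algebraMap ℚ K) := by
        rw [Polynomial.map_mul, Polynomial.map_sub, map_X, map_C, Polynomial.map_map]
        congr 2
        exact Subsingleton.elim _ _
      have hcharK : LinearMap.charpoly ((bcE K F : K ⊗[E] V ≃ₗ[K] K ⊗[E] V) :
          K ⊗[E] V →ₗ[K] K ⊗[E] V) = (X - C (algebraMap E K c)) * P.map (algebraMap ℚ K) := by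
        rw [bcE_coe, LinearMap.charpoly_baseChange, hchar, hmapP]
      have hmultK : ∀ u v, fK K ψ (bcE K F u) (bcE K F v) = (p : K) ^ n * fK K ψ u v := by
        intro u v
        rw [fK_sim F _ hmult, map_pow, map_natCast]
      have hsw : ∀ u v, ψ v u = - ψ u v := fun u v => psi_swap halt u v
      have hndK := fK_nondeg (K := K) hsw hnd
      have hc2 : (algebraMap E K c) ^ 2 = (p : K) ^ n :=
        c_sq_gen hweil (fK K ψ) hndK (bcE K F) (algebraMap E K c) hcharK hmultK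
      exact no_alt_sq hP hweil hreal (fK K ψ) (fK_alt halt) hndK (bcE K F) (algebraMap E K c) hc2
        hcharK hmultK jE
    · obtain ⟨h1, h2⟩ := selfConjOdd hn hP hpos hweil hreal hmr K ψ hsym hnd Γ hsim F hF c hchar hmult
        hconj g hg
      refine ⟨fun hcomm => ⟨h1 hcomm, ?_⟩, fun _ hirr => h2 hirr⟩
      intro halt
      exfalso
      obtain ⟨v0, hv0, -⟩ := exists_eig F c _ hchar
      apply hv0
      apply hnd
      intro w
      have e1 := halt (v0 + w)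
      simp only [map_add, LinearMap.add_apply, halt v0, halt w, hsym w v0] at e1
      have e2 : (2 : E) * ψ v0 w = 0 := by linear_combination e1
      rcases mul_eq_zero.1 e2 with e3 | e3
      · exact absurd e3 two_ne_zero
      · exact e3

end

end Pool.Agent.H91O
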