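import Mathlib

/-! Generation of orthogonal groups by unipotents and one reflection (up to sign). -/

set_option linter.unusedSectionVars false

namespace Pool.Agent.H91O

variable {K : Type*} [Field K] [CharZero K] {V : Type*} [AddCommGroup V] [Module K V]
variable {ψ : V →ₗ[K] V →ₗ[K] K}

/-- the infinitesimal rotation `v ↦ ψ(v,e) w - ψ(v,w) e` -/
noncomputable def XX (ψ : V →ₗ[K] V →ₗ[K] K) (e w : V) : Module.End K V :=
  (ψ.flip e).smulRight w - (ψ.flip w).smulRight e

lemma XX_apply (e w v : V) : XX ψ e w v = ψ v e • w - ψ v w • e := rfl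

lemma XX_add (e w w' : V) : XX ψ e (w + w') = XX ψ e w + XX ψ e w' := by
  ext v
  rw [LinearMap.add_apply, XX_apply, XX_apply, XX_apply, map_add, smul_add, add_smul]
  abel

lemma XX_smul (e w : V) (a : K) : XX ψ e (a • w) = a • XX ψ e w := by
  ext v
  rw [LinearMap.smul_apply, XX_apply, XX_apply, map_smul, smul_eq_mul]
  module

/-- its exponential for isotropic `w` orthogonal to `e` -/
noncomputable def EE (ψ : V →ₗ[K] V →ₗ[K] K) (e w : V) : Module.End K V :=
  1 + (1 : K) • XX ψ e w + ((1 : K) ^ 2 / 2) • (XX ψ e w * XX ψ e w)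

lemma XX_sq (hsym : ∀ u v, ψ u v = ψ v u) {e w : V} (h1 : ψ w e = 0) (h2 : ψ w w = 0) (v : V) :
    (XX ψ e w * XX ψ e w) v = (-(ψ e e * ψ v w)) • w := by
  rw [Module.End.mul_apply, XX_apply, XX_apply]
  simp only [map_sub, map_smul, LinearMap.sub_apply, LinearMap.smul_apply, smul_eq_mul, h1, h2,
    hsym e w]
  module

lemma XX_cube (hsym : ∀ u v, ψ u v = ψ v u) {e w : V} (h1 : ψ w e = 0) (h2 : ψ w w = 0) :
    XX ψ e w * XX ψ e w * XX ψ e w = 0 := by
  ext v
  rw [mul_assoc, Module.End.mul_apply, XX_sq hsym h1 h2, map_smul, XX_apply, h1, h2]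
  simp

lemma EE_apply (hsym : ∀ u v, ψ u v = ψ v u) {e w : V} (h1 : ψ w e = 0) (h2 : ψ w w = 0)
    (v : V) : EE ψ e w v = v + ψ v e • w - ψ v w • e - (ψ e e * ψ v w / 2) • w := by
  rw [EE, LinearMap.add_apply, LinearMap.add_apply, LinearMap.smul_apply, LinearMap.smul_apply,
    XX_sq hsym h1 h2, XX_apply, Module.End.one_apply]
  module

lemma EE_iso (hsym : ∀ u v, ψ u v = ψ v u) {e w : V} (h1 : ψ w e = 0) (h2 : ψ w w = 0)
    (u v : V) : ψ (EE ψ e w u) (EE ψ e w v) = ψ u v := by
  rw [EE_apply hsym h1 h2, EE_apply hsym h1 h2]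
  have h3 : ψ e w = 0 := by rw [hsym, h1]
  simp only [map_add, map_sub, map_smul, LinearMap.add_apply, LinearMap.sub_apply,
    LinearMap.smul_apply, smul_eq_mul, h1, h2, h3, hsym e v, hsym w v]
  ring

lemma EE_inv (hsym : ∀ u v, ψ u v = ψ v u) {e w : V} (h1 : ψ w e = 0) (h2 : ψ w w = 0) :
    EE ψ e (-w) * EE ψ e w = 1 := by
  have h3 : ψ e w = 0 := by rw [hsym, h1]
  have h1' : ψ (-w) e = 0 := by rw [map_neg, LinearMap.neg_apply, h1, neg_zero]
  have h2' : ψ (-w) (-w) = 0 := by rw [map_neg, map_neg, LinearMap.neg_apply, h2]; simp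
  ext v
  rw [Module.End.mul_apply, EE_apply hsym h1' h2', EE_apply hsym h1 h2]
  simp only [map_add, map_sub, map_smul, map_neg, LinearMap.add_apply, LinearMap.sub_apply,
    LinearMap.smul_apply, smul_eq_mul, h1, h2, h3, Module.End.one_apply]
  module

/-- minus the reflection in `v` -/
noncomputable def nr (ψ : V →ₗ[K] V →ₗ[K] K) (v : V) : Module.End K V :=
  (2 / ψ v v) • (ψ.flip v).smulRight v - 1

lemma nr_apply (v x : V) : nr ψ v x = (2 / ψ v v * ψ x v) • v - x := by
  rw [nr, LinearMap.sub_apply, LinearMap.smul_apply, LinearMap.smulRight_apply,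
    LinearMap.flip_apply, smul_smul]
  rfl

lemma nr_neg (v : V) : nr ψ (-v) = nr ψ v := by
  ext x
  rw [nr_apply, nr_apply]
  simp only [map_neg, LinearMap.neg_apply, neg_neg]
  module

lemma nr_smul (v : V) {a : K} (ha : a ≠ 0) (hv : ψ v v ≠ 0) : nr ψ (a • v) = nr ψ v := by
  ext x
  rw [nr_apply, nr_apply]
  simp only [map_smul, LinearMap.smul_apply, smul_eq_mul, smul_smul]
  congr 2
  field_simp

/-- transitivity on the vectors of square `ψ e e`, up to sign -/
lemma exists_move (hsym : ∀ u v, ψ u v = ψ v u) {e : V} (he : ψ e e ≠ 0)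
    (S : Submonoid (Module.End K V))
    (hE : ∀ w, ψ w e = 0 → ψ w w = 0 → EE ψ e w ∈ S)
    (hw : ∀ u, u ≠ 0 → ψ u e = 0 → ∃ w, ψ w e = 0 ∧ ψ w w = 0 ∧ ψ u w ≠ 0)
    (v : V) (hv : ψ v v = ψ e e) :
    ∃ h h' : Module.End K V, h ∈ S ∧ h' ∈ S ∧ h' * h = 1 ∧
      (∀ x y, ψ (h x) (h y) = ψ x y) ∧ (h v = e ∨ h v = -e) := by
  have hneg : ∀ w, ψ w e = 0 → ψ w w = 0 → EE ψ e (-w) ∈ S := by
    intro w h1 h2
    apply hE
    · rw [map_neg, LinearMap.neg_apply, h1, neg_zero]
    · rw [map_neg, map_neg, LinearMap.neg_apply, h2]; simp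
  obtain ⟨x0, hx0⟩ : ∃ x0 : K, x0 = ψ v e / ψ e e := ⟨_, rfl⟩
  obtain ⟨u, hu⟩ : ∃ u : V, u = v - x0 • e := ⟨_, rfl⟩
  have hve : ψ v e = x0 * ψ e e := by rw [hx0]; field_simp
  have hue : ψ u e = 0 := by
    rw [hu, map_sub, map_smul, LinearMap.sub_apply, LinearMap.smul_apply, smul_eq_mul, hve,
      sub_self]
  have hvu : v = x0 • e + u := by rw [hu]; abel
  have hsq : x0 ^ 2 * ψ e e + ψ u u = ψ e e := by
    have h0 := hv
    rw [hvu] at h0
    simp only [map_add, map_smul, LinearMap.add_apply, LinearMap.smul_apply, smul_eq_mul, hue,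
      hsym e u] at h0
    linear_combination h0
  by_cases hu0 : u = 0
  · refine ⟨1, 1, S.one_mem, S.one_mem, mul_one _, fun x y => rfl, ?_⟩
    rw [hu0] at hsq hvu
    have h1 : (x0 - 1) * (x0 + 1) * ψ e e = 0 := by
      rw [map_zero, add_zero] at hsq
      linear_combination hsq
    rcases mul_eq_zero.1 h1 with h2 | h2
    · rcases mul_eq_zero.1 h2 with h3 | h3
      · left
        rw [Module.End.one_apply, hvu, sub_eq_zero.1 h3, one_smul, add_zero]
      · right
        rw [Module.End.one_apply, hvu, eq_neg_of_add_eq_zero_left h3, neg_smul, one_smul,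
          add_zero]
    · exact absurd h2 he
  · obtain ⟨w0, h01, h02, h03⟩ := hw u hu0 hue
    obtain ⟨w, hwdef⟩ : ∃ w : V, w = ((x0 - 1) / ψ u w0) • w0 := ⟨_, rfl⟩
    have hw1 : ψ w e = 0 := by
      rw [hwdef, map_smul, LinearMap.smul_apply, h01, smul_zero]
    have hw2 : ψ w w = 0 := by
      rw [hwdef, map_smul, map_smul, LinearMap.smul_apply, h02, smul_zero, smul_zero]
    have hw3 : ψ u w = x0 - 1 := by
      rw [hwdef, map_smul, smul_eq_mul]
      field_simp
    have hew : ψ e w = 0 := by rw [hsym, hw1]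
    have hvw : ψ v w = x0 - 1 := by
      rw [hvu, map_add, map_smul, LinearMap.add_apply, LinearMap.smul_apply, hew, smul_zero,
        zero_add, hw3]
    obtain ⟨u1, hu1⟩ : ∃ u1 : V, u1 = EE ψ e w v - e := ⟨_, rfl⟩
    have hE1 : EE ψ e w v = e + u1 := by rw [hu1]; abel
    have hu1e : ψ u1 e = 0 := by
      rw [hu1, EE_apply hsym hw1 hw2]
      simp only [map_add, map_sub, map_smul, LinearMap.add_apply, LinearMap.sub_apply,
        LinearMap.smul_apply, smul_eq_mul, hw1, hvw, hve]
      ring
    have hu1u : ψ u1 u1 = 0 := by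
      have h1 := EE_iso hsym hw1 hw2 v v
      rw [hE1, hv] at h1
      simp only [map_add, LinearMap.add_apply, hu1e, hsym e u1] at h1
      linear_combination h1
    obtain ⟨w', hw'def⟩ : ∃ w' : V, w' = (-(1 / ψ e e)) • u1 := ⟨_, rfl⟩
    have hw'1 : ψ w' e = 0 := by
      rw [hw'def, map_smul, LinearMap.smul_apply, hu1e, smul_zero]
    have hw'2 : ψ w' w' = 0 := by
      rw [hw'def, map_smul, map_smul, LinearMap.smul_apply, hu1u, smul_zero, smul_zero]
    have hfin : EE ψ e w' (e + u1) = e := by
      rw [EE_apply hsym hw'1 hw'2]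
      have h1 : ψ (e + u1) w' = 0 := by
        rw [hw'def, map_smul, map_add, LinearMap.add_apply, hu1u, hsym e u1, hu1e]
        simp
      have h2 : ψ (e + u1) e = ψ e e := by
        rw [map_add, LinearMap.add_apply, hu1e, add_zero]
      rw [h1, h2, hw'def, smul_smul]
      have h3 : ψ e e * -(1 / ψ e e) = -1 := by field_simp
      rw [h3]
      simp
    refine ⟨EE ψ e w' * EE ψ e w, EE ψ e (-w) * EE ψ e (-w'), S.mul_mem (hE _ hw'1 hw'2)
      (hE _ hw1 hw2), S.mul_mem (hneg _ hw1 hw2) (hneg _ hw'1 hw'2), ?_, ?_, Or.inl ?_⟩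
    · rw [mul_assoc, ← mul_assoc (EE ψ e (-w')), EE_inv hsym hw'1 hw'2, one_mul,
        EE_inv hsym hw1 hw2]
    · intro x y
      rw [Module.End.mul_apply, Module.End.mul_apply, EE_iso hsym hw'1 hw'2,
        EE_iso hsym hw1 hw2]
    · rw [Module.End.mul_apply, hE1, hfin]

/-- all reflections, up to sign -/
lemma nr_mem [IsAlgClosed K] (hsym : ∀ u v, ψ u v = ψ v u) {e : V} (he : ψ e e ≠ 0)
    (S : Submonoid (Module.End K V))
    (hE : ∀ w, ψ w e = 0 → ψ w w = 0 → EE ψ e w ∈ S)
    (hw : ∀ u, u ≠ 0 → ψ u e = 0 → ∃ w, ψ w e = 0 ∧ ψ w w = 0 ∧ ψ u w ≠ 0)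
    (hnr : nr ψ e ∈ S) (v : V) (hv : ψ v v ≠ 0) : nr ψ v ∈ S := by
  obtain ⟨a, ha⟩ := IsAlgClosed.exists_pow_nat_eq (ψ e e / ψ v v) (n := 2) (by norm_num)
  have ha0 : a ≠ 0 := by
    rintro rfl
    have h1 : ψ e e / ψ v v ≠ 0 := div_ne_zero he hv
    apply h1
    rw [← ha]
    norm_num
  have hav : ψ (a • v) (a • v) = ψ e e := by
    simp only [map_smul, LinearMap.smul_apply, smul_eq_mul]
    rw [← mul_assoc, ← sq, ha]
    field_simp
  rw [← nr_smul v ha0 hv]
  obtain ⟨h, h', hh, hh', hinv, hiso, hmv⟩ := exists_move hsym he S hE hw _ hav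
  have key : nr ψ (a • v) = h' * nr ψ (h (a • v)) * h := by
    ext x
    rw [Module.End.mul_apply, Module.End.mul_apply, nr_apply, nr_apply, hiso, hiso,
      LinearMap.map_sub h', LinearMap.map_smul h']
    have h1 : ∀ y, h' (h y) = y := fun y => by
      rw [← Module.End.mul_apply, hinv, Module.End.one_apply]
    rw [h1, h1]
  rw [key]
  apply S.mul_mem (S.mul_mem hh' _) hh
  rcases hmv with h1 | h1
  · rw [h1]; exact hnr
  · rw [h1, nr_neg]; exact hnr

/-- Cartan-Dieudonné, weak form: reflections generate the isometries. -/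
lemma iso_mem [FiniteDimensional K V] (hsym : ∀ u v, ψ u v = ψ v u)
    (hnd : ∀ v, (∀ w, ψ v w = 0) → v = 0) (S : Submonoid (Module.End K V))
    (hneg : (-1 : Module.End K V) ∈ S) (hnr : ∀ v, ψ v v ≠ 0 → nr ψ v ∈ S)
    (g : Module.End K V) (hg : ∀ x y, ψ (g x) (g y) = ψ x y) : g ∈ S := by
  classical
  have hsymm : LinearMap.IsSymm (ψ : LinearMap.BilinForm K V) := ⟨fun x y => hsym x y⟩
  let _ : Invertible (2 : K) := invertibleOfNonzero two_ne_zero
  obtain ⟨f, hf⟩ := LinearMap.BilinForm.exists_orthogonal_basis hsymm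
  have hfo : ∀ i j, i ≠ j → ψ (f i) (f j) = 0 := fun i j hij => hf hij
  have hff : ∀ i, ψ (f i) (f i) ≠ 0 := by
    intro i h0
    apply f.ne_zero i
    apply hnd
    intro w
    rw [← f.sum_repr w, map_sum]
    apply Finset.sum_eq_zero
    intro j _
    rw [map_smul]
    by_cases hj : i = j
    · rw [← hj, h0, smul_zero]
    · rw [hfo i j hj, smul_zero]
  -- reflections
  have hr : ∀ v, ψ v v ≠ 0 → -nr ψ v ∈ S := by
    intro v hv
    have := S.mul_mem hneg (hnr v hv)
    rwa [neg_one_mul] at this
  have hr2 : ∀ v, ψ v v ≠ 0 → -nr ψ v * -nr ψ v = 1 := by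
    intro v hv
    ext x
    rw [neg_mul_neg, Module.End.mul_apply, nr_apply, nr_apply, Module.End.one_apply]
    simp only [map_sub, map_smul, LinearMap.sub_apply, LinearMap.smul_apply, smul_eq_mul]
    have h1 : (2 / ψ v v * (2 / ψ v v * ψ x v * ψ v v - ψ x v)) = 2 / ψ v v * ψ x v := by
      field_simp
      ring
    rw [h1]
    abel
  have hriso : ∀ v, ψ v v ≠ 0 → ∀ x y, ψ ((-nr ψ v) x) ((-nr ψ v) y) = ψ x y := by
    intro v hv x y
    rw [LinearMap.neg_apply, LinearMap.neg_apply, nr_apply, nr_apply]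
    simp only [map_sub, map_smul, map_neg, LinearMap.sub_apply, LinearMap.smul_apply,
      LinearMap.neg_apply, smul_eq_mul, hsym v y]
    field_simp
    ring
  have hback : ∀ v, ψ v v ≠ 0 → ∀ g : Module.End K V, -nr ψ v * g ∈ S → g ∈ S := by
    intro v hv g hgS
    have h1 := S.mul_mem (hr v hv) hgS
    rwa [← mul_assoc, hr2 v hv, one_mul] at h1
  have key : ∀ (s : Finset (Fin (Module.finrank K V))) (g : Module.End K V),
      (∀ x y, ψ (g x) (g y) = ψ x y) → (∀ j, j ∉ s → g (f j) = f j) → g ∈ S := by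
    intro s
    induction s using Finset.induction_on with
    | empty =>
      intro g _ h2
      have : g = 1 := by
        apply f.ext
        intro j
        rw [h2 j (Finset.notMem_empty j)]
        rfl
      rw [this]
      exact S.one_mem
    | insert a s has ih =>
      intro g hg h2
      obtain ⟨x, hx⟩ : ∃ x : V, x = f a := ⟨_, rfl⟩
      obtain ⟨y, hy⟩ : ∃ y : V, y = g (f a) := ⟨_, rfl⟩
      have hyy : ψ y y = ψ x x := by rw [hy, hx, hg]
      have hxx : ψ x x ≠ 0 := by rw [hx]; exact hff a
      have hjx : ∀ j, j ∉ insert a s → ψ (f j) x = 0 := by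
        intro j hj
        rw [hx]
        apply hfo
        rintro rfl
        exact hj (Finset.mem_insert_self _ _)
      have hjy : ∀ j, j ∉ insert a s → ψ (f j) y = 0 := by
        intro j hj
        rw [← hjx j hj, hy, hx, ← hg (f j) (f a), h2 j hj]
      -- reflection fixing the earlier vectors
      have hfixv : ∀ v, (∀ j, j ∉ insert a s → ψ (f j) v = 0) → ∀ j, j ∉ insert a s →
          (-nr ψ v) (f j) = f j := by
        intro v hv j hj
        rw [LinearMap.neg_apply, nr_apply, hv j hj, mul_zero, zero_smul, zero_sub, neg_neg]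
      by_cases hA : ψ (x - y) (x - y) = 0
      · have hB : ψ (x + y) (x + y) ≠ 0 := by
          intro hB
          have h3 : (4 : K) * ψ x x = 0 := by
            simp only [map_add, map_sub, LinearMap.add_apply, LinearMap.sub_apply] at hA hB
            linear_combination hA + hB + (-2) * hyy
          rcases mul_eq_zero.1 h3 with h4 | h4
          · norm_num at h4
          · exact hxx h4
        apply hback (x + y) hB
        apply hback x hxx
        apply ih
        · intro u v
          rw [Module.End.mul_apply, Module.End.mul_apply, Module.End.mul_apply,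
            Module.End.mul_apply, hriso x hxx, hriso _ hB, hg]
        · intro j hj
          by_cases hja : j = a
          · subst hja
            rw [Module.End.mul_apply, Module.End.mul_apply, ← hy]
            have h5 : (-nr ψ (x + y)) y = -x := by
              rw [LinearMap.neg_apply, nr_apply]
              have h6 : 2 / ψ (x + y) (x + y) * ψ y (x + y) = 1 := by
                rw [div_mul_eq_mul_div, div_eq_one_iff_eq hB]
                simp only [map_add, LinearMap.add_apply, hsym y x]
                linear_combination hyy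
              rw [h6, one_smul]
              abel
            rw [h5, LinearMap.neg_apply, nr_apply, ← hx]
            have h7 : 2 / ψ x x * ψ (-x) x = -2 := by
              rw [map_neg, LinearMap.neg_apply]
              field_simp
            rw [h7]
            module
          · have hj' : j ∉ insert a s := by
              intro h8
              rcases Finset.mem_insert.1 h8 with h9 | h9
              · exact hja h9
              · exact hj h9
            rw [Module.End.mul_apply, Module.End.mul_apply, h2 j hj',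
              hfixv (x + y) (fun j hj => by rw [map_add, hjx j hj, hjy j hj, add_zero]) j hj',
              hfixv x hjx j hj']
      · apply hback (x - y) hA
        apply ih
        · intro u v
          rw [Module.End.mul_apply, Module.End.mul_apply, hriso _ hA, hg]
        · intro j hj
          by_cases hja : j = a
          · subst hja
            rw [Module.End.mul_apply, ← hy]
            rw [LinearMap.neg_apply, nr_apply]
            have h6 : 2 / ψ (x - y) (x - y) * ψ y (x - y) = -1 := by
              rw [div_mul_eq_mul_div, div_eq_iff hA]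
              simp only [map_sub, LinearMap.sub_apply, hsym y x]
              linear_combination (-1) * hyy
            rw [h6, ← hx]
            module
          · have hj' : j ∉ insert a s := by
              intro h8
              rcases Finset.mem_insert.1 h8 with h9 | h9
              · exact hja h9
              · exact hj h9
            rw [Module.End.mul_apply, h2 j hj',
              hfixv (x - y) (fun j hj => by rw [map_sub, hjx j hj, hjy j hj, sub_zero]) j hj']
  exact key Finset.univ g hg (fun j hj => absurd (Finset.mem_univ j) hj)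

end Pool.Agent.H91O
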