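import Pool.Agent.H91O.Odd1
import Pool.Agent.H91O.Odd2

/-! Odd rank: short roots, duality and symmetries. -/

set_option linter.unusedSectionVars false

namespace Pool.Agent.H91O

open MvPolynomial Pool.Agent.H91.Mono

variable {K : Type*} [Field K] [CharZero K] {V : Type*} [AddCommGroup V] [Module K V]
variable {ι : Type*} [Fintype ι] [DecidableEq ι]
variable {ψ : V →ₗ[K] V →ₗ[K] K} {Γ : Subgroup (V ≃ₗ[K] V)} {b : Module.Basis ι K V}
    {bar : ι → ι} {o : ι} {lam : ι → K} {F : V ≃ₗ[K] V}

namespace PSetup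

/-- filtering an element of the Lie algebra by weights of a torus element -/
lemma filt (h : PSetup ψ Γ b bar o lam F) (x : ι → K) (hx : ∀ i, x i + x (bar i) = 0)
    {X : Module.End K V} (hX : X ∈ lie Γ) (d : K) :
    ∃ Y ∈ lie Γ, ∀ k l, (x k - x l = d → b.repr (Y (b l)) k = b.repr (X (b l)) k) ∧
      (x k - x l ≠ d → b.repr (Y (b l)) k = 0) := by
  classical
  have hpoly : ∀ p : Polynomial K, ∃ Y ∈ lie Γ, ∀ k l,
      b.repr (Y (b l)) k = p.eval (x k - x l) * b.repr (X (b l)) k := by
    intro p
    induction p using Polynomial.induction_on' with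
    | add p q hp hq =>
      obtain ⟨Y, hY, h1⟩ := hp
      obtain ⟨Z, hZ, h2⟩ := hq
      refine ⟨Y + Z, (lie Γ).add_mem hY hZ, ?_⟩
      intro k l
      rw [LinearMap.add_apply, map_add, Finsupp.add_apply, h1, h2, Polynomial.eval_add]
      ring
    | monomial n a =>
      have h1 : ∀ n : ℕ, ∃ Y ∈ lie Γ, ∀ k l,
          b.repr (Y (b l)) k = (x k - x l) ^ n * b.repr (X (b l)) k := by
        intro n
        induction n with
        | zero => exact ⟨X, hX, fun k l => by rw [pow_zero, one_mul]⟩
        | succ n ih =>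
          obtain ⟨Y, hY, h1⟩ := ih
          refine ⟨_, lie_bracket (h.lie_tor x hx) hY, ?_⟩
          intro k l
          rw [LinearMap.sub_apply, map_sub, Finsupp.sub_apply, Module.End.mul_apply,
            Module.End.mul_apply, dg_repr, dg_apply, map_smul, map_smul, Finsupp.smul_apply,
            smul_eq_mul, h1]
          ring
      obtain ⟨Y, hY, h2⟩ := h1 n
      refine ⟨a • Y, (lie Γ).smul_mem a hY, ?_⟩
      intro k l
      rw [LinearMap.smul_apply, map_smul, Finsupp.smul_apply, smul_eq_mul, h2,
        Polynomial.eval_monomial]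
      ring
  let s : Finset K := insert d (Finset.univ.image fun q : ι × ι => x q.1 - x q.2)
  let g : K → K := fun e => if e = d then 1 else 0
  obtain ⟨Y, hY, h1⟩ := hpoly (Lagrange.interpolate s id g)
  have hp : ∀ k l, (Lagrange.interpolate s id g).eval (x k - x l) = g (x k - x l) := by
    intro k l
    exact Lagrange.eval_interpolate_at_node g (s := s) (v := id) (Set.injOn_id _)
      (Finset.mem_insert_of_mem (Finset.mem_image_of_mem
        (fun q : ι × ι => x q.1 - x q.2) (Finset.mem_univ (k, l))))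
  refine ⟨Y, hY, ?_⟩
  intro k l
  constructor
  · intro h2
    rw [h1, hp]
    simp only [g]
    rw [if_pos h2, one_mul]
  · intro h2
    rw [h1, hp]
    simp only [g]
    rw [if_neg h2, zero_mul]

/-- short roots: an element of the Lie algebra with `x b_o` having a nonzero coordinate at `k`
produces the short root element of `k` -/
lemma short_mem (h : PSetup ψ Γ b bar o lam F) {X : Module.End K V} (hX : X ∈ lie Γ) {k : ι}
    (hk : k ≠ o) (hne : b.repr (X (b o)) k ≠ 0) : XX ψ (b o) (b k) ∈ lie Γ := by
  classical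
  -- an injective labelling by natural numbers
  obtain ⟨φ, hφ⟩ : ∃ φ : ι → ℤ, Function.Injective φ :=
    ⟨fun i => ((Fintype.equivFin ι i : ℕ) : ℤ), fun i j hij => by
      have hij' : ((Fintype.equivFin ι i : ℕ) : ℤ) = ((Fintype.equivFin ι j : ℕ) : ℤ) := hij
      apply (Fintype.equivFin ι).injective
      apply Fin.ext
      exact_mod_cast hij'⟩
  let z : ι → ℤ := fun l => if l = k then 1 else if l = bar k then -1 else 3 * (φ l - φ (bar l))
  have hbk : bar k ≠ k := h.nofix k hk
  have hbo : bar k ≠ o := fun h1 => hk (h.bar_eq_o.1 h1)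
  have zk : z k = 1 := by simp [z]
  have zbk : z (bar k) = -1 := by simp [z, hbk]
  have zo : z o = 0 := by
    simp only [z]
    rw [if_neg (Ne.symm hk), if_neg (Ne.symm hbo), h.fixo, sub_self, mul_zero]
  have zl : ∀ l, l ≠ k → l ≠ bar k → z l = 3 * (φ l - φ (bar l)) := by
    intro l h1 h2
    simp only [z]
    rw [if_neg h1, if_neg h2]
  have zl0 : ∀ l, l ≠ k → l ≠ bar k → l ≠ o → φ l - φ (bar l) ≠ 0 := by
    intro l _ _ h3 h4
    exact h.nofix l h3 (hφ (sub_eq_zero.1 h4)).symm
  have hzz : ∀ l, z l + z (bar l) = 0 := by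
    intro l
    by_cases h1 : l = k
    · rw [h1, zk, zbk]; norm_num
    by_cases h2 : l = bar k
    · rw [h2, h.inv, zk, zbk]; norm_num
    rw [zl l h1 h2, zl (bar l) (fun h3 => h2 (by rw [← h3, h.inv])) (fun h3 => h1 (h.inj h3)),
      h.inv]
    ring
  let x : ι → K := fun l => ((z l : ℤ) : K)
  have hx : ∀ i, x i + x (bar i) = 0 := by
    intro i
    simp only [x]
    exact_mod_cast hzz i
  obtain ⟨Y, hY, hYe⟩ := h.filt x hx hX 1
  have hiff : ∀ k' l', x k' - x l' = 1 ↔ (k' = k ∧ l' = o) ∨ (k' = o ∧ l' = bar k) := by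
    intro k' l'
    have e1 : x k' - x l' = 1 ↔ z k' - z l' = 1 := by
      simp only [x]
      exact_mod_cast Iff.rfl
    rw [e1]
    constructor
    · intro h0
      by_cases a1 : k' = k
      · by_cases b1 : l' = k
        · rw [a1, b1] at h0; omega
        by_cases b2 : l' = bar k
        · rw [a1, b2, zk, zbk] at h0; omega
        by_cases b3 : l' = o
        · exact Or.inl ⟨a1, b3⟩
        · exfalso
          have := zl0 l' b1 b2 b3
          rw [a1, zk, zl l' b1 b2] at h0
          omega
      by_cases a2 : k' = bar k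
      · exfalso
        by_cases b1 : l' = k
        · rw [a2, b1, zk, zbk] at h0; omega
        by_cases b2 : l' = bar k
        · rw [a2, b2] at h0; omega
        · rw [a2, zbk, zl l' b1 b2] at h0
          omega
      by_cases b1 : l' = k
      · exfalso
        rw [b1, zk, zl k' a1 a2] at h0
        omega
      by_cases b2 : l' = bar k
      · by_cases a3 : k' = o
        · exact Or.inr ⟨a3, b2⟩
        · exfalso
          have := zl0 k' a1 a2 a3
          rw [b2, zbk, zl k' a1 a2] at h0
          omega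
      · exfalso
        rw [zl k' a1 a2, zl l' b1 b2] at h0
        omega
    · rintro (⟨rfl, rfl⟩ | ⟨rfl, rfl⟩)
      · rw [zk, zo]; norm_num
      · rw [zo, zbk]; norm_num
  -- `Y` is a multiple of the short root element
  have hsk : ψ (X (b o)) (b (bar k)) + ψ (b o) (X (b (bar k))) = 0 :=
    h.lie_form hX (h.zero _ _ (fun h1 => hbo (by rw [h1, h.fixo])))
  have hc0 : ψ (b o) (b o) ≠ 0 := by
    have := h.ne o
    rwa [h.fixo] at this
  have e1 : ψ (X (b o)) (b (bar k)) = b.repr (X (b o)) k * ψ (b k) (b (bar k)) := by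
    rw [h.psi_basis, h.inv]
  have e2 : ψ (b o) (X (b (bar k))) = b.repr (X (b (bar k))) o * ψ (b o) (b o) := by
    rw [h.sym, h.psi_basis, h.fixo]
  rw [e1, e2] at hsk
  have hY' : Y = (b.repr (X (b o)) k / ψ (b o) (b o)) • XX ψ (b o) (b k) := by
    apply b.ext
    intro l
    apply b.repr.injective
    ext k'
    rw [LinearMap.smul_apply, XX_apply, map_smul, map_sub, map_smul, map_smul,
      Finsupp.smul_apply, Finsupp.sub_apply, Finsupp.smul_apply, Finsupp.smul_apply,
      b.repr_self, b.repr_self]
    simp only [smul_eq_mul]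
    by_cases h5 : k' = k ∧ l = o
    · obtain ⟨rfl, rfl⟩ := h5
      rw [(hYe _ _).1 ((hiff _ _).2 (Or.inl ⟨rfl, rfl⟩)), Finsupp.single_eq_same,
        Finsupp.single_eq_of_ne (Ne.symm (Ne.symm hk))]
      field_simp
      ring
    · by_cases h6 : k' = o ∧ l = bar k
      · obtain ⟨rfl, rfl⟩ := h6
        rw [(hYe _ _).1 ((hiff _ _).2 (Or.inr ⟨rfl, rfl⟩)), Finsupp.single_eq_same,
          Finsupp.single_eq_of_ne (Ne.symm hk), h.sym (b (bar k)) (b k)]
        field_simp
        linear_combination hsk
      · rw [(hYe k' l).2 (fun h7 => by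
          rcases (hiff k' l).1 h7 with h8 | h8
          · exact h5 h8
          · exact h6 h8)]
        have z1 : ψ (b l) (b o) * Finsupp.single k (1 : K) k' = 0 := by
          by_cases h8 : k' = k
          · rw [h.zero l o (fun h9 => h5 ⟨h8, h.bar_eq_o.1 h9.symm⟩), zero_mul]
          · rw [Finsupp.single_eq_of_ne h8, mul_zero]
        have z2 : ψ (b l) (b k) * Finsupp.single o (1 : K) k' = 0 := by
          by_cases h8 : k' = o
          · rw [h.zero l k (fun h9 => h6 ⟨h8, by rw [h9, h.inv]⟩), zero_mul]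
          · rw [Finsupp.single_eq_of_ne h8, mul_zero]
        rw [z1, z2, sub_zero, mul_zero]
  rw [hY'] at hY
  have hne' : b.repr (X (b o)) k / ψ (b o) (b o) ≠ 0 := div_ne_zero hne hc0
  have h3 := (lie Γ).smul_mem (b.repr (X (b o)) k / ψ (b o) (b o))⁻¹ hY
  rwa [smul_smul, inv_mul_cancel₀ hne', one_smul] at h3

lemma c0 (h : PSetup ψ Γ b bar o lam F) : ψ (b o) (b o) ≠ 0 := by
  have := h.ne o
  rwa [h.fixo] at this

/-- the class of `o` is described by short roots -/
lemma short_of_rch (h : PSetup ψ Γ b bar o lam F) {k : ι} (hk : Rch Γ b k o) (hko : k ≠ o) :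
    XX ψ (b o) (b k) ∈ lie Γ := by
  have hst : Stab Γ (co b (fun k => k = o ∨ XX ψ (b o) (b k) ∈ lie Γ)) := by
    intro x hx w hw i hi
    rw [← b.sum_repr w, map_sum, map_sum, Finsupp.finsetSum_apply] at hi
    obtain ⟨j, _, hj⟩ := Finset.exists_ne_zero_of_sum_ne_zero hi
    rw [map_smul, map_smul, Finsupp.smul_apply, smul_eq_mul] at hj
    have h1 := hw j (left_ne_zero_of_mul hj)
    have h2 := right_ne_zero_of_mul hj
    by_cases hio : i = o
    · exact Or.inl hio
    right
    rcases h1 with rfl | h1
    · exact h.short_mem hx hio h2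
    · by_cases hij : i = j
      · rw [hij]; exact h1
      by_cases hjo : j = o
      · subst hjo
        exact h.short_mem hx hio h2
      have h3 := lie_bracket hx h1
      apply h.short_mem h3 hio
      rw [LinearMap.sub_apply, Module.End.mul_apply, Module.End.mul_apply, XX_apply, XX_apply,
        h.zero o j (fun h4 => hjo (by rw [h4, h.fixo])), zero_smul, sub_zero, map_smul, map_sub,
        map_sub, map_smul, map_smul, map_smul, Finsupp.sub_apply, Finsupp.sub_apply,
        Finsupp.smul_apply, Finsupp.smul_apply, Finsupp.smul_apply, b.repr_self, b.repr_self,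
        Finsupp.single_eq_of_ne hij, Finsupp.single_eq_of_ne hio]
      simp only [smul_eq_mul, mul_zero, sub_zero]
      exact mul_ne_zero h.c0 h2
  have h1 := hk _ hst (basis_mem_co.2 (Or.inl rfl))
  rcases basis_mem_co.1 h1 with h2 | h2
  · exact absurd h2 hko
  · exact h2

/-- the orthogonal complement of a stable subspace is stable -/
lemma stab_perp (h : PSetup ψ Γ b bar o lam F) {W : Submodule K V} (hW : Stab Γ W) :
    Stab Γ (co b (fun k => b (bar k) ∉ W)) := by
  have key : ∀ w : V, w ∈ co b (fun k => b (bar k) ∉ W) ↔ ∀ u ∈ W, ψ w u = 0 := by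
    intro w
    constructor
    · intro hw u hu
      rw [← b.sum_repr u, map_sum]
      apply Finset.sum_eq_zero
      intro j _
      rw [map_smul, smul_eq_mul]
      by_cases h1 : b.repr u j = 0
      · rw [h1, zero_mul]
      · have h2 := h.stab_coord hW hu h1
        rw [h.psi_basis]
        by_cases h3 : b.repr w (bar j) = 0
        · rw [h3, zero_mul, mul_zero]
        · have h4 : b (bar (bar j)) ∉ W := hw _ h3
          rw [h.inv] at h4
          exact absurd h2 h4
    · intro hw k hk hbk
      have h1 := hw _ hbk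
      rw [h.psi_basis, h.inv] at h1
      rcases mul_eq_zero.1 h1 with h2 | h2
      · exact hk h2
      · exact h.ne k h2
  intro x hx w hw
  rw [key] at hw ⊢
  intro u hu
  have h1 := h.lie_form hx (hw u hu)
  rw [hw _ (hW x hx u hu), add_zero] at h1
  exact h1

lemma Rch_dual (h : PSetup ψ Γ b bar o lam F) {i j : ι} (h1 : Rch Γ b i j) :
    Rch Γ b (bar j) (bar i) := by
  intro W hW hi
  by_contra hj
  have h2 : b j ∈ co b (fun k => b (bar k) ∉ W) := basis_mem_co.2 hj
  have h3 := h1 _ (h.stab_perp hW) h2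
  exact (basis_mem_co.1 h3) hi

lemma stab_co (h : PSetup ψ Γ b bar o lam F) {p : ι → Prop}
    (hp : ∀ i j, Rch Γ b i j → p j → p i) : Stab Γ (co b p) := stab_co' h.coordP hp

lemma lam_inj (h : PSetup ψ Γ b bar o lam F) : Function.Injective lam := by
  intro i j hij
  by_contra hne
  obtain ⟨h1, -⟩ := h.triv (Pi.single i 1) (Pi.single j 1) (by
    rw [Finset.prod_eq_single i, Finset.prod_eq_single j]
    · simp [hij]
    · intro k _ hk; simp [hk]
    · simp
    · intro k _ hk; simp [hk]
    · simp)
  by_cases hio : i = o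
  · have hjo : j ≠ o := fun h2 => hne (by rw [hio, h2])
    have h2 := h1 j
    have hn := h.nofix j hjo
    rw [Pi.single_eq_same, Pi.single_eq_of_ne hn, Pi.single_eq_of_ne (Ne.symm hne)] at h2
    omega
  · have h2 := h1 i
    have hn := h.nofix i hio
    rw [Pi.single_eq_same, Pi.single_eq_of_ne hn, Pi.single_eq_of_ne hne] at h2
    omega

end PSetup

end Pool.Agent.H91O
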