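import Pool.Agent.H91O.Odd3

/-! Odd rank: all isometries of the block of `o` are in the Zariski closure. -/

set_option linter.unusedSectionVars false

namespace Pool.Agent.H91O

open MvPolynomial Pool.Agent.H91.Mono
open scoped Classical

variable {K : Type*} [Field K] [CharZero K] {V : Type*} [AddCommGroup V] [Module K V]
variable {ι : Type*} [Fintype ι] [DecidableEq ι]
variable {ψ : V →ₗ[K] V →ₗ[K] K} {Γ : Subgroup (V ≃ₗ[K] V)} {b : Module.Basis ι K V}
    {bar : ι → ι} {o : ι} {lam : ι → K} {F : V ≃ₗ[K] V}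

/-- indicator of a set of indices -/
noncomputable def ind (K : Type*) [Field K] {ι : Type*} (p : ι → Prop) (i : ι) : K :=
  if p i then 1 else 0

lemma dg_ind_mem (b : Module.Basis ι K V) (p : ι → Prop) (v : V) :
    dg b (ind K p) v ∈ co b p := by
  intro k hk
  rw [dg_repr] at hk
  by_contra h1
  apply hk
  rw [ind, if_neg h1, zero_mul]

/-- projection to a coordinate subspace -/
noncomputable def pr (b : Module.Basis ι K V) (p : ι → Prop) : V →ₗ[K] co b p :=
  LinearMap.codRestrict (co b p) (dg b (ind K p)) (dg_ind_mem b p)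

lemma pr_coe (b : Module.Basis ι K V) (p : ι → Prop) (v : V) :
    (pr b p v : V) = dg b (ind K p) v := rfl

lemma pr_self (b : Module.Basis ι K V) (p : ι → Prop) (u : co b p) : pr b p u = u := by
  apply Subtype.ext
  rw [pr_coe]
  apply b.repr.injective
  ext k
  rw [dg_repr]
  by_cases h1 : p k
  · rw [ind, if_pos h1, one_mul]
  · have h2 : b.repr (u : V) k = 0 := by
      by_contra h3
      exact h1 (u.2 k h3)
    rw [h2, mul_zero]

/-- extension by the identity -/
noncomputable def ext (b : Module.Basis ι K V) (p : ι → Prop) (f : Module.End K (co b p)) :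
    Module.End K V :=
  (co b p).subtype ∘ₗ f ∘ₗ pr b p + (1 - (co b p).subtype ∘ₗ pr b p)

lemma ext_apply (b : Module.Basis ι K V) (p : ι → Prop) (f : Module.End K (co b p)) (v : V) :
    ext b p f v = (f (pr b p v) : V) + (v - pr b p v) := rfl

lemma pr_ext (b : Module.Basis ι K V) (p : ι → Prop) (f : Module.End K (co b p)) (v : V) :
    pr b p (ext b p f v) = f (pr b p v) := by
  rw [ext_apply, map_add, map_sub, pr_self, pr_self, sub_self, add_zero]

lemma ext_mul (b : Module.Basis ι K V) (p : ι → Prop) (f g : Module.End K (co b p)) :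
    ext b p (f * g) = ext b p f * ext b p g := by
  ext v
  rw [Module.End.mul_apply, ext_apply b p f, pr_ext, ext_apply b p g, ext_apply,
    Module.End.mul_apply]
  abel

lemma ext_one (b : Module.Basis ι K V) (p : ι → Prop) :
    ext b p (1 : Module.End K (co b p)) = 1 := by
  ext v
  rw [ext_apply, Module.End.one_apply, Module.End.one_apply]
  abel

lemma ext_basis_of_not (b : Module.Basis ι K V) (p : ι → Prop) (f : Module.End K (co b p))
    {i : ι} (hi : ¬ p i) : ext b p f (b i) = b i := by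
  have h1 : pr b p (b i) = 0 := by
    apply Subtype.ext
    rw [pr_coe, dg_apply, ind, if_neg hi, zero_smul]
    rfl
  rw [ext_apply, h1, map_zero]
  simp

lemma pr_basis_of (b : Module.Basis ι K V) (p : ι → Prop) {i : ι} (hi : p i) :
    (pr b p (b i) : V) = b i := by
  rw [pr_coe, dg_apply, ind, if_pos hi, one_smul]

/-- the monoid of endomorphisms of the coordinate subspace whose extension is in the closure -/
noncomputable def SU (Γ : Subgroup (V ≃ₗ[K] V)) (b : Module.Basis ι K V) (p : ι → Prop) :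
    Submonoid (Module.End K (co b p)) where
  carrier := {f | InCl Γ (ext b p f)}
  mul_mem' := by
    intro f g hf hg
    show InCl Γ (ext b p (f * g))
    rw [ext_mul]
    exact inCl_mul hf hg
  one_mem' := by
    show InCl Γ (ext b p 1)
    rw [ext_one]
    exact inCl_one

/-- the restricted form -/
noncomputable def psU (ψ : V →ₗ[K] V →ₗ[K] K) (b : Module.Basis ι K V) (p : ι → Prop) :
    co b p →ₗ[K] co b p →ₗ[K] K := ψ.domRestrict₁₂ (co b p) (co b p)

lemma psU_apply (ψ : V →ₗ[K] V →ₗ[K] K) (b : Module.Basis ι K V) (p : ι → Prop)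
    (u v : co b p) : psU ψ b p u v = ψ u v := rfl

namespace PSetup

/-- short root elements for all vectors of the block orthogonal to `b o` -/
lemma XX_mem (h : PSetup ψ Γ b bar o lam F) {w : V} (hw : w ∈ co b (fun i => Rch Γ b i o))
    (hwo : ψ w (b o) = 0) : XX ψ (b o) w ∈ lie Γ := by
  have h1 : b.repr w o = 0 := by
    rw [h.psi_basis, h.fixo] at hwo
    rcases mul_eq_zero.1 hwo with h2 | h2
    · exact h2
    · exact absurd h2 h.c0
  have h2 : XX ψ (b o) w = ∑ i, b.repr w i • XX ψ (b o) (b i) := by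
    conv_lhs => rw [← b.sum_repr w]
    have hs : ∀ s : Finset ι, XX ψ (b o) (∑ i ∈ s, b.repr w i • b i) =
        ∑ i ∈ s, b.repr w i • XX ψ (b o) (b i) := by
      intro s
      induction s using Finset.induction_on with
      | empty =>
        rw [Finset.sum_empty, Finset.sum_empty]
        ext v
        rw [XX_apply]
        simp
      | insert a s ha ih =>
        rw [Finset.sum_insert ha, Finset.sum_insert ha, XX_add, XX_smul, ih]
    exact hs _
  rw [h2]
  apply Submodule.sum_mem
  intro i _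
  by_cases h3 : b.repr w i = 0
  · rw [h3, zero_smul]; exact Submodule.zero_mem _
  · apply Submodule.smul_mem
    apply h.short_of_rch (hw i h3)
    rintro rfl
    exact h3 h1

lemma class_bar (h : PSetup ψ Γ b bar o lam F) (hmn : OMn Γ b o) {i : ι} (hi : Rch Γ b i o) :
    Rch Γ b (bar i) o := by
  have h1 := h.Rch_dual (hmn i hi)
  rwa [h.fixo] at h1

/-- torus elements -/
lemma cl_sign (h : PSetup ψ Γ b bar o lam F) (p : ι → Prop) (hp : ∀ i, p i → p (bar i))
    (t : ι → K) (h1 : ∀ i, p i → t i = -1) (h0 : ∀ i, ¬ p i → t i = 1) :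
    InCl Γ (dg b t) := by
  apply h.cl_tor
  · by_cases h3 : p o
    · rw [h1 o h3]; norm_num
    · rw [h0 o h3]; norm_num
  · intro i
    have h2 : p (bar i) ↔ p i := ⟨fun h3 => by have := hp _ h3; rwa [h.inv] at this, hp i⟩
    have h4 : t o ^ 2 = 1 := by
      by_cases h3 : p o
      · rw [h1 o h3]; norm_num
      · rw [h0 o h3]; norm_num
    rw [h4]
    by_cases h3 : p i
    · rw [h1 _ h3, h1 _ (h2.2 h3)]; norm_num
    · rw [h0 _ h3, h0 _ (fun h5 => h3 (h2.1 h5))]; norm_num

lemma ext_EE (h : PSetup ψ Γ b bar o lam F) (p : ι → Prop) (hp : ∀ i, p i → p (bar i))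
    (hpo : p o) (w : co b p) (h1 : ψ (w : V) (b o) = 0) (h2 : ψ (w : V) w = 0) :
    ext b p (EE (psU ψ b p) ⟨b o, basis_mem_co.2 hpo⟩ w) = EE ψ (b o) w := by
  have hsymU : ∀ u v, psU ψ b p u v = psU ψ b p v u := fun u v => h.sym _ _
  ext v
  rw [ext_apply, EE_apply hsymU h1 h2, EE_apply h.sym h1 h2]
  have h4 : ∀ u : co b p, psU ψ b p (pr b p v) u = ψ v u := by
    intro u
    rw [psU_apply, pr_coe, h.psi_bil, h.psi_bil v, bil, bil]
    apply Finset.sum_congr rfl
    intro i _
    rw [dg_repr]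
    by_cases h5 : p i
    · rw [ind, if_pos h5, one_mul]
    · have h6 : b.repr (u : V) (bar i) = 0 := by
        by_contra h7
        have h8 := hp _ (u.2 _ h7)
        rw [h.inv] at h8
        exact h5 h8
      rw [h6, mul_zero, mul_zero]
  rw [h4, h4, psU_apply]
  rw [Submodule.coe_sub, Submodule.coe_sub, Submodule.coe_add, Submodule.coe_smul,
    Submodule.coe_smul, Submodule.coe_smul]
  show (pr b p v : V) + ψ v (b o) • (w : V) - ψ v w • b o - (ψ (b o) (b o) * ψ v w / 2) • (w : V) +
    (v - pr b p v) = v + ψ v (b o) • (w : V) - ψ v w • b o - (ψ (b o) (b o) * ψ v w / 2) • (w : V)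
  abel

lemma ext_nr (h : PSetup ψ Γ b bar o lam F) (p : ι → Prop) (hpo : p o) :
    ext b p (nr (psU ψ b p) ⟨b o, basis_mem_co.2 hpo⟩) =
      dg b (fun i => if p i ∧ i ≠ o then -1 else 1) := by
  apply b.ext
  intro i
  rw [dg_apply]
  by_cases hi : p i
  · rw [ext_apply, nr_apply, psU_apply, psU_apply, Submodule.coe_sub, Submodule.coe_smul,
      pr_basis_of b p hi]
    by_cases hio : i = o
    · have h4 : 2 / ψ (b o) (b o) * ψ (b i) (b o) = 2 := by
        rw [hio]
        exact div_mul_cancel₀ _ h.c0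
      rw [h4, if_neg (fun h5 => h5.2 hio), hio]
      show (2 : K) • b o - b o + (b o - b o) = (1 : K) • b o
      rw [two_smul, one_smul]
      abel
    · rw [h.zero i o (fun h4 => hio (h.bar_eq_o.1 h4.symm)), if_pos ⟨hi, hio⟩, mul_zero,
        zero_smul, zero_sub, sub_self, add_zero, neg_smul, one_smul]
  · rw [ext_basis_of_not b p _ hi, if_neg (fun h5 => hi h5.1), one_smul]

lemma ext_neg_one (b : Module.Basis ι K V) (p : ι → Prop) :
    ext b p (-1) = dg b (fun i => if p i then -1 else 1) := by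
  apply b.ext
  intro i
  rw [dg_apply]
  by_cases hi : p i
  · rw [ext_apply, LinearMap.neg_apply, Module.End.one_apply, Submodule.coe_neg,
      pr_basis_of b p hi, if_pos hi, sub_self, add_zero, neg_smul, one_smul]
  · rw [ext_basis_of_not b p _ hi, if_neg hi, one_smul]

lemma exists_coord (b : Module.Basis ι K V) (p : ι → Prop) (u : co b p) (hu : u ≠ 0) :
    ∃ i, p i ∧ b.repr (u : V) i ≠ 0 := by
  have h5 : b.repr (u : V) ≠ 0 := by
    intro h6
    exact hu (Subtype.ext (b.repr.map_eq_zero_iff.1 h6))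
  obtain ⟨i, hi⟩ := Finsupp.ne_iff.1 h5
  exact ⟨i, u.2 i hi, hi⟩

lemma block_mem (h : PSetup ψ Γ b bar o lam F) [IsAlgClosed K] (p : ι → Prop)
    (hbar : ∀ i, p i → p (bar i)) (hpo : p o)
    (hXX : ∀ w ∈ co b p, ψ w (b o) = 0 → XX ψ (b o) w ∈ lie Γ)
    (f : Module.End K (co b p)) (hf : ∀ x y, psU ψ b p (f x) (f y) = psU ψ b p x y) :
    InCl Γ (ext b p f) := by
  have hfd : FiniteDimensional K V := Module.Basis.finiteDimensional_of_finite b
  have hsymU : ∀ u v, psU ψ b p u v = psU ψ b p v u := fun u v => h.sym _ _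
  have hee : psU ψ b p ⟨b o, basis_mem_co.2 hpo⟩ ⟨b o, basis_mem_co.2 hpo⟩ ≠ 0 := h.c0
  have hndU : ∀ u : co b p, (∀ w, psU ψ b p u w = 0) → u = 0 := by
    intro u hu
    by_contra hu0
    obtain ⟨i, hi, hne⟩ := exists_coord b p u hu0
    have h1 := hu ⟨b (bar i), basis_mem_co.2 (hbar i hi)⟩
    rw [psU_apply] at h1
    have h1' : ψ (u : V) (b (bar i)) = 0 := h1
    rw [h.psi_basis, h.inv] at h1'
    rcases mul_eq_zero.1 h1' with h2 | h2
    · exact hne h2
    · exact h.ne i h2
  have hE : ∀ w : co b p, psU ψ b p w ⟨b o, basis_mem_co.2 hpo⟩ = 0 → psU ψ b p w w = 0 →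
      EE (psU ψ b p) ⟨b o, basis_mem_co.2 hpo⟩ w ∈ SU Γ b p := by
    intro w h1 h2
    show InCl Γ (ext b p (EE (psU ψ b p) ⟨b o, basis_mem_co.2 hpo⟩ w))
    have h1' : ψ (w : V) (b o) = 0 := h1
    have h2' : ψ (w : V) w = 0 := h2
    rw [h.ext_EE p hbar hpo w h1' h2']
    exact inCl_exp (hXX _ w.2 h1') (XX_cube h.sym h1' h2') 1
  have hwe : ∀ u : co b p, u ≠ 0 → psU ψ b p u ⟨b o, basis_mem_co.2 hpo⟩ = 0 →
      ∃ w, psU ψ b p w ⟨b o, basis_mem_co.2 hpo⟩ = 0 ∧ psU ψ b p w w = 0 ∧
        psU ψ b p u w ≠ 0 := by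
    intro u hu hue
    obtain ⟨i, hi, hne⟩ := exists_coord b p u hu
    have hio : i ≠ o := by
      intro hio
      have h1 : ψ (u : V) (b o) = 0 := hue
      rw [h.psi_basis, h.fixo] at h1
      rcases mul_eq_zero.1 h1 with h2 | h2
      · rw [hio] at hne; exact hne h2
      · exact h.c0 h2
    refine ⟨⟨b (bar i), basis_mem_co.2 (hbar i hi)⟩, ?_, ?_, ?_⟩
    · show ψ (b (bar i)) (b o) = 0
      apply h.zero
      rw [h.inv]
      exact Ne.symm hio
    · show ψ (b (bar i)) (b (bar i)) = 0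
      apply h.zero
      rw [h.inv]
      exact h.nofix i hio
    · show ψ (u : V) (b (bar i)) ≠ 0
      rw [h.psi_basis, h.inv]
      exact mul_ne_zero hne (h.ne i)
  have hnre : nr (psU ψ b p) ⟨b o, basis_mem_co.2 hpo⟩ ∈ SU Γ b p := by
    show InCl Γ (ext b p (nr (psU ψ b p) ⟨b o, basis_mem_co.2 hpo⟩))
    rw [h.ext_nr p hpo]
    exact h.cl_sign (fun i => p i ∧ i ≠ o)
      (fun i hi => ⟨hbar i hi.1, fun h2 => hi.2 (h.bar_eq_o.1 h2)⟩) _ (fun i hi => if_pos hi)
      (fun i hi => if_neg hi)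
  have hneg : (-1 : Module.End K (co b p)) ∈ SU Γ b p := by
    show InCl Γ (ext b p (-1))
    rw [ext_neg_one]
    exact h.cl_sign p hbar _ (fun i hi => if_pos hi) (fun i hi => if_neg hi)
  exact iso_mem hsymU hndU (SU Γ b p) hneg (fun v hv => nr_mem hsymU hee (SU Γ b p) hE hwe
      hnre v hv) f hf

theorem block (h : PSetup ψ Γ b bar o lam F) [IsAlgClosed K] (p : ι → Prop)
    (hbar : ∀ i, p i → p (bar i)) (hpo : p o) (hpR : ∀ i, p i → Rch Γ b i o)
    (g : Module.End K V) (hiso : ∀ u v, ψ (g u) (g v) = ψ u v)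
    (hgU : ∀ i, p i → g (b i) ∈ co b p)
    (hfix : ∀ i, ¬ p i → g (b i) = b i) : InCl Γ g := by
  have hgU' : ∀ u ∈ co b p, g u ∈ co b p := by
    intro u hu
    rw [← b.sum_repr u, map_sum]
    apply Submodule.sum_mem
    intro i _
    rw [map_smul]
    by_cases h1 : b.repr u i = 0
    · rw [h1, zero_smul]; exact Submodule.zero_mem _
    · exact Submodule.smul_mem _ _ (hgU i (hu i h1))
  have h0 := h.block_mem p hbar hpo
    (fun w hw h1 => h.XX_mem (fun i hi => hpR i (hw i hi)) h1) (g.restrict hgU')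
    (fun x y => hiso _ _)
  have hfin : ext b p (g.restrict hgU') = g := by
    apply b.ext
    intro i
    by_cases hi : p i
    · rw [ext_apply]
      have h1 : ((g.restrict hgU') (pr b p (b i)) : V) = g (pr b p (b i) : V) := rfl
      rw [h1, pr_basis_of b p hi, sub_self, add_zero]
    · rw [ext_basis_of_not b p _ hi, hfix i hi]
  rwa [hfin] at h0

end PSetup

end Pool.Agent.H91O
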