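import Pool.Agent.H91O.Odd1

/-! Odd rank: the classes which do not contain the self-paired index. -/

set_option linter.unusedSectionVars false

namespace Pool.Agent.H91O

open MvPolynomial Pool.Agent.H91.Mono

variable {K : Type*} [Field K] [CharZero K] {V : Type*} [AddCommGroup V] [Module K V]
variable {ι : Type*} [Fintype ι] [DecidableEq ι]

section Roots

/-- Conditions on a space of matrices, odd orthogonal case. -/
structure PGood (bar : ι → ι) (o : ι) (c : ι → K) (L : Submodule K (Matrix ι ι K)) : Prop where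
  inv : ∀ i, bar (bar i) = i
  fixo : bar o = o
  nofix : ∀ i, i ≠ o → bar i ≠ i
  c0 : ∀ i, c i ≠ 0
  cpos : ∀ i, c (bar i) = c i
  br : ∀ X ∈ L, ∀ Y ∈ L, X * Y - Y * X ∈ L
  tor : ∀ x : ι → K, (∀ i, x i + x (bar i) = 0) → Matrix.diagonal x ∈ L
  skew : ∀ X ∈ L, ∀ i j, i ≠ j → X i j * c i + X (bar j) (bar i) * c j = 0

variable {bar : ι → ι} {o : ι} {c : ι → K} {L : Submodule K (Matrix ι ι K)}

lemma PGood.bar_ne (hL : PGood bar o c L) {i : ι} (hi : i ≠ o) : bar i ≠ o := by
  intro h1
  apply hi
  rw [← hL.inv i, h1, hL.fixo]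

lemma PGood.diag_filter (hL : PGood bar o c L) (x : ι → K) (hx : ∀ i, x i + x (bar i) = 0)
    {X : Matrix ι ι K} (hX : X ∈ L) (p : Polynomial K) :
    Matrix.of (fun k l => p.eval (x k - x l) * X k l) ∈ L := by
  induction p using Polynomial.induction_on' with
  | add p q hp hq =>
    have : Matrix.of (fun k l => (p + q).eval (x k - x l) * X k l) =
        Matrix.of (fun k l => p.eval (x k - x l) * X k l) +
        Matrix.of (fun k l => q.eval (x k - x l) * X k l) := by
      ext k l
      simp [add_mul]
    rw [this]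
    exact L.add_mem hp hq
  | monomial n a =>
    have h1 : ∀ n : ℕ, Matrix.of (fun k l => (x k - x l) ^ n * X k l) ∈ L := by
      intro n
      induction n with
      | zero =>
        have : Matrix.of (fun k l => (x k - x l) ^ 0 * X k l) = X := by
          ext k l; simp
        rw [this]; exact hX
      | succ n ih =>
        have h2 := hL.br _ (hL.tor x hx) _ ih
        have : Matrix.of (fun k l => (x k - x l) ^ (n + 1) * X k l) =
            Matrix.diagonal x * Matrix.of (fun k l => (x k - x l) ^ n * X k l) -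
            Matrix.of (fun k l => (x k - x l) ^ n * X k l) * Matrix.diagonal x := by
          ext k l
          simp only [Matrix.of_apply, Matrix.sub_apply, Matrix.diagonal_mul, Matrix.mul_diagonal]
          ring
        rw [this]
        exact h2
    have : Matrix.of (fun k l => (Polynomial.monomial n a).eval (x k - x l) * X k l) =
        a • Matrix.of (fun k l => (x k - x l) ^ n * X k l) := by
      ext k l
      simp [mul_assoc]
    rw [this]
    exact L.smul_mem _ (h1 n)

lemma PGood.filt [DecidableEq K] (hL : PGood bar o c L) (x : ι → K)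
    (hx : ∀ i, x i + x (bar i) = 0) (d : K)
    {X : Matrix ι ι K} (hX : X ∈ L) :
    Matrix.of (fun k l => if x k - x l = d then X k l else 0) ∈ L := by
  let s : Finset K := insert d (Finset.univ.image fun q : ι × ι => x q.1 - x q.2)
  let g : K → K := fun e => if e = d then 1 else 0
  let p : Polynomial K := Lagrange.interpolate s id g
  have hp : ∀ e ∈ s, p.eval e = g e := by
    intro e he
    have h1 := Lagrange.eval_interpolate_at_node g (s := s) (v := id) (Set.injOn_id _) he
    exact h1
  have h2 := hL.diag_filter x hx hX p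
  have : Matrix.of (fun k l => p.eval (x k - x l) * X k l) =
      Matrix.of (fun k l => if x k - x l = d then X k l else 0) := by
    ext k l
    simp only [Matrix.of_apply]
    rw [hp _ (Finset.mem_insert_of_mem (Finset.mem_image_of_mem
      (fun q : ι × ι => x q.1 - x q.2) (Finset.mem_univ (k, l))))]
    simp [g]
  rwa [this] at h2

/-- no long roots -/
lemma PGood.bar_zero (hL : PGood bar o c L) {X : Matrix ι ι K} (hX : X ∈ L) {i : ι}
    (hi : i ≠ o) : X i (bar i) = 0 := by
  have h1 := hL.skew X hX i (bar i) (hL.nofix i hi).symm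
  rw [hL.inv, hL.cpos] at h1
  have h2 : (2 : K) * (X i (bar i) * c i) = 0 := by linear_combination h1
  rcases mul_eq_zero.1 h2 with h3 | h3
  · exact absurd h3 two_ne_zero
  · rcases mul_eq_zero.1 h3 with h4 | h4
    · exact h4
    · exact absurd h4 (hL.c0 i)

/-- projection to a root space -/
lemma PGood.proj (hL : PGood bar o c L) {X : Matrix ι ι K} (hX : X ∈ L) {i j : ι} (hij : i ≠ j)
    (hio : i ≠ o) (hjo : j ≠ o) (h : X i j ≠ 0) : root bar c i j ∈ L ∧ i ≠ bar j := by
  classical
  have hci := hL.c0 i
  have hcj := hL.c0 j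
  have hinj : ∀ a b, bar a = bar b → a = b := fun a b hab => by
    rw [← hL.inv a, ← hL.inv b, hab]
  have hb : j ≠ bar i := by
    rintro rfl
    exact h (hL.bar_zero hX hio)
  have hji : j ≠ i := fun h => hij h.symm
  have hib : i ≠ bar i := fun h => hL.nofix i hio h.symm
  have hjb : j ≠ bar j := fun h => hL.nofix j hjo h.symm
  have hibj : i ≠ bar j := fun h => hb (by rw [h, hL.inv])
  have hbb : bar i ≠ bar j := fun h => hij (hinj _ _ h)
  refine ⟨?_, hibj⟩
  let x : ι → K := fun k => if k = i then 1 else if k = bar i then -1 else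
    if k = j then 4 else if k = bar j then -4 else 0
  have xi : x i = 1 := by simp [x]
  have xbi : x (bar i) = -1 := by simp [x, hL.nofix i hio]
  have xj : x j = 4 := by simp [x, hji, hb]
  have xbj : x (bar j) = -4 := by
    simp [x, hibj.symm, hbb.symm, hL.nofix j hjo]
  have xo : ∀ k, k ≠ i → k ≠ bar i → k ≠ j → k ≠ bar j → x k = 0 := by
    intro k h1 h2 h3 h4
    simp [x, h1, h2, h3, h4]
  have hx : ∀ k, x k + x (bar k) = 0 := by
    intro k
    by_cases h1 : k = i
    · rw [h1, xi, xbi]; norm_num
    by_cases h2 : k = bar i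
    · rw [h2, hL.inv, xi, xbi]; norm_num
    by_cases h3 : k = j
    · rw [h3, xj, xbj]; norm_num
    by_cases h4 : k = bar j
    · rw [h4, hL.inv, xj, xbj]; norm_num
    rw [xo k h1 h2 h3 h4, xo (bar k), add_zero]
    · exact fun h => h2 (by rw [← h, hL.inv])
    · exact fun h => h1 (hinj _ _ h)
    · exact fun h => h4 (by rw [← h, hL.inv])
    · exact fun h => h3 (hinj _ _ h)
  have h1 := hL.filt x hx (-3) hX
  have h2 : Matrix.of (fun k l => if x k - x l = -3 then X k l else 0) =
      (X i j / c j) • root bar c i j := by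
    have hsk := hL.skew X hX i j hij
    have hval : ∀ k, (k = i ∧ x k = 1) ∨ (k = bar i ∧ x k = -1) ∨ (k = j ∧ x k = 4) ∨
        (k = bar j ∧ x k = -4) ∨ (k ≠ i ∧ k ≠ bar i ∧ k ≠ j ∧ k ≠ bar j ∧ x k = 0) := by
      intro k
      by_cases h1 : k = i
      · left; exact ⟨h1, by rw [h1, xi]⟩
      by_cases h2 : k = bar i
      · right; left; exact ⟨h2, by rw [h2, xbi]⟩
      by_cases h3 : k = j
      · right; right; left; exact ⟨h3, by rw [h3, xj]⟩
      by_cases h4 : k = bar j
      · right; right; right; left; exact ⟨h4, by rw [h4, xbj]⟩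
      right; right; right; right
      exact ⟨h1, h2, h3, h4, xo k h1 h2 h3 h4⟩
    have hiff : ∀ k l, x k - x l = -3 ↔ (k = i ∧ l = j) ∨ (k = bar j ∧ l = bar i) := by
      intro k l
      constructor
      · intro h0
        rcases hval k with ⟨e1, v1⟩ | ⟨e1, v1⟩ | ⟨e1, v1⟩ | ⟨e1, v1⟩ | ⟨_, _, _, _, v1⟩ <;>
        rcases hval l with ⟨e2, v2⟩ | ⟨e2, v2⟩ | ⟨e2, v2⟩ | ⟨e2, v2⟩ | ⟨_, _, _, _, v2⟩ <;>
        rw [v1, v2] at h0 <;> first
          | exact Or.inl ⟨e1, e2⟩
          | exact Or.inr ⟨e1, e2⟩
          | (exfalso; norm_num at h0)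
      · rintro (⟨rfl, rfl⟩ | ⟨rfl, rfl⟩)
        · rw [xi, xj]; norm_num
        · rw [xbi, xbj]; norm_num
    ext k l
    simp only [Matrix.of_apply, Matrix.smul_apply, root_apply, smul_eq_mul]
    by_cases h5 : k = i ∧ l = j
    · obtain ⟨rfl, rfl⟩ := h5
      rw [if_pos ((hiff _ _).2 (Or.inl ⟨rfl, rfl⟩))]
      simp only [and_self, if_true]
      rw [if_neg (fun h => hibj h.1.symm)]
      field_simp
      ring
    · by_cases h6 : k = bar j ∧ l = bar i
      · obtain ⟨rfl, rfl⟩ := h6
        rw [if_pos ((hiff _ _).2 (Or.inr ⟨rfl, rfl⟩))]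
        simp only [and_self, if_true]
        rw [if_neg (fun h => hibj h.1)]
        field_simp
        linear_combination hsk
      · rw [if_neg (fun h => by rcases (hiff _ _).1 h with h7 | h7 <;> [exact h5 h7; exact h6 h7])]
        rw [if_neg (fun h => h5 ⟨h.1.symm, h.2.symm⟩), if_neg (fun h => h6 ⟨h.1.symm, h.2.symm⟩)]
        ring
  rw [h2] at h1
  have hne : X i j / c j ≠ 0 := div_ne_zero h hcj
  have h3 := L.smul_mem (X i j / c j)⁻¹ h1
  rwa [smul_smul, inv_mul_cancel₀ hne, one_smul] at h3

/-- duality of root elements -/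
lemma PGood.root_dual (hL : PGood bar o c L) (i j : ι) :
    root bar c (bar j) (bar i) = - root bar c i j := by
  ext k l
  rw [Matrix.neg_apply, root_apply, root_apply, hL.inv, hL.inv, hL.cpos, hL.cpos]
  ring

/-- the nonzero entry -/
lemma PGood.root_entry (_hL : PGood bar o c L) {i j : ι} (h : i ≠ bar j) :
    root bar c i j i j = c j := by
  rw [root_apply]
  simp only [and_self, if_true]
  rw [if_neg (fun h5 => h h5.1.symm), sub_zero]

/-- an edge of the root graph, away from `o` -/
def PEdge (bar : ι → ι) (o : ι) (c : ι → K) (L : Submodule K (Matrix ι ι K)) (i j : ι) : Prop :=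
  i ≠ o ∧ j ≠ o ∧ i ≠ j ∧ i ≠ bar j ∧ root bar c i j ∈ L

lemma PGood.edge_dual (hL : PGood bar o c L) {i j : ι} (h : PEdge bar o c L i j) :
    PEdge bar o c L (bar j) (bar i) := by
  obtain ⟨ho1, ho2, h1, h2, h3⟩ := h
  refine ⟨hL.bar_ne ho2, hL.bar_ne ho1, fun h5 => h1 ?_, fun h5 => h2 ?_, ?_⟩
  · rw [← hL.inv i, ← h5, hL.inv]
  · rw [hL.inv] at h5; exact h5.symm
  · rw [hL.root_dual]; exact L.neg_mem h3

/-- transitivity -/
lemma PGood.edge_trans (hL : PGood bar o c L) {h i j : ι} (h1 : PEdge bar o c L h i)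
    (h2 : PEdge bar o c L i j) (hhj : h ≠ j) (hhbj : h ≠ bar j) : PEdge bar o c L h j := by
  obtain ⟨hho, hio, hhi, hhbi, h1⟩ := h1
  obtain ⟨_, hjo, hij, hibj, h2⟩ := h2
  have hinj : ∀ a b, bar a = bar b → a = b := fun a b hab => by
    rw [← hL.inv a, ← hL.inv b, hab]
  have hci := hL.c0 i
  have hcj := hL.c0 j
  have hch := hL.c0 h
  have h3 := hL.br _ h1 _ h2
  have h4 : (root bar c h i * root bar c i j - root bar c i j * root bar c h i) h j ≠ 0 := by
    rw [Matrix.sub_apply, Matrix.mul_apply, Matrix.mul_apply]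
    have n1 : bar i ≠ h := fun h5 => hhbi h5.symm
    have n2 : bar h ≠ i := fun h5 => n1 (by rw [← h5, hL.inv])
    have n3 : bar j ≠ i := fun h5 => hibj h5.symm
    have n4 : bar j ≠ h := fun h5 => hhbj h5.symm
    have e1 : ∑ k, root bar c h i h k * root bar c i j k j = c i * c j := by
      rw [Finset.sum_eq_single i]
      · rw [hL.root_entry hhbi, hL.root_entry hibj]
      · intro k _ hk
        rw [root_apply, if_neg (fun h5 => hk h5.2.symm), if_neg (fun h5 => n1 h5.1), sub_zero,
          zero_mul]
      · simp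
    have e2 : ∑ k, root bar c i j h k * root bar c h i k j = 0 := by
      apply Finset.sum_eq_zero
      intro k _
      rw [root_apply, if_neg (fun h5 => hhi h5.1.symm), if_neg (fun h5 => n4 h5.1), sub_zero,
        zero_mul]
    rw [e1, e2, sub_zero]
    exact mul_ne_zero hci hcj
  exact ⟨hho, hjo, hhj, hhbj, (hL.proj h3 hhj hho hjo h4).1⟩

/-- everything within reach of `j` -/
def PNear (bar : ι → ι) (o : ι) (c : ι → K) (L : Submodule K (Matrix ι ι K)) (j k : ι) : Prop :=
  k = j ∨ PEdge bar o c L k j ∨
    (k = bar j ∧ ∃ a, PEdge bar o c L a j ∧ PEdge bar o c L (bar j) a)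

lemma PGood.near_closed (hL : PGood bar o c L) {j k l : ι} (hk : PNear bar o c L j k)
    (hl : PEdge bar o c L l k) : PNear bar o c L j l := by
  rcases hk with rfl | hk | ⟨rfl, a, ha1, ha2⟩
  · exact Or.inr (Or.inl hl)
  · by_cases h1 : l = j
    · exact Or.inl h1
    by_cases h2 : l = bar j
    · right; right
      subst h2
      exact ⟨rfl, k, hk, hl⟩
    · exact Or.inr (Or.inl (hL.edge_trans hl hk h1 h2))
  · have n1 : l ≠ bar j := hl.2.2.1
    have n2 : l ≠ j := by
      have := hl.2.2.2.1
      rwa [hL.inv] at this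
    right; left
    by_cases h1 : l = a
    · rw [h1]; exact ha1
    by_cases h2 : l = bar a
    · rw [h2]
      have := hL.edge_dual ha2
      rwa [hL.inv] at this
    · exact hL.edge_trans (hL.edge_trans hl ha2 h1 h2) ha1 n2 n1

lemma proot_sq {i j : ι} (hinv : ∀ i, bar (bar i) = i) (hi : bar i ≠ i) (hj : bar j ≠ j)
    (hij : i ≠ j) : root bar c i j * root bar c i j = 0 := by
  have hbb : bar i ≠ bar j := fun h1 => hij (by rw [← hinv i, ← hinv j, h1])
  rw [root, sub_mul, mul_sub, mul_sub, Matrix.single_mul_single_of_ne _ _ _ _ hij.symm,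
    Matrix.single_mul_single_of_ne _ _ _ _ hj.symm,
    Matrix.single_mul_single_of_ne _ _ _ _ hi,
    Matrix.single_mul_single_of_ne _ _ _ _ hbb]
  simp

end Roots

variable {ψ : V →ₗ[K] V →ₗ[K] K} {Γ : Subgroup (V ≃ₗ[K] V)} {b : Module.Basis ι K V}
    {bar : ι → ι} {o : ι} {lam : ι → K} {F : V ≃ₗ[K] V}

namespace PSetup

lemma cc_pos' (h : PSetup ψ Γ b bar o lam F) (i : ι) : cc ψ b bar (bar i) = cc ψ b bar i := by
  unfold cc
  rw [h.inv, h.sym]

lemma skew' (h : PSetup ψ Γ b bar o lam F) {x : Module.End K V} (hx : x ∈ lie Γ) {i j : ι}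
    (hij : i ≠ j) : b.repr (x (b j)) i * cc ψ b bar i +
      b.repr (x (b (bar i))) (bar j) * cc ψ b bar j = 0 := by
  have h0 : ψ (b j) (b (bar i)) = 0 := by
    apply h.zero
    intro h5
    exact hij (h.inj h5)
  have h1 := h.lie_form hx h0
  have h2 : ψ (x (b j)) (b (bar i)) = b.repr (x (b j)) i * cc ψ b bar i := by
    rw [h.psi_basis, h.inv]
    rfl
  have h3 : ψ (b j) (x (b (bar i))) = b.repr (x (b (bar i))) (bar j) * cc ψ b bar j := by
    rw [h.sym, h.psi_basis, cc, h.sym (b (bar j))]
  rw [h2, h3] at h1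
  exact h1

theorem pgood (h : PSetup ψ Γ b bar o lam F) : PGood bar o (cc ψ b bar) (LM Γ b) where
  inv := h.inv
  fixo := h.fixo
  nofix := h.nofix
  c0 := h.ne
  cpos := h.cc_pos'
  br := by
    intro X hX Y hY
    rw [mem_LM, map_sub, Matrix.toLin_mul b b b, Matrix.toLin_mul b b b]
    exact lie_bracket hX hY
  tor := by
    intro x hx
    exact h.lie_tor x hx
  skew := by
    intro X hX i j hij
    have h1 := h.skew' (x := Matrix.toLin b b X) hX hij
    have h2 : ∀ k l, b.repr (Matrix.toLin b b X (b l)) k = X k l := by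
      intro k l
      rw [← LinearMap.toMatrix_apply, LinearMap.toMatrix_toLin]
    rw [h2, h2] at h1
    exact h1

/-- reachability outside the class of `o` is described by edges -/
lemma near_of_rch' (h : PSetup ψ Γ b bar o lam F) (hmn : ∀ i, OMn Γ b i) {i j : ι}
    (hij : Rch Γ b i j) (hj : ¬ Rch Γ b j o) :
    PNear bar o (cc ψ b bar) (LM Γ b) j i := by
  have hno : ∀ k, Rch Γ b k j → k ≠ o := by
    rintro k hk rfl
    exact hj (hmn j k hk)
  have hstab : Stab Γ (co b (fun k => PNear bar o (cc ψ b bar) (LM Γ b) j k ∧ Rch Γ b k j)) := by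
    intro x hx w hw k hk
    rw [← b.sum_repr w, map_sum, map_sum, Finsupp.finsetSum_apply] at hk
    obtain ⟨l, _, hl⟩ := Finset.exists_ne_zero_of_sum_ne_zero hk
    rw [map_smul, map_smul, Finsupp.smul_apply, smul_eq_mul] at hl
    obtain ⟨h1, h1'⟩ := hw l (left_ne_zero_of_mul hl)
    have h2 := right_ne_zero_of_mul hl
    have hkl : Rch Γ b k l := by
      intro W hW hlW
      exact h.stab_coord hW (hW x hx _ hlW) h2
    have hkj : Rch Γ b k j := Rch_trans hkl h1'
    refine ⟨?_, hkj⟩
    by_cases hkl' : k = l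
    · rw [hkl']; exact h1
    have hX : LinearMap.toMatrix b b x ∈ LM Γ b := by
      rw [mem_LM, Matrix.toLin_toMatrix]
      exact hx
    have h3 := h.pgood.proj hX hkl' (hno k hkj) (hno l h1') (by
      rw [LinearMap.toMatrix_apply]
      exact h2)
    exact h.pgood.near_closed h1 ⟨hno k hkj, hno l h1', hkl', h3.2, h3.1⟩
  have h1 := hij _ hstab (basis_mem_co.2 ⟨Or.inl rfl, Rch_refl j⟩)
  exact (basis_mem_co.1 h1).1

lemma edge_of_rch' (h : PSetup ψ Γ b bar o lam F) (hmn : ∀ i, OMn Γ b i) {i j : ι}
    (hij : Rch Γ b i j) (hj : ¬ Rch Γ b j o) (h1 : i ≠ j)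
    (h2 : i ≠ bar j) : root bar (cc ψ b bar) i j ∈ LM Γ b := by
  rcases h.near_of_rch' hmn hij hj with h3 | h3 | ⟨h3, _⟩
  · exact absurd h3 h1
  · exact h3.2.2.2.2
  · exact absurd h3 h2

end PSetup

section Extend

variable (p : ι → Prop) [DecidablePred p]

/-- extension of a matrix by the identity -/
def mext (N : Matrix {i // p i} {i // p i} K) : Matrix ι ι K :=
  (Matrix.fromBlocks N 0 0 (1 : Matrix {i // ¬ p i} {i // ¬ p i} K)).submatrix
    (Equiv.sumCompl p).symm (Equiv.sumCompl p).symm

lemma mext_mul (N N' : Matrix {i // p i} {i // p i} K) :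
    mext p (N * N') = mext p N * mext p N' := by
  unfold mext
  rw [Matrix.submatrix_mul_equiv, Matrix.fromBlocks_multiply]
  simp

lemma mext_pos (N : Matrix {i // p i} {i // p i} K) {i j : ι} (hi : p i) (hj : p j) :
    mext p N i j = N ⟨i, hi⟩ ⟨j, hj⟩ := by
  unfold mext
  rw [Matrix.submatrix_apply, Equiv.sumCompl_symm_apply_of_pos hi,
    Equiv.sumCompl_symm_apply_of_pos hj, Matrix.fromBlocks_apply₁₁]

lemma mext_left (N : Matrix {i // p i} {i // p i} K) {i j : ι} (hi : ¬ p i) :
    mext p N i j = (1 : Matrix ι ι K) i j := by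
  unfold mext
  rw [Matrix.submatrix_apply, Equiv.sumCompl_symm_apply_of_neg hi]
  by_cases hj : p j
  · rw [Equiv.sumCompl_symm_apply_of_pos hj, Matrix.fromBlocks_apply₂₁, Matrix.zero_apply,
      Matrix.one_apply_ne]
    rintro rfl
    exact hi hj
  · rw [Equiv.sumCompl_symm_apply_of_neg hj, Matrix.fromBlocks_apply₂₂, Matrix.one_apply,
      Matrix.one_apply]
    simp only [Subtype.mk.injEq]

lemma mext_right (N : Matrix {i // p i} {i // p i} K) {i j : ι} (hj : ¬ p j) :
    mext p N i j = (1 : Matrix ι ι K) i j := by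
  unfold mext
  rw [Matrix.submatrix_apply, Equiv.sumCompl_symm_apply_of_neg hj]
  by_cases hi : p i
  · rw [Equiv.sumCompl_symm_apply_of_pos hi, Matrix.fromBlocks_apply₁₂, Matrix.zero_apply,
      Matrix.one_apply_ne]
    rintro rfl
    exact hj hi
  · rw [Equiv.sumCompl_symm_apply_of_neg hi, Matrix.fromBlocks_apply₂₂, Matrix.one_apply,
      Matrix.one_apply]
    simp only [Subtype.mk.injEq]

lemma mext_eq {M : Matrix ι ι K} {N : Matrix {i // p i} {i // p i} K}
    (h1 : ∀ i j, N i j = M i.1 j.1) (h2 : ∀ i j, ¬ (p i ∧ p j) → M i j = (1 : Matrix ι ι K) i j) :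
    mext p N = M := by
  ext i j
  by_cases hi : p i
  · by_cases hj : p j
    · rw [mext_pos p N hi hj, h1]
    · rw [mext_right p N hj, h2 i j (fun h => hj h.2)]
  · rw [mext_left p N hi, h2 i j (fun h => hi h.1)]

end Extend

namespace PSetup

/-- **The classes which do not contain `o`.** -/
theorem rest [IsAlgClosed K] (h : PSetup ψ Γ b bar o lam F) (hmn : ∀ i, OMn Γ b i)
    (hdual : ∀ i j, Rch Γ b i j → Rch Γ b (bar j) (bar i)) (g : Module.End K V)
    (hiso : ∀ u v, ψ (g u) (g v) = ψ u v) (hs : Supp (Rch Γ b) (LinearMap.toMatrix b b g))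
    (hfix : ∀ i, Rch Γ b i o → g (b i) = b i) : InCl Γ (g * g) := by
  classical
  let p : ι → Prop := fun i => ¬ Rch Γ b i o
  have hpbar : ∀ i, p i → p (bar i) := by
    intro i hi h1
    have h2 := hdual _ _ h1
    rw [h.fixo, h.inv] at h2
    exact hi (hmn i o h2)
  have hpo : ∀ i, p i → i ≠ o := by
    rintro i hi rfl
    exact hi (Rch_refl i)
  let bar' : {i // p i} → {i // p i} := fun i => ⟨bar i.1, hpbar i.1 i.2⟩
  let c' : {i // p i} → K := fun i => cc ψ b bar i.1
  let E' : {i // p i} → {i // p i} → Prop := fun i j => Rch Γ b i.1 j.1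
  have hfr : OFrame bar' c' :=
    ⟨fun i => Subtype.ext (h.inv i.1), fun i h1 => h.nofix i.1 (hpo i.1 i.2) (congrArg Subtype.val h1),
      fun i => h.ne i.1, fun i => h.cc_pos' i.1⟩
  have hE : EqRel bar' E' :=
    ⟨fun i => Rch_refl i.1, fun i j h1 => hmn j.1 i.1 h1, fun i j k h1 h2 => Rch_trans h1 h2,
      fun i j h1 => hmn (bar i.1) (bar j.1) (hdual _ _ h1)⟩
  let M : Matrix ι ι K := LinearMap.toMatrix b b g
  let M' : Matrix {i // p i} {i // p i} K := M.submatrix Subtype.val Subtype.val
  -- no entries between the two parts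
  have hcross : ∀ k j, p j → ¬ p k → M k j = 0 := by
    intro k j hj hk
    by_contra h1
    have h2 : Rch Γ b k j := hs k j h1
    have h3 : Rch Γ b k o := by
      by_contra h4
      exact hk h4
    exact hj (Rch_trans (hmn j k h2) h3)
  have hcol : ∀ k j, ¬ p j → M k j = (1 : Matrix ι ι K) k j := by
    intro k j hj
    have h1 : Rch Γ b j o := by
      by_contra h4
      exact hj h4
    show LinearMap.toMatrix b b g k j = _
    rw [LinearMap.toMatrix_apply, hfix j h1, b.repr_self, Finsupp.single_apply, Matrix.one_apply]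
    simp only [eq_comm]
  have hMext : mext p M' = M := by
    apply mext_eq p (M := M) (N := M') (fun i j => rfl)
    intro i j hij
    by_cases hj : p j
    · have hi : ¬ p i := fun h1 => hij ⟨h1, hj⟩
      rw [hcross i j hj hi, Matrix.one_apply_ne]
      rintro rfl
      exact hi hj
    · exact hcol i j hj
  have hsupp : Supp E' M' := fun i j hij => hs i.1 j.1 hij
  have hpres : Pres bar' c' M' := by
    intro u v
    -- extension of vectors by zero
    let ex : ({i // p i} → K) → V := fun u => b.equivFun.symm (fun i => if hi : p i then u ⟨i, hi⟩ else 0)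
    have hex : ∀ u i, b.repr (ex u) i = if hi : p i then u ⟨i, hi⟩ else 0 := by
      intro u i
      have := congrFun (b.equivFun.apply_symm_apply (fun i => if hi : p i then u ⟨i, hi⟩ else 0)) i
      exact this
    have hgex : ∀ u i, b.repr (g (ex u)) i = if hi : p i then (M'.mulVec u) ⟨i, hi⟩ else 0 := by
      intro u i
      have h1 : b.repr (g (ex u)) i = ∑ j, M i j * b.repr (ex u) j := by
        have h2 := congrFun (LinearMap.toMatrix_mulVec_repr b b g (ex u)) i
        rw [← h2]
        rfl
      rw [h1, ← Fintype.sum_subtype_add_sum_subtype p (fun j => M i j * b.repr (ex u) j)]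
      have h3 : ∑ j : {x // ¬ p x}, M i j.1 * b.repr (ex u) j.1 = 0 := by
        apply Finset.sum_eq_zero
        intro j _
        rw [hex, dif_neg j.2, mul_zero]
      rw [h3, add_zero]
      by_cases hi : p i
      · rw [dif_pos hi]
        apply Finset.sum_congr rfl
        intro j _
        rw [hex, dif_pos j.2]
        rfl
      · rw [dif_neg hi]
        apply Finset.sum_eq_zero
        intro j _
        rw [hcross i j.1 j.2 hi, zero_mul]
    have hbil : ∀ (a a' : V) (u u' : {i // p i} → K),
        (∀ i, b.repr a i = if hi : p i then u ⟨i, hi⟩ else 0) →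
        (∀ i, b.repr a' i = if hi : p i then u' ⟨i, hi⟩ else 0) →
        ψ a a' = bil bar' c' u u' := by
      intro a a' u u' ha ha'
      rw [h.psi_bil, bil, bil, ← Fintype.sum_subtype_add_sum_subtype p
        (fun k => cc ψ b bar k * b.repr a k * b.repr a' (bar k))]
      have h3 : ∑ k : {x // ¬ p x}, cc ψ b bar k.1 * b.repr a k.1 * b.repr a' (bar k.1) = 0 := by
        apply Finset.sum_eq_zero
        intro k _
        rw [ha, dif_neg k.2, mul_zero, zero_mul]
      rw [h3, add_zero]
      apply Finset.sum_congr rfl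
      intro k _
      rw [ha, ha', dif_pos k.2, dif_pos (hpbar k.1 k.2)]
    rw [← hbil (g (ex u)) (g (ex v)) _ _ (hgex u) (hgex v), hiso, hbil (ex u) (ex v) u v (hex u) (hex v)]
  have hsq : Supp E' (M' * M') := by
    intro i j hij
    rw [Matrix.mul_apply] at hij
    obtain ⟨k, _, hk⟩ := Finset.exists_ne_zero_of_sum_ne_zero hij
    exact Rch_trans (hsupp i k (left_ne_zero_of_mul hk)) (hsupp k j (right_ne_zero_of_mul hk))
  have hgen : M' * M' ∈ EN bar' c' E' ∅ :=
    egen hfr hE _ (hpres.mul hpres) hsq (bdet_sq hfr hE hpres hsupp)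
  -- elements of `EN` extend to elements of the closure
  have hcl : ∀ N : Matrix {i // p i} {i // p i} K, N ∈ EN bar' c' E' ∅ →
      InCl Γ (Matrix.toLin b b (mext p N)) := by
    intro N hN
    induction hN using Submonoid.closure_induction with
    | mem N hN =>
      cases hN with
      | unip i j s hij hibj hE' hi hj =>
        have hij' : i.1 ≠ j.1 := fun h1 => hij (Subtype.ext h1)
        have hibj' : i.1 ≠ bar j.1 := fun h1 => hibj (Subtype.ext h1)
        have h1 := h.edge_of_rch' hmn (i := i.1) (j := j.1) hE' j.2 hij' hibj'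
        have hsq : Matrix.toLin b b (root bar (cc ψ b bar) i.1 j.1) *
            Matrix.toLin b b (root bar (cc ψ b bar) i.1 j.1) = 0 := by
          have h2 := Matrix.toLin_mul b b b (root bar (cc ψ b bar) i.1 j.1)
            (root bar (cc ψ b bar) i.1 j.1)
          rw [proot_sq h.inv (h.nofix _ (hpo _ i.2)) (h.nofix _ (hpo _ j.2)) hij', map_zero] at h2
          exact h2.symm
        have h3 := inCl_exp (x := Matrix.toLin b b (root bar (cc ψ b bar) i.1 j.1)) h1
          (by rw [hsq, zero_mul]) s
        rw [hsq, smul_zero, add_zero] at h3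
        have h4 : mext p (1 + s • root bar' c' i j) = 1 + s • root bar (cc ψ b bar) i.1 j.1 := by
          apply mext_eq
          · intro k l
            rw [Matrix.add_apply, Matrix.add_apply, Matrix.smul_apply, Matrix.smul_apply,
              root_apply, root_apply, Matrix.one_apply, Matrix.one_apply]
            simp only [Subtype.ext_iff, bar', c']
          · intro k l hkl
            rw [Matrix.add_apply, Matrix.smul_apply, root_apply, if_neg, if_neg, sub_zero,
              smul_zero, add_zero]
            · rintro ⟨h5, h6⟩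
              exact hkl ⟨h5 ▸ hpbar j.1 j.2, h6 ▸ hpbar i.1 i.2⟩
            · rintro ⟨h5, h6⟩
              exact hkl ⟨h5 ▸ i.2, h6 ▸ j.2⟩
        have h5 : Matrix.toLin b b (1 + s • root bar (cc ψ b bar) i.1 j.1) =
            1 + s • Matrix.toLin b b (root bar (cc ψ b bar) i.1 j.1) := by
          rw [map_add, map_smul, Matrix.toLin_one]
          rfl
        rw [h4, h5]
        exact h3
      | tor t ht hA =>
        let t' : ι → K := fun i => if hi : p i then t ⟨i, hi⟩ else 1
        have hpo' : ¬ p o := fun h1 => h1 (Rch_refl o)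
        have hto : t' o = 1 := dif_neg hpo'
        have h4 : mext p (Matrix.diagonal t) = Matrix.diagonal t' := by
          apply mext_eq
          · intro k l
            rw [Matrix.diagonal_apply, Matrix.diagonal_apply]
            simp only [Subtype.ext_iff]
            by_cases h5 : k.1 = l.1
            · rw [if_pos h5, if_pos h5]
              simp only [t']
              rw [dif_pos k.2]
            · rw [if_neg h5, if_neg h5]
          · intro k l hkl
            rw [Matrix.diagonal_apply, Matrix.one_apply]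
            by_cases h5 : k = l
            · rw [if_pos h5, if_pos h5]
              have h6 : ¬ p k := fun h7 => hkl ⟨h7, h5 ▸ h7⟩
              simp only [t']
              rw [dif_neg h6]
            · rw [if_neg h5, if_neg h5]
        rw [h4]
        apply h.cl_tor t'
        · rw [hto]; exact one_ne_zero
        · intro i
          rw [hto, one_pow]
          by_cases hi : p i
          · simp only [t']
            rw [dif_pos hi, dif_pos (hpbar i hi)]
            exact ht ⟨i, hi⟩
          · have hbi : ¬ p (bar i) := by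
              intro h1
              apply hi
              have := hpbar _ h1
              rwa [h.inv] at this
            simp only [t']
            rw [dif_neg hi, dif_neg hbi, one_mul]
    | one =>
      have h4 : mext p (1 : Matrix {i // p i} {i // p i} K) = 1 := by
        apply mext_eq
        · intro k l
          rw [Matrix.one_apply, Matrix.one_apply]
          simp only [Subtype.ext_iff]
        · intro k l _
          rfl
      rw [h4, Matrix.toLin_one]
      exact inCl_one
    | mul x y _ _ hx hy =>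
      rw [mext_mul, Matrix.toLin_mul b b b]
      exact inCl_mul hx hy
  have h2 := hcl _ hgen
  rw [mext_mul, hMext, Matrix.toLin_mul b b b, Matrix.toLin_toMatrix] at h2
  exact h2

end PSetup

end Pool.Agent.H91O
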