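import Pool.Agent.H91O.Odd4

/-! Odd rank: Galois symmetries, and the irreducible case. -/

set_option linter.unusedSectionVars false

namespace Pool.Agent.H91O

open MvPolynomial Pool.Agent.H91.Mono
open scoped Classical

variable {K : Type*} [Field K] [CharZero K] {V : Type*} [AddCommGroup V] [Module K V]
variable {ι : Type*} [Fintype ι] [DecidableEq ι]
variable {ψ : V →ₗ[K] V →ₗ[K] K} {Γ : Subgroup (V ≃ₗ[K] V)} {b : Module.Basis ι K V}
    {bar : ι → ι} {o : ι} {lam : ι → K} {F : V ≃ₗ[K] V}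

namespace PSetup

/-- semilinear symmetries permute the eigenlines -/
lemma exists_perm (h : PSetup ψ Γ b bar o lam F) (σ : K ≃+* K) (T : V ≃+ V)
    (hT : ∀ (c : K) v, T (c • v) = σ c • T v)
    (hTΓ : ∀ γ ∈ Γ, ∀ v, T ((γ : V ≃ₗ[K] V) v) = (γ : V ≃ₗ[K] V) (T v)) :
    ∃ (s : ι → ι) (a : ι → K), Function.Injective s ∧ (∀ i, a i ≠ 0) ∧
      (∀ i, T (b i) = a i • b (s i)) ∧ ∀ i, lam (s i) = σ (lam i) := by
  have h1 : ∀ i, F (T (b i)) = σ (lam i) • T (b i) := by
    intro i
    rw [← hTΓ F h.mem, h.eig, hT]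
  have hF : ∀ (v : V) (k : ι), b.repr (F v) k = lam k * b.repr v k := by
    intro v k
    have h2 : (F : Module.End K V) = dg b lam := by
      apply b.ext
      intro i
      rw [dg_apply]
      exact h.eig i
    have h3 : F v = dg b lam v := by rw [← h2]; rfl
    rw [h3, dg_repr]
  have h2 : ∀ i, ∃ k, b.repr (T (b i)) k ≠ 0 := by
    intro i
    have h5 : b.repr (T (b i)) ≠ 0 := by
      intro h6
      have h7 := b.repr.map_eq_zero_iff.1 h6
      exact b.ne_zero i ((map_eq_zero_iff T T.injective).1 h7)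
    obtain ⟨m, hm⟩ := Finsupp.ne_iff.1 h5
    exact ⟨m, hm⟩
  choose s hs using h2
  have h3 : ∀ i k, b.repr (T (b i)) k ≠ 0 → lam k = σ (lam i) := by
    intro i k hk
    have h4 := hF (T (b i)) k
    rw [h1, map_smul, Finsupp.smul_apply, smul_eq_mul] at h4
    exact (mul_right_cancel₀ hk h4).symm
  have hlam : ∀ i, lam (s i) = σ (lam i) := fun i => h3 i _ (hs i)
  refine ⟨s, fun i => b.repr (T (b i)) (s i), ?_, hs, ?_, hlam⟩
  · intro i j hij
    apply h.lam_inj
    apply σ.injective
    rw [← hlam, ← hlam, hij]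
  · intro i
    conv_lhs => rw [← b.sum_repr (T (b i))]
    rw [Finset.sum_eq_single (s i)]
    · intro k _ hk
      by_contra hcon
      have h4 : b.repr (T (b i)) k ≠ 0 := fun h5 => hcon (by rw [h5, zero_smul])
      apply hk
      apply h.lam_inj
      rw [h3 i k h4, hlam]
    · simp

lemma perm_R (h : PSetup ψ Γ b bar o lam F) {σ : K ≃+* K} (hσ : SemiSym Γ σ) :
    ∃ s : ι → ι, Function.Bijective s ∧ (∀ i, lam (s i) = σ (lam i)) ∧
      ∀ i j, Rch Γ b (s i) (s j) ↔ Rch Γ b i j := by
  obtain ⟨T, hT, hΓ⟩ := hσ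
  obtain ⟨s, a, hs, ha, hb, hl⟩ := h.exists_perm σ T hT hΓ
  obtain ⟨T', hT', hΓ'⟩ := SemiSym.symm ⟨T, hT, hΓ⟩
  obtain ⟨s', a', hs', ha', hb', hl'⟩ := h.exists_perm σ.symm T' hT' hΓ'
  have hss : ∀ i, s' (s i) = i := by
    intro i
    apply h.lam_inj
    rw [hl', hl, σ.symm_apply_apply]
  refine ⟨s, Finite.injective_iff_bijective.1 hs, hl, ?_⟩
  intro i j
  constructor
  · intro h1
    have h2 := Rch_gal hT' hΓ' ha' hb' h1
    rwa [hss, hss] at h2
  · intro h1
    exact Rch_gal hT hΓ ha hb h1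

end PSetup

/-- dimension of a coordinate subspace -/
lemma finrank_co (b : Module.Basis ι K V) (p : ι → Prop) :
    Module.finrank K (co b p) = (Finset.univ.filter p).card := by
  have h1 : co b p = Submodule.span K (Set.range (fun k : {k // p k} => b k)) := by
    apply le_antisymm
    · apply co_le
      intro i hi
      exact Submodule.subset_span ⟨⟨i, hi⟩, rfl⟩
    · rw [Submodule.span_le]
      rintro _ ⟨k, rfl⟩
      exact basis_mem_co.2 k.2
  have hli : LinearIndependent K (fun k : {k // p k} => b k) :=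
    b.linearIndependent.comp _ Subtype.val_injective
  rw [h1, finrank_span_eq_card hli, Fintype.card_subtype]

/-- a set stable under an involution without fixed points in it has even cardinality -/
lemma even_card {ι : Type*} (s : Finset ι) (bar : ι → ι) (h1 : ∀ i ∈ s, bar i ∈ s)
    (h2 : ∀ i, bar (bar i) = i) (h3 : ∀ i ∈ s, bar i ≠ i) : Even s.card := by
  have h4 : ((s.card : ℕ) : ZMod 2) = 0 := by
    rw [Finset.card_eq_sum_ones, Nat.cast_sum]
    apply Finset.sum_involution (fun i _ => bar i)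
    · intro i _
      decide
    · intro i hi _
      exact h3 i hi
    · intro i hi
      exact h1 i hi
    · intro i _
      exact h2 i
  exact (ZMod.natCast_eq_zero_iff_even).1 h4

namespace PSetup

/-- the block of `o` is stable under the group -/
lemma block_stable (h : PSetup ψ Γ b bar o lam F) (hmn : OMn Γ b o) (γ : V ≃ₗ[K] V)
    (hγ : γ ∈ Γ) : co b (fun i => Rch Γ b i o) ≤
      (co b (fun i => Rch Γ b i o)).map (γ : V →ₗ[K] V) := by
  set U := co b (fun i => Rch Γ b i o) with hU
  have hfd : FiniteDimensional K V := Module.Basis.finiteDimensional_of_finite b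
  have hUst : Stab Γ U := h.stab_co (fun _ _ h1 h2 => Rch_trans h1 h2)
  have hst := stab_map hUst hγ
  suffices hbo : b o ∈ U.map (γ : V →ₗ[K] V) from co_le fun i hi => hi _ hst hbo
  by_contra hno
  let p : ι → Prop := fun k => b k ∈ U.map (γ : V →ₗ[K] V)
  have hUp : U.map (γ : V →ₗ[K] V) = co b p := by
    apply le_antisymm
    · intro w hw k hk
      exact h.stab_coord hst hw hk
    · exact co_le fun i hi => hi
  obtain ⟨μ, hμ⟩ := h.sim γ hγ
  -- nondegeneracy of the image
  have hndU : ∀ u ∈ U, (∀ w ∈ U, ψ u w = 0) → u = 0 := by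
    intro u hu hz
    apply b.repr.injective
    ext i
    rw [map_zero, Finsupp.zero_apply]
    by_contra hne
    have hi : Rch Γ b i o := hu i hne
    have h1 := hz (b (bar i)) (basis_mem_co.2 (h.class_bar hmn hi))
    rw [h.psi_basis, h.inv] at h1
    rcases mul_eq_zero.1 h1 with h2 | h2
    · exact hne h2
    · exact h.ne i h2
  have hpb : ∀ k, p k → p (bar k) := by
    intro k hk
    by_contra hbk
    have h1 : ∀ w ∈ U.map (γ : V →ₗ[K] V), ψ (b k) w = 0 := by
      intro w hw
      rw [hUp] at hw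
      rw [← b.sum_repr w, map_sum]
      apply Finset.sum_eq_zero
      intro j _
      rw [map_smul]
      by_cases h2 : b.repr w j = 0
      · rw [h2, zero_smul]
      · rw [h.zero k j, smul_zero]
        rintro rfl
        exact hbk (hw _ h2)
    obtain ⟨u, hu, huk⟩ := Submodule.mem_map.1 hk
    have h2 : u = 0 := by
      apply hndU u hu
      intro w hw
      have h3 := h1 (γ w) (Submodule.mem_map_of_mem (f := (γ : V →ₗ[K] V)) hw)
      have h4 : ψ (γ u) (γ w) = 0 := by
        have h5 : γ u = b k := huk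
        rw [h5]
        exact h3
      rw [hμ] at h4
      rcases mul_eq_zero.1 h4 with h5 | h5
      · exfalso
        have h6 := hμ (γ⁻¹ (b o)) (γ⁻¹ (b o))
        rw [h5, zero_mul] at h6
        have h7 : γ (γ⁻¹ (b o)) = b o := γ.apply_symm_apply _
        rw [h7] at h6
        exact h.c0 h6
      · exact h5
    rw [h2, map_zero] at huk
    exact b.ne_zero k huk.symm
  have hev : Even (Finset.univ.filter p).card := by
    apply even_card _ bar
    · intro i hi
      rw [Finset.mem_filter] at hi ⊢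
      exact ⟨Finset.mem_univ _, hpb i hi.2⟩
    · exact h.inv
    · intro i hi
      rw [Finset.mem_filter] at hi
      apply h.nofix
      rintro rfl
      exact hno hi.2
  have hodd : ¬ Even (Finset.univ.filter (fun i => Rch Γ b i o)).card := by
    have h1 : Even ((Finset.univ.filter (fun i => Rch Γ b i o)).erase o).card := by
      apply even_card _ bar
      · intro i hi
        rw [Finset.mem_erase, Finset.mem_filter] at hi ⊢
        exact ⟨fun h2 => hi.1 (h.bar_eq_o.1 h2), Finset.mem_univ _, h.class_bar hmn hi.2.2⟩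
      · exact h.inv
      · intro i hi
        rw [Finset.mem_erase] at hi
        exact h.nofix i hi.1
    have h2 : o ∈ Finset.univ.filter (fun i => Rch Γ b i o) := by
      rw [Finset.mem_filter]
      exact ⟨Finset.mem_univ _, Rch_refl o⟩
    have h3 := Finset.card_erase_add_one h2
    rw [← h3]
    exact fun h4 => (Nat.even_add_one.1 h4) h1
  have hdim : Module.finrank K (U.map (γ : V →ₗ[K] V)) = Module.finrank K U :=
    LinearEquiv.finrank_map_eq γ U
  rw [hUp, hU, finrank_co, finrank_co] at hdim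
  rw [hdim] at hev
  exact hodd hev

/-- in the irreducible case there is only one block -/
lemma all_rch (h : PSetup ψ Γ b bar o lam F) (hmn : OMn Γ b o)
    (hirr : ∀ W : Submodule K V, (∀ γ ∈ Γ, ∀ w ∈ W, (γ : V ≃ₗ[K] V) w ∈ W) → W = ⊥ ∨ W = ⊤)
    (i : ι) : Rch Γ b i o := by
  rcases hirr (co b (fun i => Rch Γ b i o)) (by
    intro γ hγ w hw
    have h1 := h.block_stable hmn _ (Γ.inv_mem hγ) hw
    obtain ⟨u, hu, huw⟩ := Submodule.mem_map.1 h1
    have h2 : γ w = u := by
      rw [← huw]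
      exact γ.apply_symm_apply u
    rw [h2]
    exact hu) with h1 | h1
  · exfalso
    have h2 : b o ∈ co b (fun i => Rch Γ b i o) := basis_mem_co.2 (Rch_refl o)
    rw [h1, Submodule.mem_bot] at h2
    exact b.ne_zero o h2
  · have h2 : b i ∈ co b (fun i => Rch Γ b i o) := by rw [h1]; trivial
    exact (basis_mem_co (b := b) (p := fun i => Rch Γ b i o)).1 h2

/-- scaling a similitude to an isometry -/
lemma exists_scale (h : PSetup ψ Γ b bar o lam F) [IsAlgClosed K] (g : V ≃ₗ[K] V)
    (hsim : ∃ μ : K, ∀ u v, ψ (g u) (g v) = μ * ψ u v) :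
    ∃ ν : K, ν ≠ 0 ∧ (∀ u v, ψ ((ν⁻¹ • (g : Module.End K V)) u) ((ν⁻¹ • (g : Module.End K V)) v) =
      ψ u v) ∧ InCl Γ (dg b (fun _ => ν)) := by
  obtain ⟨μ, hμ⟩ := hsim
  have hμ0 : μ ≠ 0 := by
    rintro rfl
    apply h.c0
    have h1 := hμ (g.symm (b o)) (g.symm (b o))
    rw [g.apply_symm_apply, zero_mul] at h1
    exact h1
  obtain ⟨ν, hν⟩ := IsAlgClosed.exists_pow_nat_eq μ (n := 2) (by norm_num)
  have hν0 : ν ≠ 0 := by
    rintro rfl
    apply hμ0
    rw [← hν]
    norm_num
  refine ⟨ν, hν0, ?_, h.cl_tor _ hν0 (fun i => (sq ν).symm)⟩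
  intro u v
  show ψ (ν⁻¹ • g u) (ν⁻¹ • g v) = _
  rw [map_smul, map_smul, LinearMap.smul_apply, hμ, ← hν]
  simp only [smul_eq_mul]
  field_simp

/-- **Irreducible case.** -/
theorem full (h : PSetup ψ Γ b bar o lam F) [IsAlgClosed K] (hmn : OMn Γ b o)
    (hirr : ∀ W : Submodule K V, (∀ γ ∈ Γ, ∀ w ∈ W, (γ : V ≃ₗ[K] V) w ∈ W) → W = ⊥ ∨ W = ⊤)
    (g : V ≃ₗ[K] V) (hsim : ∃ μ : K, ∀ u v, ψ (g u) (g v) = μ * ψ u v) :
    InCl Γ (g : Module.End K V) := by
  obtain ⟨ν, hν0, hiso, hcl⟩ := h.exists_scale g hsim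
  have h1 := h.block (fun _ => True) (fun _ _ => trivial) trivial
    (fun i _ => h.all_rch hmn hirr i) _ hiso
    (fun i _ k _ => trivial) (fun i hi => absurd trivial hi)
  have h2 := inCl_mul hcl h1
  have h3 : dg b (fun _ => ν) * (ν⁻¹ • (g : Module.End K V)) = (g : Module.End K V) := by
    have h6 : dg b (fun _ : ι => ν) = ν • (1 : Module.End K V) := by
      apply b.ext
      intro i
      rw [dg_apply]
      rfl
    rw [h6]
    ext v
    show ν • (ν⁻¹ • g v) = g v
    rw [smul_smul, mul_inv_cancel₀ hν0, one_smul]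
  rwa [h3] at h2

end PSetup

end Pool.Agent.H91O
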