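import Pool.Agent.H91O.Odd5
import Pool.Agent.H91O.Odd6

/-! Odd rank: squares of block similitudes. -/

set_option linter.unusedSectionVars false

namespace Pool.Agent.H91O

open MvPolynomial Pool.Agent.H91.Mono
open scoped Classical

variable {K : Type*} [Field K] [CharZero K] {V : Type*} [AddCommGroup V] [Module K V]
variable {ι : Type*} [Fintype ι] [DecidableEq ι]
variable {ψ : V →ₗ[K] V →ₗ[K] K} {Γ : Subgroup (V ≃ₗ[K] V)} {b : Module.Basis ι K V}
    {bar : ι → ι} {o : ι} {lam : ι → K} {F : V ≃ₗ[K] V}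

/-- `g` on the basis vectors satisfying `p`, the identity on the others -/
noncomputable def part (b : Module.Basis ι K V) (p : ι → Prop) (g : Module.End K V) :
    Module.End K V := b.constr K (fun i => if p i then g (b i) else b i)

lemma part_of (b : Module.Basis ι K V) (p : ι → Prop) (g : Module.End K V) {i : ι} (hi : p i) :
    part b p g (b i) = g (b i) := by
  rw [part, b.constr_basis, if_pos hi]

lemma part_of_not (b : Module.Basis ι K V) (p : ι → Prop) (g : Module.End K V) {i : ι}
    (hi : ¬ p i) : part b p g (b i) = b i := by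
  rw [part, b.constr_basis, if_neg hi]

lemma part_eq_self (b : Module.Basis ι K V) (p : ι → Prop) (g : Module.End K V) {v : V}
    (hv : v ∈ co b (fun i => ¬ p i)) : part b p g v = v := by
  conv_lhs => rw [← b.sum_repr v]
  conv_rhs => rw [← b.sum_repr v]
  rw [map_sum]
  apply Finset.sum_congr rfl
  intro i _
  rw [map_smul]
  by_cases h1 : b.repr v i = 0
  · rw [h1, zero_smul, zero_smul]
  · rw [part_of_not b p g (hv i h1)]

lemma part_eq (b : Module.Basis ι K V) (p : ι → Prop) (g : Module.End K V) {v : V}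
    (hv : v ∈ co b p) : part b p g v = g v := by
  conv_lhs => rw [← b.sum_repr v]
  conv_rhs => rw [← b.sum_repr v]
  rw [map_sum, map_sum]
  apply Finset.sum_congr rfl
  intro i _
  rw [map_smul, map_smul]
  by_cases h1 : b.repr v i = 0
  · rw [h1, zero_smul, zero_smul]
  · rw [part_of b p g (hv i h1)]

namespace PSetup

lemma co_perp (h : PSetup ψ Γ b bar o lam F) (p : ι → Prop) (hp : ∀ i, p i → p (bar i)) {u v : V}
    (hu : u ∈ co b p) (hv : v ∈ co b (fun i => ¬ p i)) : ψ u v = 0 := by
  rw [← b.sum_repr v, map_sum]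
  apply Finset.sum_eq_zero
  intro j _
  rw [map_smul]
  by_cases h1 : b.repr v j = 0
  · rw [h1, zero_smul]
  · rw [h.psi_basis]
    have h2 : b.repr u (bar j) = 0 := by
      by_contra h3
      have h4 := hp _ (hu _ h3)
      rw [h.inv] at h4
      exact hv j h1 h4
    rw [h2, zero_mul, smul_zero]

/-- **Main theorem in coordinates, odd rank.** -/
theorem pdense (h : PSetup ψ Γ b bar o lam F) [IsAlgClosed K] (hmn : ∀ i, OMn Γ b i)
    (g : V ≃ₗ[K] V) (hsim : ∃ μ : K, ∀ u v, ψ (g u) (g v) = μ * ψ u v)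
    (hg : Supp (Rch Γ b) (LinearMap.toMatrix b b (g : Module.End K V))) :
    InCl Γ ((g : Module.End K V) * (g : Module.End K V)) := by
  obtain ⟨ν, hν0, hiso, hcl⟩ := h.exists_scale g hsim
  obtain ⟨g', hg'⟩ : ∃ g' : Module.End K V, g' = ν⁻¹ • (g : Module.End K V) := ⟨_, rfl⟩
  rw [← hg'] at hiso
  let p : ι → Prop := fun i => Rch Γ b i o
  have hpb : ∀ i, p i → p (bar i) := fun i hi => h.class_bar (hmn o) hi
  have hnpb : ∀ i, ¬ p i → ¬ p (bar i) := fun i hi h1 => hi (by
    have := hpb _ h1
    rwa [h.inv] at this)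
  -- supports
  have hsup : ∀ i k, b.repr (g' (b i)) k ≠ 0 → Rch Γ b k i := by
    intro i k hk
    apply hg k i
    rw [LinearMap.toMatrix_apply]
    intro h0
    apply hk
    rw [hg', LinearMap.smul_apply, map_smul, Finsupp.smul_apply, h0, smul_zero]
  have hgp : ∀ i, p i → g' (b i) ∈ co b p := fun i hi k hk => Rch_trans (hsup i k hk) hi
  have hgn : ∀ i, ¬ p i → g' (b i) ∈ co b (fun i => ¬ p i) := by
    intro i hi k hk hpk
    exact hi (Rch_trans (hmn i k (hsup i k hk)) hpk)
  have hnn : ∀ {v : V}, v ∈ co b p → v ∈ co b (fun i => ¬ ¬ p i) := by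
    intro v hv k hk h1
    exact h1 (hv k hk)
  obtain ⟨A, hA⟩ : ∃ A : Module.End K V, A = part b p g' := ⟨_, rfl⟩
  obtain ⟨B, hB⟩ : ∃ B : Module.End K V, B = part b (fun i => ¬ p i) g' := ⟨_, rfl⟩
  have hAp : ∀ i, p i → A (b i) = g' (b i) := fun i hi => by rw [hA, part_of b p g' hi]
  have hAn : ∀ i, ¬ p i → A (b i) = b i := fun i hi => by rw [hA, part_of_not b p g' hi]
  have hBp : ∀ i, p i → B (b i) = b i := fun i hi => by
    rw [hB, part_of_not b _ g' (fun h1 => h1 hi)]
  have hBn : ∀ i, ¬ p i → B (b i) = g' (b i) := fun i hi => by rw [hB, part_of b _ g' hi]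
  -- isometries
  have hbasis : ∀ C : Module.End K V, (∀ i j, ψ (C (b i)) (C (b j)) = ψ (b i) (b j)) →
      ∀ u v, ψ (C u) (C v) = ψ u v := by
    intro C hC u v
    have h1 : ψ.compl₁₂ C C = ψ := b.ext fun i => b.ext fun j => hC i j
    exact congrArg (fun φ : V →ₗ[K] V →ₗ[K] K => φ u v) h1
  have hAiso : ∀ u v, ψ (A u) (A v) = ψ u v := by
    apply hbasis
    intro i j
    by_cases hi : p i
    · by_cases hj : p j
      · rw [hAp i hi, hAp j hj, hiso]
      · rw [hAp i hi, hAn j hj, h.co_perp p hpb (hgp i hi) (basis_mem_co.2 hj),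
          h.co_perp p hpb (basis_mem_co.2 hi) (basis_mem_co.2 hj)]
    · by_cases hj : p j
      · rw [hAn i hi, hAp j hj, h.sym, h.co_perp p hpb (hgp j hj) (basis_mem_co.2 hi),
          h.sym, h.co_perp p hpb (basis_mem_co.2 hj) (basis_mem_co.2 hi)]
      · rw [hAn i hi, hAn j hj]
  have hBiso : ∀ u v, ψ (B u) (B v) = ψ u v := by
    apply hbasis
    intro i j
    by_cases hi : p i
    · by_cases hj : p j
      · rw [hBp i hi, hBp j hj]
      · rw [hBp i hi, hBn j hj, h.co_perp p hpb (basis_mem_co.2 hi) (hgn j hj),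
          h.co_perp p hpb (basis_mem_co.2 hi) (basis_mem_co.2 hj)]
    · by_cases hj : p j
      · rw [hBn i hi, hBp j hj, h.sym, h.co_perp p hpb (basis_mem_co.2 hj) (hgn i hi),
          h.sym, h.co_perp p hpb (basis_mem_co.2 hj) (basis_mem_co.2 hi)]
      · rw [hBn i hi, hBn j hj, hiso]
  have hAcl : InCl Γ A := h.block p hpb (Rch_refl o) (fun i hi => hi) A hAiso
    (fun i hi => by rw [hAp i hi]; exact hgp i hi) hAn
  have hBsupp : Supp (Rch Γ b) (LinearMap.toMatrix b b B) := by
    intro k l hkl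
    rw [LinearMap.toMatrix_apply] at hkl
    by_cases hl : p l
    · rw [hBp l hl, b.repr_self, Finsupp.single_apply] at hkl
      by_cases h1 : l = k
      · rw [h1]; exact Rch_refl k
      · rw [if_neg h1] at hkl; exact absurd rfl hkl
    · rw [hBn l hl] at hkl
      exact hsup l k hkl
  have hBcl : InCl Γ (B * B) := h.rest hmn (fun i j h1 => h.Rch_dual h1) B hBiso hBsupp hBp
  -- the square
  have hsq : g' * g' = A * A * (B * B) := by
    apply b.ext
    intro i
    simp only [Module.End.mul_apply]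
    by_cases hi : p i
    · have e1 : g' (b i) ∈ co b p := hgp i hi
      rw [hBp i hi, hBp i hi, hAp i hi, hA, part_eq b p g' e1]
    · have e1 : g' (b i) ∈ co b (fun i => ¬ p i) := hgn i hi
      have e2 : g' (g' (b i)) ∈ co b (fun i => ¬ p i) := by
        have : ∀ v ∈ co b (fun i => ¬ p i), g' v ∈ co b (fun i => ¬ p i) := by
          intro v hv
          rw [← b.sum_repr v, map_sum]
          apply Submodule.sum_mem
          intro j _
          rw [map_smul]
          by_cases h1 : b.repr v j = 0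
          · rw [h1, zero_smul]; exact Submodule.zero_mem _
          · exact Submodule.smul_mem _ _ (hgn j (hv j h1))
        exact this _ e1
      rw [hBn i hi, hB, part_eq b _ g' e1, hA, part_eq_self b p g' e2, part_eq_self b p g' e2]
  have h1 := inCl_mul (inCl_mul hcl hcl) (inCl_mul (inCl_mul hAcl hAcl) hBcl)
  rw [← hsq] at h1
  have h2 : dg b (fun _ => ν) * dg b (fun _ => ν) * (g' * g') =
      (g : Module.End K V) * (g : Module.End K V) := by
    have h6 : dg b (fun _ : ι => ν) = ν • (1 : Module.End K V) := by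
      apply b.ext
      intro i
      rw [dg_apply]
      rfl
    rw [h6, hg']
    ext v
    show ν • ν • (ν⁻¹ • g (ν⁻¹ • g v)) = g (g v)
    rw [map_smul, smul_smul, smul_smul, smul_smul]
    have : ν * ν * ν⁻¹ * ν⁻¹ = 1 := by field_simp
    rw [this, one_smul]
  rwa [h2] at h1

end PSetup

end Pool.Agent.H91O
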