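import Pool.Agent.H91O.Odd6
import Pool.Agent.H91.Mono.Ort4

/-! Odd rank: from the characteristic polynomial `(X - c) P` to the standing hypotheses. -/

set_option linter.unusedSectionVars false

namespace Pool.Agent.H91O

open Polynomial TensorProduct Pool.Agent.H93Tate Pool.Agent.H91.Mono

section

variable {p n : ℕ} [hp : Fact p.Prime] {P : ℚ[X]}

/-- the extra eigenvalue is not a root of `P` -/
lemma jE_ne_c (hP : Irreducible P) (hdeg : 2 < P.natDegree)
    (hweil : ∀ z : ℂ, aeval z P = 0 → ‖z‖ ^ 2 = (p : ℝ) ^ n)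
    {K : Type*} [Field K] [CharZero K] {c : K} (hc : c ^ 2 = (p : K) ^ n)
    (jE : P.SplittingField →ₐ[ℚ] K) (x : Rt P) : jE x.1 ≠ c := by
  intro h
  apply inv_ne hP hdeg hweil x.2
  have hx0 : x.1 ≠ 0 := root_ne_zero hweil x.2
  rw [div_eq_iff hx0]
  apply jE.toRingHom.injective
  show jE _ = jE _
  rw [map_pow, map_natCast, map_mul, h, ← hc, sq]

lemma exists_eigenbasis_odd (hP : Irreducible P) (hdeg : 2 < P.natDegree)
    (hweil : ∀ z : ℂ, aeval z P = 0 → ‖z‖ ^ 2 = (p : ℝ) ^ n)
    {K : Type*} [Field K] [CharZero K] {V : Type*}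
    [AddCommGroup V] [Module K V] [FiniteDimensional K V] (F : Module.End K V)
    {c : K} (hc : c ^ 2 = (p : K) ^ n)
    (hF : F.charpoly = (X - C c) * P.map (algebraMap ℚ K)) (jE : P.SplittingField →ₐ[ℚ] K) :
    ∃ b : Module.Basis (Option (Rt P)) K V,
      ∀ i, F (b i) = (i.elim c (fun x : Rt P => jE x.1) : K) • b i := by
  classical
  have h1 : ∀ i : Option (Rt P), ∃ v, F.HasEigenvector (i.elim c (fun x : Rt P => jE x.1) : K) v := by
    intro i
    have h2 : F.HasEigenvalue (i.elim c (fun x : Rt P => jE x.1) : K) := by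
      rw [Module.End.hasEigenvalue_iff_isRoot_charpoly, hF, IsRoot.def, eval_mul, mul_eq_zero]
      cases i with
      | none => left; simp
      | some x =>
        right
        show eval (jE x.1) _ = 0
        rw [eval_map_algebraMap, aeval_algHom_apply, rt_root, map_zero]
    exact h2.exists_hasEigenvector
  choose v hv using h1
  have hinj : Function.Injective (fun i : Option (Rt P) => (i.elim c (fun x : Rt P => jE x.1) : K)) := by
    intro i j hij
    cases i with
    | none =>
      cases j with
      | none => rfl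
      | some y => exact absurd (hij : c = jE y.1).symm (jE_ne_c hP hdeg hweil hc jE y)
    | some x =>
      cases j with
      | none => exact absurd (hij : jE x.1 = c) (jE_ne_c hP hdeg hweil hc jE x)
      | some y => exact congrArg some (Subtype.ext (jE.toRingHom.injective hij))
  have hli : LinearIndependent K v := Module.End.eigenvectors_linearIndependent' F _ hinj v hv
  have hmP : P.map (algebraMap ℚ K) ≠ 0 := by
    rw [Ne, Polynomial.map_eq_zero]
    exact hP.ne_zero
  have hcard : Fintype.card (Option (Rt P)) = Module.finrank K V := by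
    rw [Fintype.card_option, card_rt hP, ← LinearMap.charpoly_natDegree F, hF,
      natDegree_mul (X_sub_C_ne_zero c) hmP, natDegree_X_sub_C, natDegree_map, add_comm]
  refine ⟨basisOfLinearIndependentOfCardEqFinrank hli hcard, ?_⟩
  intro x
  rw [coe_basisOfLinearIndependentOfCardEqFinrank]
  exact (hv x).apply_eq_smul

lemma trivRel_odd (hn : 0 < n) (hP : Irreducible P)
    (hweil : ∀ z : ℂ, aeval z P = 0 → ‖z‖ ^ 2 = (p : ℝ) ^ n) (hmr : MaxRank ((p : ℂ) ^ n) P)
    {K : Type*} [Field K] [CharZero K] {c : K} (hc : c ^ 2 = (p : K) ^ n)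
    (jE : P.SplittingField →ₐ[ℚ] K) :
    TrivRel (Option.map (inv hweil)) (fun i : Option (Rt P) =>
      (i.elim c (fun x : Rt P => jE x.1) : K)) := by
  classical
  obtain ⟨x₀⟩ : Nonempty (Rt P) := by
    rw [← Fintype.card_pos_iff, card_rt hP]
    exact hP.natDegree_pos
  have hx0 : ∀ x : Rt P, jE x.1 ≠ 0 := fun x => by
    rw [Ne, map_eq_zero]; exact root_ne_zero hweil x.2
  have hpair : jE x₀.1 * jE (inv hweil x₀).1 = c ^ 2 := by
    rw [hc]
    show jE x₀.1 * jE ((p : P.SplittingField) ^ n / x₀.1) = _
    rw [map_div₀, map_pow, map_natCast, mul_div_cancel₀ _ (hx0 x₀)]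
  intro m m' hrel
  rw [Fintype.prod_option, Fintype.prod_option] at hrel
  simp only [Option.elim] at hrel
  -- `d x` = multiplicity of `x` in `x₀ · x̄₀`
  let d : Rt P → ℕ := fun x => (if x = x₀ then 1 else 0) + (if x = inv hweil x₀ then 1 else 0)
  have hd : ∏ x : Rt P, jE x.1 ^ d x = c ^ 2 := by
    rw [← hpair]
    simp only [d, pow_add, Finset.prod_mul_distrib]
    congr 1
    · rw [Finset.prod_eq_single x₀]
      · simp
      · intro y _ hy
        simp [hy]
      · simp
    · rw [Finset.prod_eq_single (inv hweil x₀)]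
      · simp
      · intro y _ hy
        simp [hy]
      · simp
  have hdinv : ∀ x : Rt P, d (inv hweil x) = d x := by
    intro x
    have e1 : inv hweil x = x₀ ↔ x = inv hweil x₀ := by
      constructor
      · rintro rfl
        rw [inv_inv']
      · rintro rfl
        rw [inv_inv']
    have e2 : inv hweil x = inv hweil x₀ ↔ x = x₀ := by
      constructor
      · intro h
        rw [← inv_inv' hweil x, h, inv_inv']
      · rintro rfl
        rfl
    simp only [d, e1, e2]
    omega
  have key : ∀ k : Option (Rt P) → ℕ, (c ^ k none * ∏ x : Rt P, jE x.1 ^ k (some x)) ^ 2 =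
      ∏ x : Rt P, jE x.1 ^ (k none * d x + 2 * k (some x)) := by
    intro k
    have e1 : ∀ x : Rt P, jE x.1 ^ (k none * d x + 2 * k (some x)) =
        (jE x.1 ^ d x) ^ k none * (jE x.1 ^ k (some x)) ^ 2 := by
      intro x
      rw [pow_add, ← pow_mul, ← pow_mul, mul_comm (d x), mul_comm (k (some x))]
    rw [Finset.prod_congr rfl fun x _ => e1 x, Finset.prod_mul_distrib, Finset.prod_pow,
      Finset.prod_pow, hd, mul_pow, ← pow_mul, ← pow_mul, mul_comm 2 (k none)]
  have hrel2 : ∏ x : Rt P, jE x.1 ^ (m none * d x + 2 * m (some x)) =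
      ∏ x : Rt P, jE x.1 ^ (m' none * d x + 2 * m' (some x)) := by
    rw [← key, ← key]
    exact congrArg (· ^ 2) hrel
  obtain ⟨h1, h2⟩ := trivRel_of hn hP hweil hmr jE _ _ hrel2
  have hsd : ∑ x : Rt P, d x = 2 := by
    simp [d, Finset.sum_add_distrib]
  constructor
  · intro i
    cases i with
    | none => exact add_comm _ _ |>.trans (add_comm _ _)
    | some x =>
      show m (some x) + m' (some (inv hweil x)) = m (some (inv hweil x)) + m' (some x)
      have := h1 x
      simp only [hdinv] at this
      omega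
  · rw [Fintype.sum_option, Fintype.sum_option]
    rw [Finset.sum_add_distrib, Finset.sum_add_distrib, ← Finset.mul_sum, ← Finset.mul_sum,
      ← Finset.mul_sum, ← Finset.mul_sum, hsd] at h2
    omega

/-- the standing hypotheses hold -/
theorem psetup_of (hn : 0 < n) (hP : Irreducible P) (hdeg : 2 < P.natDegree)
    (hweil : ∀ z : ℂ, aeval z P = 0 → ‖z‖ ^ 2 = (p : ℝ) ^ n) (hmr : MaxRank ((p : ℂ) ^ n) P)
    {K : Type*} [Field K] [CharZero K] {V : Type*}
    [AddCommGroup V] [Module K V] [FiniteDimensional K V] (ψ : V →ₗ[K] V →ₗ[K] K)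
    (hsym : ∀ u v, ψ u v = ψ v u) (hnd : ∀ v, (∀ w, ψ v w = 0) → v = 0)
    (Γ : Subgroup (V ≃ₗ[K] V))
    (hsim : ∀ γ ∈ Γ, ∃ μ : K, ∀ u v, ψ ((γ : V ≃ₗ[K] V) u) ((γ : V ≃ₗ[K] V) v) = μ * ψ u v)
    (F : V ≃ₗ[K] V) (hF : F ∈ Γ) (c : K) (hc : c ^ 2 = (p : K) ^ n)
    (hchar : LinearMap.charpoly (F : V →ₗ[K] V) = (X - C c) * P.map (algebraMap ℚ K))
    (hmult : ∀ u v, ψ (F u) (F v) = (p : K) ^ n * ψ u v)
    (jE : P.SplittingField →ₐ[ℚ] K) :
    ∃ b : Module.Basis (Option (Rt P)) K V, PSetup ψ Γ b (Option.map (inv hweil)) none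
      (fun x => x.elim c (fun x : Rt P => jE x.1)) F := by
  classical
  obtain ⟨b, hb⟩ := exists_eigenbasis_odd hP hdeg hweil (F : V →ₗ[K] V) hc hchar jE
  have hlne : ∀ x : Rt P, jE x.1 ≠ 0 := fun x => by
    rw [Ne, map_eq_zero]; exact root_ne_zero hweil x.2
  have hcne : c ≠ 0 := by
    rintro rfl
    have h1 : (p : K) ^ n ≠ 0 := pow_ne_zero _ (by exact_mod_cast hp.out.ne_zero)
    apply h1
    rw [← hc]
    norm_num
  -- `λ i * λ j = q` only for `j = bar i`
  have hlam : ∀ i j : Option (Rt P), (i.elim c (fun x : Rt P => jE x.1) : K) *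
      (j.elim c (fun x : Rt P => jE x.1) : K) = (p : K) ^ n → j = Option.map (inv hweil) i := by
    intro i j hij
    cases i with
    | none =>
      cases j with
      | none => rfl
      | some y =>
        exfalso
        apply jE_ne_c hP hdeg hweil hc jE y
        have h1 : c * jE y.1 = (p : K) ^ n := hij
        rw [← hc, sq] at h1
        exact mul_left_cancel₀ hcne h1
    | some x =>
      cases j with
      | none =>
        exfalso
        apply jE_ne_c hP hdeg hweil hc jE x
        have h1 : jE x.1 * c = (p : K) ^ n := hij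
        rw [← hc, sq] at h1
        exact mul_right_cancel₀ hcne h1
      | some y =>
        have h1 : jE x.1 * jE y.1 = (p : K) ^ n := hij
        rw [Option.map_some]
        congr 1
        apply Subtype.ext
        apply jE.toRingHom.injective
        show jE y.1 = jE ((p : P.SplittingField) ^ n / x.1)
        rw [map_div₀, map_pow, map_natCast, eq_div_iff (hlne x)]
        linear_combination h1
  have hzero : ∀ i j : Option (Rt P), j ≠ Option.map (inv hweil) i → ψ (b i) (b j) = 0 := by
    intro i j hij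
    have h1 := hmult (b i) (b j)
    have e1 : F (b i) = (i.elim c (fun x : Rt P => jE x.1) : K) • b i := hb i
    have e2 : F (b j) = (j.elim c (fun x : Rt P => jE x.1) : K) • b j := hb j
    rw [e1, e2, map_smul, map_smul, LinearMap.smul_apply, smul_eq_mul, smul_eq_mul] at h1
    have h2 : ((i.elim c (fun x : Rt P => jE x.1) : K) *
        (j.elim c (fun x : Rt P => jE x.1) : K) - (p : K) ^ n) * ψ (b i) (b j) = 0 := by
      linear_combination h1
    rcases mul_eq_zero.1 h2 with h3 | h3
    · exact absurd (hlam i j (sub_eq_zero.1 h3)) hij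
    · exact h3
  have hne' : ∀ i : Option (Rt P), ψ (b i) (b (Option.map (inv hweil) i)) ≠ 0 := by
    intro i h0
    apply b.ne_zero i
    apply hnd
    intro w
    rw [← b.sum_repr w, map_sum]
    apply Finset.sum_eq_zero
    intro j _
    rw [map_smul]
    by_cases hj : j = Option.map (inv hweil) i
    · rw [hj, h0, smul_zero]
    · rw [hzero i j hj, smul_zero]
  exact ⟨b,
    { inv := by
        intro i
        cases i with
        | none => rfl
        | some x =>
          rw [Option.map_some, Option.map_some, inv_inv']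
      fixo := rfl
      nofix := by
        intro i hi h
        cases i with
        | none => exact hi rfl
        | some x =>
          rw [Option.map_some] at h
          exact inv_ne hP hdeg hweil x.2 (congrArg Subtype.val (Option.some_injective _ h))
      sym := hsym
      zero := hzero
      ne := hne'
      sim := hsim
      mem := hF
      eig := hb
      triv := trivRel_odd hn hP hweil hmr hc jE }⟩

/-- the rank is odd, so the form cannot be alternating -/
theorem no_alt (hP : Irreducible P) (hdeg : 2 < P.natDegree)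
    (hweil : ∀ z : ℂ, aeval z P = 0 → ‖z‖ ^ 2 = (p : ℝ) ^ n)
    {K : Type*} [Field K] [CharZero K] {V : Type*}
    [AddCommGroup V] [Module K V] [FiniteDimensional K V] (ψ : V →ₗ[K] V →ₗ[K] K)
    (halt : ∀ v, ψ v v = 0) (hnd : ∀ v, (∀ w, ψ v w = 0) → v = 0)
    (F : V ≃ₗ[K] V) (c : K) (hc : c ^ 2 = (p : K) ^ n)
    (hchar : LinearMap.charpoly (F : V →ₗ[K] V) = (X - C c) * P.map (algebraMap ℚ K))
    (hmult : ∀ u v, ψ (F u) (F v) = (p : K) ^ n * ψ u v)
    (jE : P.SplittingField →ₐ[ℚ] K) : False := by
  classical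
  obtain ⟨b, hb⟩ := exists_eigenbasis_odd hP hdeg hweil (F : V →ₗ[K] V) hc hchar jE
  have hcne : c ≠ 0 := by
    rintro rfl
    have h1 : (p : K) ^ n ≠ 0 := pow_ne_zero _ (by exact_mod_cast hp.out.ne_zero)
    apply h1
    rw [← hc]
    norm_num
  apply b.ne_zero none
  apply hnd
  intro w
  rw [← b.sum_repr w, map_sum]
  apply Finset.sum_eq_zero
  intro j _
  rw [map_smul]
  cases j with
  | none => rw [halt, smul_zero]
  | some y =>
    have h1 := hmult (b none) (b (some y))
    have e1 : F (b none) = c • b none := hb none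
    have e2 : F (b (some y)) = jE y.1 • b (some y) := hb (some y)
    rw [e1, e2, map_smul, map_smul, LinearMap.smul_apply, smul_eq_mul, smul_eq_mul] at h1
    have h2 : (c * jE y.1 - (p : K) ^ n) * ψ (b none) (b (some y)) = 0 := by
      linear_combination h1
    rcases mul_eq_zero.1 h2 with h3 | h3
    · exfalso
      apply jE_ne_c hP hdeg hweil hc jE y
      have h4 : c * jE y.1 = (p : K) ^ n := sub_eq_zero.1 h3
      rw [← hc, sq] at h4
      exact mul_left_cancel₀ hcne h4
    · rw [h3, smul_zero]

/-- the degree of `P` is even -/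
lemma card_even (hP : Irreducible P) (hdeg : 2 < P.natDegree)
    (hweil : ∀ z : ℂ, aeval z P = 0 → ‖z‖ ^ 2 = (p : ℝ) ^ n) : Even P.natDegree := by
  classical
  rw [← card_rt hP, ← Finset.card_univ]
  exact even_card Finset.univ (inv hweil) (fun i _ => Finset.mem_univ _)
    (fun i => inv_inv' hweil i) (fun i _ h => inv_ne hP hdeg hweil i.2 (congrArg Subtype.val h))

end

end Pool.Agent.H91O
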