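import Pool.Agent.H91O.Sq1

/-! One Frobenius with distinct eigenvalues and maximal angle rank in a semisimple representation
of any rank. -/

set_option linter.unusedSectionVars false

namespace Pool.Agent.H91O

open Polynomial TensorProduct Pool.Agent.H93Tate Pool.Agent.H91.Mono

variable {p n : ℕ} [hp : Fact p.Prime] {P : ℚ[X]}

/-- an eigenvector for the linear factor -/
lemma exists_eig_lin {E : Type*} [Field E] {V : Type*} [AddCommGroup V] [Module E V]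
    [FiniteDimensional E V] (F : V ≃ₗ[E] V) (c : E) (R : E[X])
    (hchar : LinearMap.charpoly (F : V →ₗ[E] V) = (X - C c) * R) :
    ∃ v : V, v ≠ 0 ∧ F v = c • v := by
  have h2 : Module.End.HasEigenvalue (F : Module.End E V) c := by
    rw [Module.End.hasEigenvalue_iff_isRoot_charpoly, hchar, IsRoot.def, eval_mul, eval_sub,
      eval_X, eval_C, sub_self, zero_mul]
  obtain ⟨v, hv⟩ := h2.exists_hasEigenvector
  exact ⟨v, hv.2, hv.apply_eq_smul⟩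

/-- **Semisimple case, both parities.** -/
theorem ssFrobSq (hn : 0 < n) (hP : Squarefree P)
    (hweil : ∀ z : ℂ, aeval z P = 0 → ‖z‖ ^ 2 = (p : ℝ) ^ n)
    (hreal : ∀ z : ℂ, aeval z P = 0 → z ^ 2 ≠ (p : ℂ) ^ n) (hmr : MaxRank ((p : ℂ) ^ n) P)
    {E : Type*} [Field E] [CharZero E] (K : Type*) [Field K] [Algebra E K] [IsAlgClosure E K]
    {V : Type*} [AddCommGroup V] [Module E V] [FiniteDimensional E V] (ψ : V →ₗ[E] V →ₗ[E] E)
    (hψ : (∀ v, ψ v v = 0) ∨ (∀ u v, ψ u v = ψ v u)) (hnd : ∀ v, (∀ w, ψ v w = 0) → v = 0)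
    (Γ : Subgroup (V ≃ₗ[E] V))
    (hsim : ∀ γ ∈ Γ, ∃ μ : E, ∀ u v, ψ ((γ : V ≃ₗ[E] V) u) ((γ : V ≃ₗ[E] V) v) = μ * ψ u v)
    (hss : ∀ W : Submodule E V, (∀ γ ∈ Γ, ∀ w ∈ W, (γ : V ≃ₗ[E] V) w ∈ W) →
      ∃ W' : Submodule E V, (∀ γ ∈ Γ, ∀ w ∈ W', (γ : V ≃ₗ[E] V) w ∈ W') ∧ IsCompl W W')
    (F : V ≃ₗ[E] V) (hF : F ∈ Γ)
    (hchar : LinearMap.charpoly (F : V →ₗ[E] V) = P.map (algebraMap ℚ E))
    (hmult : ∀ u v, ψ (F u) (F v) = (p : E) ^ n * ψ u v)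
    (g : V ≃ₗ[E] V) (hg : ∃ μ : E, ∀ u v, ψ (g u) (g v) = μ * ψ u v)
    (hcomm : ∀ c : Module.End E V, Comm Γ c → ∀ v, c (g v) = g (c v)) :
    InCl Γ (((g * g : V ≃ₗ[E] V)) : Module.End E V) ∧
      ((∀ v, ψ v v = 0) → InCl Γ (g : Module.End E V)) := by
  classical
  rcases Nat.eq_zero_or_pos P.natDegree with hd | hpos
  · -- the trivial space
    have h3 := LinearMap.charpoly_natDegree (F : V →ₗ[E] V)
    rw [hchar, natDegree_map, hd] at h3
    have h4 : Subsingleton V := Module.finrank_zero_iff.1 h3.symm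
    have h5 : ∀ x : Module.End E V, InCl Γ x := by
      intro x
      have h6 : x = 1 := LinearMap.ext fun v => Subsingleton.elim _ _
      rw [h6]
      exact inCl_one
    exact ⟨h5 _, fun _ => h5 _⟩
  have hac : IsAlgClosed K := IsAlgClosure.isAlgClosed E
  have halg : Algebra.IsAlgebraic E K := IsAlgClosure.isAlgebraic
  have hcz : CharZero K := charZero_of_injective_algebraMap (algebraMap E K).injective
  let jE : P.SplittingField →ₐ[ℚ] K := IsAlgClosed.lift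
  have hmapP : (P.map (algebraMap ℚ E)).map (algebraMap E K) = P.map (algebraMap ℚ K) := by
    rw [Polynomial.map_map]
    congr 1
    exact Subsingleton.elim _ _
  have hsimK : ∀ γ ∈ Γ.map (bcE K), ∃ μ : K, ∀ u v, fK K ψ ((γ : K ⊗[E] V ≃ₗ[K] K ⊗[E] V) u)
      ((γ : K ⊗[E] V ≃ₗ[K] K ⊗[E] V) v) = μ * fK K ψ u v := by
    rintro _ ⟨γ, hγ, rfl⟩
    obtain ⟨μ, hμ⟩ := hsim γ hγ
    exact ⟨algebraMap E K μ, fK_sim γ μ hμ⟩
  have hcharK : LinearMap.charpoly ((bcE K F : K ⊗[E] V ≃ₗ[K] K ⊗[E] V) :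
      K ⊗[E] V →ₗ[K] K ⊗[E] V) = P.map (algebraMap ℚ K) := by
    rw [bcE_coe, LinearMap.charpoly_baseChange, hchar, hmapP]
  have hmultK : ∀ u v, fK K ψ (bcE K F u) (bcE K F v) = (p : K) ^ n * fK K ψ u v := by
    intro u v
    rw [fK_sim F _ hmult, map_pow, map_natCast]
  obtain ⟨μ, hμ⟩ := hg
  have hgg : ((bcE K (g * g) : K ⊗[E] V ≃ₗ[K] K ⊗[E] V) : Module.End K (K ⊗[E] V)) =
      ((bcE K g : K ⊗[E] V ≃ₗ[K] K ⊗[E] V) : Module.End K (K ⊗[E] V)) *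
      ((bcE K g : K ⊗[E] V ≃ₗ[K] K ⊗[E] V) : Module.End K (K ⊗[E] V)) := by
    rw [map_mul]
    rfl
  have hnz : Nonempty (Rt P) := by
    rw [← Fintype.card_pos_iff, Fft.card_rt_sq hP]
    exact hpos
  have haltK : (∀ v, ψ v v = 0) →
      InCl (Γ.map (bcE K)) ((bcE K g : K ⊗[E] V ≃ₗ[K] K ⊗[E] V) : Module.End K (K ⊗[E] V)) := by
    intro halt
    have hsw : ∀ u v, ψ v u = - ψ u v := fun u v => psi_swap halt u v
    obtain ⟨b, hset⟩ := Fft.setup_sq hn hP hpos hweil hreal hmr (fK K ψ) (fK_alt halt)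
      (fK_nondeg hsw hnd) (Γ.map (bcE K)) hsimK (bcE K F) ⟨F, hF, rfl⟩ hcharK hmultK jE
    have hmn : ∀ i, Mn (fK K ψ) (Γ.map (bcE K)) b (inv hweil) i := by
      intro i
      apply mn_of_omn hset
      refine omn_of_ss hF b _ (lam_inj hset) hset.eig hss
        (fun W hW w hw k hk => stab_coord hset hW hw hk) ?_ i
      intro σ
      obtain ⟨s, hs, hl, hR⟩ := perm_R hset (semiSym_bc K σ Γ)
      refine ⟨s, hs, hl, ?_⟩
      intro i j
      rw [← rr_iff_rch hset, ← rr_iff_rch hset]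
      exact hR i j
    obtain ⟨x⟩ := hnz
    have hnt : Nontrivial (K ⊗[E] V) := ⟨⟨b x, 0, b.ne_zero x⟩⟩
    exact dense hset hmn (bcE K g) ⟨algebraMap E K μ, fK_sim g μ hμ⟩
      (supp_of_comm hset hmn _ (fun c hc => comm_descend K Γ g hcomm c hc))
  refine ⟨?_, fun halt => inCl_descend K Γ g (haltK halt)⟩
  apply inCl_descend K
  rw [hgg]
  rcases hψ with halt | hsym
  · exact inCl_mul (haltK halt) (haltK halt)
  · obtain ⟨b, hset⟩ := osetup_sq hn hP hpos hweil hreal hmr (fK K ψ) (fK_sym hsym)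
      (fK_nondeg_sym hsym hnd) (Γ.map (bcE K)) hsimK (bcE K F) ⟨F, hF, rfl⟩ hcharK hmultK jE
    have hmn : ∀ i, OMn (Γ.map (bcE K)) b i := by
      intro i
      refine omn_of_ss hF b _ hset.lam_inj hset.eig hss
        (fun W hW w hw k hk => hset.stab_coord hW hw hk) ?_ i
      intro σ
      exact hset.perm_R (semiSym_bc K σ Γ)
    obtain ⟨x⟩ := hnz
    have hnt : Nontrivial (K ⊗[E] V) := ⟨⟨b x, 0, b.ne_zero x⟩⟩
    exact edense hset hmn (bcE K g) ⟨algebraMap E K μ, fK_sim g μ hμ⟩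
      (hset.supp_of_comm hmn _ (fun c hc => comm_descend K Γ g hcomm c hc))

/-- **Semisimple case, odd rank.** -/
theorem ssOddSq (hn : 0 < n) (hP : Squarefree P)
    (hweil : ∀ z : ℂ, aeval z P = 0 → ‖z‖ ^ 2 = (p : ℝ) ^ n)
    (hreal : ∀ z : ℂ, aeval z P = 0 → z ^ 2 ≠ (p : ℂ) ^ n) (hmr : MaxRank ((p : ℂ) ^ n) P)
    {E : Type*} [Field E] [CharZero E] (K : Type*) [Field K] [Algebra E K] [IsAlgClosure E K]
    {V : Type*} [AddCommGroup V] [Module E V] [FiniteDimensional E V] (ψ : V →ₗ[E] V →ₗ[E] E)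
    (hsym : ∀ u v, ψ u v = ψ v u) (hnd : ∀ v, (∀ w, ψ v w = 0) → v = 0)
    (Γ : Subgroup (V ≃ₗ[E] V))
    (hsim : ∀ γ ∈ Γ, ∃ μ : E, ∀ u v, ψ ((γ : V ≃ₗ[E] V) u) ((γ : V ≃ₗ[E] V) v) = μ * ψ u v)
    (hss : ∀ W : Submodule E V, (∀ γ ∈ Γ, ∀ w ∈ W, (γ : V ≃ₗ[E] V) w ∈ W) →
      ∃ W' : Submodule E V, (∀ γ ∈ Γ, ∀ w ∈ W', (γ : V ≃ₗ[E] V) w ∈ W') ∧ IsCompl W W')
    (F : V ≃ₗ[E] V) (hF : F ∈ Γ) (c : E)
    (hchar : LinearMap.charpoly (F : V →ₗ[E] V) = (X - C c) * P.map (algebraMap ℚ E))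
    (hmult : ∀ u v, ψ (F u) (F v) = (p : E) ^ n * ψ u v)
    (g : V ≃ₗ[E] V) (hg : ∃ μ : E, ∀ u v, ψ (g u) (g v) = μ * ψ u v) :
    ((∀ c : Module.End E V, Comm Γ c → ∀ v, c (g v) = g (c v)) →
      InCl Γ (((g * g : V ≃ₗ[E] V)) : Module.End E V)) ∧
    ((∀ W : Submodule E V, (∀ γ ∈ Γ, ∀ w ∈ W, (γ : V ≃ₗ[E] V) w ∈ W) → W = ⊥ ∨ W = ⊤) →
      InCl Γ (g : Module.End E V)) := by
  classical
  have hac : IsAlgClosed K := IsAlgClosure.isAlgClosed E
  have halg : Algebra.IsAlgebraic E K := IsAlgClosure.isAlgebraic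
  have hcz : CharZero K := charZero_of_injective_algebraMap (algebraMap E K).injective
  let jE : P.SplittingField →ₐ[ℚ] K := IsAlgClosed.lift
  have hmapP : ((X - C c) * P.map (algebraMap ℚ E)).map (algebraMap E K) =
      (X - C (algebraMap E K c)) * P.map (algebraMap ℚ K) := by
    rw [Polynomial.map_mul, Polynomial.map_sub, map_X, map_C, Polynomial.map_map]
    congr 2
    exact Subsingleton.elim _ _
  have hsimK : ∀ γ ∈ Γ.map (bcE K), ∃ μ : K, ∀ u v, fK K ψ ((γ : K ⊗[E] V ≃ₗ[K] K ⊗[E] V) u)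
      ((γ : K ⊗[E] V ≃ₗ[K] K ⊗[E] V) v) = μ * fK K ψ u v := by
    rintro _ ⟨γ, hγ, rfl⟩
    obtain ⟨μ, hμ⟩ := hsim γ hγ
    exact ⟨algebraMap E K μ, fK_sim γ μ hμ⟩
  have hcharK : LinearMap.charpoly ((bcE K F : K ⊗[E] V ≃ₗ[K] K ⊗[E] V) :
      K ⊗[E] V →ₗ[K] K ⊗[E] V) = (X - C (algebraMap E K c)) * P.map (algebraMap ℚ K) := by
    rw [bcE_coe, LinearMap.charpoly_baseChange, hchar, hmapP]
  have hmultK : ∀ u v, fK K ψ (bcE K F u) (bcE K F v) = (p : K) ^ n * fK K ψ u v := by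
    intro u v
    rw [fK_sim F _ hmult, map_pow, map_natCast]
  have hndK := fK_nondeg_sym (K := K) hsym hnd
  have hc2 : (algebraMap E K c) ^ 2 = (p : K) ^ n :=
    c_sq_gen hweil (fK K ψ) hndK (bcE K F) (algebraMap E K c) hcharK hmultK
  obtain ⟨b, hset⟩ := psetup_sq hn hP hweil hreal hmr (fK K ψ) (fK_sym hsym) hndK
    (Γ.map (bcE K)) hsimK (bcE K F) ⟨F, hF, rfl⟩ (algebraMap E K c) hc2 hcharK hmultK jE
  have hmn : ∀ i, OMn (Γ.map (bcE K)) b i := by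
    intro i
    refine omn_of_ss hF b _ hset.lam_inj hset.eig hss hset.coordP ?_ i
    intro σ
    exact hset.perm_R (semiSym_bc K σ Γ)
  obtain ⟨μ, hμ⟩ := hg
  have hgg : ((bcE K (g * g) : K ⊗[E] V ≃ₗ[K] K ⊗[E] V) : Module.End K (K ⊗[E] V)) =
      ((bcE K g : K ⊗[E] V ≃ₗ[K] K ⊗[E] V) : Module.End K (K ⊗[E] V)) *
      ((bcE K g : K ⊗[E] V ≃ₗ[K] K ⊗[E] V) : Module.End K (K ⊗[E] V)) := by
    rw [map_mul]
    rfl
  refine ⟨?_, ?_⟩
  · intro hcomm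
    apply inCl_descend K
    rw [hgg]
    exact hset.pdense hmn (bcE K g) ⟨algebraMap E K μ, fK_sim g μ hμ⟩
      (hset.supp_of_comm hmn _ (fun c hc => comm_descend K Γ g hcomm c hc))
  · intro hirr
    apply inCl_descend K
    obtain ⟨v0, hv0, hFv⟩ := exists_eig_lin F c _ hchar
    exact hset.full (hmn none)
      (fun W hW => irr_bc hset c rfl v0 hv0 hFv hndK hirr W hW) (bcE K g)
      ⟨algebraMap E K μ, fK_sim g μ hμ⟩

/-- **One Frobenius, any rank, both parities of the form.** -/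
theorem ssAllSq (hn : 0 < n) (hP : Squarefree P)
    (hweil : ∀ z : ℂ, aeval z P = 0 → ‖z‖ ^ 2 = (p : ℝ) ^ n)
    (hreal : ∀ z : ℂ, aeval z P = 0 → z ^ 2 ≠ (p : ℂ) ^ n) (hmr : MaxRank ((p : ℂ) ^ n) P)
    {E : Type*} [Field E] [CharZero E] (K : Type*) [Field K] [Algebra E K] [IsAlgClosure E K]
    {V : Type*} [AddCommGroup V] [Module E V] [FiniteDimensional E V] (ψ : V →ₗ[E] V →ₗ[E] E)
    (hψ : (∀ v, ψ v v = 0) ∨ (∀ u v, ψ u v = ψ v u)) (hnd : ∀ v, (∀ w, ψ v w = 0) → v = 0)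
    (Γ : Subgroup (V ≃ₗ[E] V))
    (hsim : ∀ γ ∈ Γ, ∃ μ : E, ∀ u v, ψ ((γ : V ≃ₗ[E] V) u) ((γ : V ≃ₗ[E] V) v) = μ * ψ u v)
    (hss : ∀ W : Submodule E V, (∀ γ ∈ Γ, ∀ w ∈ W, (γ : V ≃ₗ[E] V) w ∈ W) →
      ∃ W' : Submodule E V, (∀ γ ∈ Γ, ∀ w ∈ W', (γ : V ≃ₗ[E] V) w ∈ W') ∧ IsCompl W W')
    (F : V ≃ₗ[E] V) (hF : F ∈ Γ)
    (hchar : LinearMap.charpoly (F : V →ₗ[E] V) = P.map (algebraMap ℚ E) ∨
      ∃ c : E, LinearMap.charpoly (F : V →ₗ[E] V) = (X - C c) * P.map (algebraMap ℚ E))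
    (hmult : ∀ u v, ψ (F u) (F v) = (p : E) ^ n * ψ u v)
    (g : V ≃ₗ[E] V) (hg : ∃ μ : E, ∀ u v, ψ (g u) (g v) = μ * ψ u v) :
    ((∀ c : Module.End E V, Comm Γ c → ∀ v, c (g v) = g (c v)) →
      InCl Γ (((g * g : V ≃ₗ[E] V)) : Module.End E V) ∧
        ((∀ v, ψ v v = 0) → InCl Γ (g : Module.End E V))) ∧
    (Odd (Module.finrank E V) →
      (∀ W : Submodule E V, (∀ γ ∈ Γ, ∀ w ∈ W, (γ : V ≃ₗ[E] V) w ∈ W) → W = ⊥ ∨ W = ⊤) →
      InCl Γ (g : Module.End E V)) := by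
  rcases hchar with hchar | ⟨c, hchar⟩
  · refine ⟨fun hcomm => ssFrobSq hn hP hweil hreal hmr K ψ hψ hnd Γ hsim hss F hF hchar hmult g hg
      hcomm, ?_⟩
    intro hodd _
    exfalso
    rw [← LinearMap.charpoly_natDegree (F : V →ₗ[E] V), hchar, natDegree_map] at hodd
    exact (Nat.not_even_iff_odd.2 hodd) (card_even_sq hP hweil hreal)
  · rcases hψ with halt | hsym
    · exfalso
      have hac : IsAlgClosed K := IsAlgClosure.isAlgClosed E
      have halg : Algebra.IsAlgebraic E K := IsAlgClosure.isAlgebraic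
      have hcz : CharZero K := charZero_of_injective_algebraMap (algebraMap E K).injective
      let jE : P.SplittingField →ₐ[ℚ] K := IsAlgClosed.lift
      have hmapP : ((X - C c) * P.map (algebraMap ℚ E)).map (algebraMap E K) =
          (X - C (algebraMap E K c)) * P.map (algebraMap ℚ K) := by
        rw [Polynomial.map_mul, Polynomial.map_sub, map_X, map_C, Polynomial.map_map]
        congr 2
        exact Subsingleton.elim _ _
      have hcharK : LinearMap.charpoly ((bcE K F : K ⊗[E] V ≃ₗ[K] K ⊗[E] V) :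
          K ⊗[E] V →ₗ[K] K ⊗[E] V) = (X - C (algebraMap E K c)) * P.map (algebraMap ℚ K) := by
        rw [bcE_coe, LinearMap.charpoly_baseChange, hchar, hmapP]
      have hmultK : ∀ u v, fK K ψ (bcE K F u) (bcE K F v) = (p : K) ^ n * fK K ψ u v := by
        intro u v
        rw [fK_sim F _ hmult, map_pow, map_natCast]
      have hsw : ∀ u v, ψ v u = - ψ u v := fun u v => psi_swap halt u v
      have hndK := fK_nondeg (K := K) hsw hnd
      have hc2 : (algebraMap E K c) ^ 2 = (p : K) ^ n :=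
        c_sq_gen hweil (fK K ψ) hndK (bcE K F) (algebraMap E K c) hcharK hmultK
      exact no_alt_sq hP hweil hreal (fK K ψ) (fK_alt halt) hndK (bcE K F) (algebraMap E K c) hc2
        hcharK hmultK jE
    · obtain ⟨h1, h2⟩ := ssOddSq hn hP hweil hreal hmr K ψ hsym hnd Γ hsim hss F hF c hchar hmult g
        hg
      refine ⟨fun hcomm => ⟨h1 hcomm, ?_⟩, fun _ hirr => h2 hirr⟩
      intro halt
      exfalso
      obtain ⟨v0, hv0, -⟩ := exists_eig_lin F c _ hchar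
      apply hv0
      apply hnd
      intro w
      have e1 := halt (v0 + w)
      simp only [map_add, LinearMap.add_apply, halt v0, halt w, hsym w v0] at e1
      have e2 : (2 : E) * ψ v0 w = 0 := by linear_combination e1
      rcases mul_eq_zero.1 e2 with e3 | e3
      · exact absurd e3 two_ne_zero
      · exact e3

end Pool.Agent.H91O
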